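import Mathlib
import Pool.Agent.Lib.MP_95e7ec_an.Defs

/-!
# The Hilbert numbers are not `O(n³)`: the last step

From lower bounds for `hilbertNumber` to the frozen negation S05464.
-/

set_option autoImplicit false

open Filter

namespace Pool.Agent.Lib.MP_95e7ec_an.Ww

/-- If `hilbertNumber n > A n³` for arbitrarily large `n`, for every `A`, then the Hilbert numbers are
not `O(n³)` (literal form of the frozen negation). -/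
theorem not_cubic (H : ∀ A N : ℕ, ∃ n : ℕ, N ≤ n ∧ ∃ m : ℕ, (m : ℕ∞) ≤ hilbertNumber n ∧
      A * n ^ 3 < m) :
    ¬ (∃ K : ℝ, ∃ N : ℕ, ∀ n : ℕ, N ≤ n → ∀ P Q : MvPolynomial (Fin 2) ℝ,
      P.totalDegree ≤ n → Q.totalDegree ≤ n →
      ∃ S : Finset (Set (ℝ × ℝ)), (S.card : ℝ) ≤ K * (n : ℝ) ^ 3 ∧
        ∀ C : Set (ℝ × ℝ),
          ((∃ γ : ℝ → ℝ × ℝ, ∃ T : ℝ, 0 < T ∧
              (∀ t : ℝ, HasDerivAt γ
                (MvPolynomial.eval ![(γ t).1, (γ t).2] P,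
                 MvPolynomial.eval ![(γ t).1, (γ t).2] Q) t) ∧
              (∀ t : ℝ, γ (t + T) = γ t) ∧
              (∃ s t : ℝ, γ s ≠ γ t) ∧
              C = Set.range γ) ∧
           ∃ U : Set (ℝ × ℝ), IsOpen U ∧ C ⊆ U ∧
             ∀ C' : Set (ℝ × ℝ),
               (∃ γ : ℝ → ℝ × ℝ, ∃ T : ℝ, 0 < T ∧
                  (∀ t : ℝ, HasDerivAt γ
                    (MvPolynomial.eval ![(γ t).1, (γ t).2] P,
                     MvPolynomial.eval ![(γ t).1, (γ t).2] Q) t) ∧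
                  (∀ t : ℝ, γ (t + T) = γ t) ∧
                  (∃ s t : ℝ, γ s ≠ γ t) ∧
                  C' = Set.range γ) →
               C' ⊆ U → C' = C) →
          C ∈ S) := by
  rintro ⟨K, N, h⟩
  obtain ⟨n, hn, m, hm, hlt⟩ := H ⌈K⌉₊ N
  have key : hilbertNumber n ≤ ((⌈K⌉₊ * n ^ 3 : ℕ) : ℕ∞) := by
    refine iSup_le fun P => iSup_le fun Q => iSup_le fun hP => iSup_le fun hQ => ?_
    obtain ⟨S, hS, hall⟩ := h n hn P Q hP hQ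
    have hsub : {C | IsLimitCycle (vf P Q) C} ⊆ (S : Set (Set (ℝ × ℝ))) :=
      fun C hC => Finset.mem_coe.2 (hall C hC)
    refine (Set.encard_le_encard hsub).trans ?_
    rw [Set.encard_coe_eq_coe_finsetCard]
    have h2 : (S.card : ℝ) ≤ ((⌈K⌉₊ * n ^ 3 : ℕ) : ℝ) := by
      push_cast
      exact hS.trans (mul_le_mul_of_nonneg_right (Nat.le_ceil K) (by positivity))
    have h3 : S.card ≤ ⌈K⌉₊ * n ^ 3 := by exact_mod_cast h2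
    exact_mod_cast h3
  have h4 : (m : ℕ∞) ≤ ((⌈K⌉₊ * n ^ 3 : ℕ) : ℕ∞) := hm.trans key
  have h5 : m ≤ ⌈K⌉₊ * n ^ 3 := by exact_mod_cast h4
  omega

/-- A power `p > 3` is enough. -/
theorem growth_of_pow {p c : ℝ} (hp : 3 < p) (hc : 0 < c) (C C0 k0 : ℕ) (hC : 1 ≤ C)
    (h : ∀ k : ℕ, k0 ≤ k → ∃ m : ℕ, c * (k : ℝ) ^ p ≤ m ∧
      (m : ℕ∞) ≤ hilbertNumber (C * k + C0)) :
    ∀ A N : ℕ, ∃ n : ℕ, N ≤ n ∧ ∃ m : ℕ, (m : ℕ∞) ≤ hilbertNumber n ∧ A * n ^ 3 < m := by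
  intro A N
  have t1 : Tendsto (fun k : ℕ => (k : ℝ) ^ (p - 3)) atTop atTop :=
    (tendsto_rpow_atTop (by linarith)).comp tendsto_natCast_atTop_atTop
  have e1 := t1.eventually_gt_atTop ((A : ℝ) * ((C : ℝ) + C0) ^ 3 / c)
  obtain ⟨k, hk1, hk2⟩ := (e1.and (eventually_ge_atTop (max (max k0 N) 1))).exists
  have hkk : k0 ≤ k := (le_max_left k0 N).trans ((le_max_left _ _).trans hk2)
  have hkN : N ≤ k := (le_max_right k0 N).trans ((le_max_left _ _).trans hk2)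
  have hk : 1 ≤ k := (le_max_right _ _).trans hk2
  obtain ⟨m, hm1, hm2⟩ := h k hkk
  refine ⟨C * k + C0, by nlinarith, m, hm2, ?_⟩
  have hk' : (1 : ℝ) ≤ k := by exact_mod_cast hk
  have hk0 : (0 : ℝ) < k := by linarith
  rw [div_lt_iff₀ hc] at hk1
  have h1 : ((C : ℝ) * k + C0) ≤ ((C : ℝ) + C0) * k := by
    have : (0 : ℝ) ≤ C0 := Nat.cast_nonneg _
    nlinarith
  have h2 : ((C : ℝ) * k + C0) ^ 3 ≤ (((C : ℝ) + C0) * k) ^ 3 :=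
    pow_le_pow_left₀ (by positivity) h1 3
  have h3 : (k : ℝ) ^ p = (k : ℝ) ^ (p - 3) * (k : ℝ) ^ 3 := by
    rw [← Real.rpow_natCast, ← Real.rpow_add hk0]
    norm_num
  have h4 : (A : ℝ) * ((C : ℝ) * k + C0) ^ 3 < m := by
    refine lt_of_le_of_lt (mul_le_mul_of_nonneg_left h2 (Nat.cast_nonneg A)) ?_
    refine lt_of_lt_of_le ?_ hm1
    rw [h3, mul_pow]
    have h5 : (0 : ℝ) < (k : ℝ) ^ 3 := by positivity
    nlinarith
  exact_mod_cast h4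

/-- The form with words: `R L N` says that some word with `L` letters has `N` alternations. -/
theorem growth_of_words {R : ℕ → ℕ → Prop} (C1 c1 K0 : ℕ)
    (hW : ∀ K : ℕ, K0 ≤ K → ∃ L N : ℕ, L ≤ C1 * K ^ 3 ∧ K ^ 5 ≤ c1 * N ∧ R L N)
    (d C C0 k0 : ℕ) (hC : 1 ≤ C)
    (hT : ∀ k L N : ℕ, k0 ≤ k → d * L ≤ k ^ 2 → R L N →
      (N : ℕ∞) ≤ hilbertNumber (C * k + C0)) :
    ∀ A N : ℕ, ∃ n : ℕ, N ≤ n ∧ ∃ m : ℕ, (m : ℕ∞) ≤ hilbertNumber n ∧ A * n ^ 3 < m := by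
  intro A M
  obtain ⟨s, hs⟩ : ∃ s : ℕ, s = d * C1 + 1 := ⟨_, rfl⟩
  obtain ⟨E, hE⟩ : ∃ E : ℕ, E = c1 * A * (C * s + C0) ^ 3 := ⟨_, rfl⟩
  obtain ⟨q, hq⟩ : ∃ q : ℕ, q = E + K0 + k0 + M + 1 := ⟨_, rfl⟩
  have hq1 : 1 ≤ q := by omega
  have hq2 : q ≤ q ^ 2 := Nat.le_self_pow (by norm_num) q
  obtain ⟨L, N, hL, hN, hR⟩ := hW (q ^ 2) (by omega)
  have hs1 : 1 ≤ s := by omega
  have hs2 : s ≤ s ^ 2 := Nat.le_self_pow (by norm_num) s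
  have hsd : d * C1 ≤ s ^ 2 := by omega
  have hq3 : q ≤ q ^ 3 := Nat.le_self_pow (by norm_num) q
  have hsq : q ≤ s * q ^ 3 := hq3.trans (Nat.le_mul_of_pos_left _ hs1)
  have hdL : d * L ≤ (s * q ^ 3) ^ 2 := by
    calc d * L ≤ d * (C1 * (q ^ 2) ^ 3) := Nat.mul_le_mul_left d hL
      _ = d * C1 * (q ^ 3) ^ 2 := by ring
      _ ≤ s ^ 2 * (q ^ 3) ^ 2 := Nat.mul_le_mul_right _ hsd
      _ = (s * q ^ 3) ^ 2 := by ring
  have hn := hT (s * q ^ 3) L N (by omega) hdL hR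
  have hCs : s * q ^ 3 ≤ C * (s * q ^ 3) := Nat.le_mul_of_pos_left _ hC
  refine ⟨C * (s * q ^ 3) + C0, by omega, N, hn, ?_⟩
  by_contra hcon
  have hcon' : N ≤ A * (C * (s * q ^ 3) + C0) ^ 3 := not_lt.1 hcon
  have h1 : C * (s * q ^ 3) + C0 ≤ (C * s + C0) * q ^ 3 := by
    have h10 : C0 ≤ C0 * q ^ 3 := Nat.le_mul_of_pos_right _ (by omega)
    have h11 : (C * s + C0) * q ^ 3 = C * (s * q ^ 3) + C0 * q ^ 3 := by ring
    omega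
  have h2 : (C * (s * q ^ 3) + C0) ^ 3 ≤ ((C * s + C0) * q ^ 3) ^ 3 :=
    Nat.pow_le_pow_left h1 3
  have h3 : (q ^ 2) ^ 5 ≤ E * q ^ 9 := by
    calc (q ^ 2) ^ 5 ≤ c1 * N := hN
      _ ≤ c1 * (A * (C * (s * q ^ 3) + C0) ^ 3) := Nat.mul_le_mul_left _ hcon'
      _ ≤ c1 * (A * ((C * s + C0) * q ^ 3) ^ 3) :=
          Nat.mul_le_mul_left _ (Nat.mul_le_mul_left _ h2)
      _ = E * q ^ 9 := by rw [hE]; ring
  have h5 : 0 < q ^ 9 := Nat.pow_pos hq1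
  have h6 : E * q ^ 9 < q * q ^ 9 := Nat.mul_lt_mul_of_pos_right (by omega) h5
  have h7 : (q ^ 2) ^ 5 = q * q ^ 9 := by ring
  rw [h7] at h3
  exact absurd h3 (not_le.2 h6)

/-- The real form of the conclusion (input of `Hn.not_cubic`). -/
theorem growth_real (H : ∀ A N : ℕ, ∃ n : ℕ, N ≤ n ∧ ∃ m : ℕ, (m : ℕ∞) ≤ hilbertNumber n ∧
      A * n ^ 3 < m) :
    ∀ (K : ℝ) (N : ℕ), ∃ n : ℕ, N ≤ n ∧ ∃ M : ℕ, K * (n : ℝ) ^ 3 < M ∧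
      (M : ℕ∞) ≤ hilbertNumber n := by
  intro K N
  obtain ⟨n, hn, m, hm, hlt⟩ := H ⌈K⌉₊ N
  refine ⟨n, hn, m, ?_, hm⟩
  have h1 : ((⌈K⌉₊ * n ^ 3 : ℕ) : ℝ) < m := by exact_mod_cast hlt
  push_cast at h1
  exact lt_of_le_of_lt (mul_le_mul_of_nonneg_right (Nat.le_ceil K) (by positivity)) h1

end Pool.Agent.Lib.MP_95e7ec_an.Ww
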