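import Pool.Agent.Lib.MP_95e7ec_an.Ww.Iter

/-!
# Words with many alternations

For every `T` there is `C` such that for every `K` there is a word with at most `C K ^ (T + 1)`
letters of positive exponents whose displacement alternates at least `K ^ (2 T + 1) / C` times.
-/

set_option autoImplicit false

open Filter Topology Set

namespace Pool.Agent.Lib.MP_95e7ec_an.Ww

open Pool.Agent.MP95e7W

/-- A real word from a family. -/
theorem Alt.exists_word {m N : ℕ} (h : Alt m N) : ∃ (l : List (ℝ × ℝ)) (z : ℕ → ℝ),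
    l.length = m ∧ (∀ p ∈ l, 0 < p.1) ∧ (∀ i j, i < j → z i < z j) ∧
      ∀ i ≤ N, 0 < z i ∧ Ok l (z i) ∧ 0 < (-1) ^ i * (wd l (z i) - z i) := by
  obtain ⟨U, A, s, -, ⟨w, hw⟩, hs, hU, hA⟩ := h
  have hmono : ∀ i j, i ≤ j → j ≤ N → s i ≤ s j := by
    intro i j hij
    induction j, hij using Nat.le_induction with
    | base => intro _; exact le_rfl
    | succ j hij ih => intro hj; exact (ih (by omega)).trans (hs j (by omega)).le
  have h1 : ∀ i ∈ Finset.range (N + 1), ∀ᶠ d in 𝓝[>] (0 : ℝ), Ok (w d) (Real.exp (s i)) ∧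
      0 < (-1) ^ i * (wd (w d) (Real.exp (s i)) - Real.exp (s i)) := by
    intro i hi
    have hi' : i ≤ N := Nat.lt_succ_iff.1 (Finset.mem_range.1 hi)
    exact hw.sign (hU (s i) (hmono 0 i (Nat.zero_le _) hi') (hmono i N hi' le_rfl)) (hA i hi')
  obtain ⟨d, hd⟩ := ((Finset.eventually_all _).2 h1).exists
  refine ⟨w d, fun i => if i ≤ N then Real.exp (s i) else Real.exp (s N) + (i - N), hw.len d,
    hw.pos d, fun i j hij => ?_, fun i hi => ?_⟩
  · by_cases hj : j ≤ N
    · have hi : i ≤ N := by omega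
      simp only [if_pos hi, if_pos hj]
      refine Real.exp_lt_exp.2 ?_
      exact (hs i (by omega)).trans_le (hmono (i + 1) j hij hj)
    · have hjN : (N : ℝ) < j := by exact_mod_cast (not_le.1 hj)
      by_cases hi : i ≤ N
      · simp only [if_pos hi, if_neg hj]
        have := Real.exp_le_exp.2 (hmono i N hi le_rfl)
        linarith
      · simp only [if_neg hi, if_neg hj]
        have : (i : ℝ) < j := by exact_mod_cast hij
        linarith
  · simp only [if_pos hi]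
    exact ⟨Real.exp_pos _, hd i (Finset.mem_range.2 (Nat.lt_succ_of_le hi))⟩

/-- **Words with many alternations.** -/
theorem words (T : ℕ) : ∃ C : ℕ, ∀ K ≥ 2, ∃ (N : ℕ) (l : List (ℝ × ℝ)) (z : ℕ → ℝ),
    K ^ (2 * T + 1) ≤ C * N ∧ l.length ≤ C * K ^ (T + 1) ∧ (∀ p ∈ l, 0 < p.1) ∧
      (∀ i j, i < j → z i < z j) ∧
      ∀ i ≤ N, 0 < z i ∧ Ok l (z i) ∧ 0 < (-1) ^ i * (wd l (z i) - z i) := by
  obtain ⟨C, hC⟩ := Alt.iter T
  refine ⟨C, fun K hK => ?_⟩
  obtain ⟨m, N, -, h1, h2, h3⟩ := hC K hK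
  obtain ⟨l, z, h4, h5, h6, h7⟩ := h3.exists_word
  exact ⟨N, l, z, h1, h4 ▸ h2, h5, h6, h7⟩

end Pool.Agent.Lib.MP_95e7ec_an.Ww
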