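import Mathlib

/-!
# The commutator field
-/

set_option autoImplicit false

namespace Pool.Agent.Lib.MP_95e7ec_an.Ww

/-- The commutator field `A' B - B' A` (complex derivatives). -/
noncomputable def br (A B : ℂ → ℂ) (z : ℂ) : ℂ := deriv A z * B z - deriv B z * A z

end Pool.Agent.Lib.MP_95e7ec_an.Ww
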