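import Mathlib
import Pool.Agent.Lib.MP_95e7ec_an.Ww.Br

/-!
# Words: the double bracket of conjugated cheap letters as `ε → 0`

`br X Y = X' Y - Y' X`. For `X = e^{-α g} / g'` one has `X' = - P X`, `P = α g' + g'' / g'`, so
`br (br X Y) Z = ((P - Q) (P + Q - γ) - (P' - Q')) X Y Z`. With `α = a / ε`, `β = b / ε`,
`γ = c / ε` and `g₁ = id + ε v₁ + ..`, `g₂ = id + ε v₂ + ..` the product of it with
`ε² e^{(a + b + c) z / ε}` tends to `(a - b) (a + b - c) e^{-(a v₁ + b v₂)}`.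
-/

set_option autoImplicit false

open Set Filter Topology

namespace Pool.Agent.Lib.MP_95e7ec_an.Ww

/-- The field of the cheap letter with the exponent `α`, pulled back by `g`. -/
noncomputable def pb (α : ℂ) (g : ℂ → ℂ) (z : ℂ) : ℂ := Complex.exp (-(α * g z)) / deriv g z

/-- The logarithmic derivative of `1 / pb α g`. -/
noncomputable def pp (α : ℂ) (g : ℂ → ℂ) (z : ℂ) : ℂ :=
  α * deriv g z + deriv (deriv g) z / deriv g z

/-- The derivative of `pp`. -/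
noncomputable def pp' (α : ℂ) (g : ℂ → ℂ) (z : ℂ) : ℂ :=
  α * deriv (deriv g) z + (deriv (deriv (deriv g)) z * deriv g z -
    deriv (deriv g) z * deriv (deriv g) z) / deriv g z ^ 2

theorem analyticAt_pb (α : ℂ) {g : ℂ → ℂ} {z : ℂ} (h : AnalyticAt ℂ g z) (n : deriv g z ≠ 0) :
    AnalyticAt ℂ (pb α g) z := by
  unfold pb
  exact ((analyticAt_const.mul h).neg.cexp).div h.deriv n

theorem analyticAt_br {X Y : ℂ → ℂ} {z : ℂ} (hX : AnalyticAt ℂ X z) (hY : AnalyticAt ℂ Y z) :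
    AnalyticAt ℂ (br X Y) z := by
  unfold br
  exact (hX.deriv.mul hY).sub (hY.deriv.mul hX)

theorem hasDerivAt_pb (α : ℂ) {g : ℂ → ℂ} {z : ℂ} (h : AnalyticAt ℂ g z) (n : deriv g z ≠ 0) :
    HasDerivAt (pb α g) (-(pp α g z) * pb α g z) z := by
  have h1 := h.differentiableAt.hasDerivAt
  have h2 := h.deriv.differentiableAt.hasDerivAt
  have h3 := ((h1.const_mul α).neg.cexp).div h2 n
  refine HasDerivAt.congr_deriv (f := pb α g) h3 ?_
  unfold pp pb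
  simp only [Pi.neg_apply]
  field_simp
  ring

theorem hasDerivAt_pp (α : ℂ) {g : ℂ → ℂ} {z : ℂ} (h : AnalyticAt ℂ g z) (n : deriv g z ≠ 0) :
    HasDerivAt (pp α g) (pp' α g z) z := by
  have h2 := h.deriv.differentiableAt.hasDerivAt
  have h3 := h.deriv.deriv.differentiableAt.hasDerivAt
  exact (h2.const_mul α).add (h3.div h2 n)

/-- The double bracket. -/
theorem br_br {g₁ g₂ : ℂ → ℂ} {z : ℂ} (h₁ : AnalyticAt ℂ g₁ z) (h₂ : AnalyticAt ℂ g₂ z)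
    (n₁ : deriv g₁ z ≠ 0) (n₂ : deriv g₂ z ≠ 0) (α β γ : ℂ) :
    br (br (pb α g₁) (pb β g₂)) (fun w => Complex.exp (-(γ * w))) z =
      ((pp α g₁ z - pp β g₂ z) * (pp α g₁ z + pp β g₂ z - γ) - (pp' α g₁ z - pp' β g₂ z)) *
        (pb α g₁ z * pb β g₂ z * Complex.exp (-(γ * z))) := by
  have e1 : ∀ᶠ w in 𝓝 z, br (pb α g₁) (pb β g₂) w =
      (pp β g₂ w - pp α g₁ w) * (pb α g₁ w * pb β g₂ w) := by
    have a1 := h₁.eventually_analyticAt
    have a2 := h₂.eventually_analyticAt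
    have b1 := h₁.deriv.continuousAt.eventually_ne n₁
    have b2 := h₂.deriv.continuousAt.eventually_ne n₂
    filter_upwards [a1, a2, b1, b2] with w w1 w2 w3 w4
    unfold br
    rw [(hasDerivAt_pb α w1 w3).deriv, (hasDerivAt_pb β w2 w4).deriv]
    ring
  have d1 := hasDerivAt_pb α h₁ n₁
  have d2 := hasDerivAt_pb β h₂ n₂
  have d3 := ((hasDerivAt_pp β h₂ n₂).sub (hasDerivAt_pp α h₁ n₁)).mul (d1.mul d2)
  have d4 := d3.congr_of_eventuallyEq e1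
  have d5 : HasDerivAt (fun w : ℂ => Complex.exp (-(γ * w)))
      (Complex.exp (-(γ * z)) * -(γ * 1)) z := ((hasDerivAt_id z).const_mul γ).neg.cexp
  unfold br at d4 ⊢
  rw [d4.deriv, d5.deriv]
  have e2 := e1.self_of_nhds
  unfold br at e2
  rw [e2]
  simp only [Pi.mul_apply, Pi.sub_apply]
  ring

/-- The germs at `z` of a family `g ε = id + ε v + ..`. -/
structure Near (g : ℝ → ℂ → ℂ) (z v : ℂ) : Prop where
  an : ∀ᶠ ε in 𝓝[>] (0 : ℝ), AnalyticAt ℂ (g ε) z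
  l0 : Tendsto (fun ε : ℝ => (g ε z - z) / (ε : ℂ)) (𝓝[>] 0) (𝓝 v)
  l1 : Tendsto (fun ε : ℝ => deriv (g ε) z) (𝓝[>] 0) (𝓝 1)
  l2 : Tendsto (fun ε : ℝ => deriv (deriv (g ε)) z) (𝓝[>] 0) (𝓝 0)
  l3 : Tendsto (fun ε : ℝ => deriv (deriv (deriv (g ε))) z) (𝓝[>] 0) (𝓝 0)

theorem tendsto_ofReal_zero : Tendsto (fun ε : ℝ => (ε : ℂ)) (𝓝[>] 0) (𝓝 0) := by
  have h : Tendsto (fun ε : ℝ => (ε : ℂ)) (𝓝 0) (𝓝 ((0 : ℝ) : ℂ)) :=
    Complex.continuous_ofReal.tendsto 0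
  rw [Complex.ofReal_zero] at h
  exact h.mono_left nhdsWithin_le_nhds

theorem Near.ne {g : ℝ → ℂ → ℂ} {z v : ℂ} (h : Near g z v) :
    ∀ᶠ ε in 𝓝[>] (0 : ℝ), deriv (g ε) z ≠ 0 :=
  h.l1.eventually_ne one_ne_zero

theorem Near.pp_lim {g : ℝ → ℂ → ℂ} {z v : ℂ} (h : Near g z v) (a : ℂ) :
    Tendsto (fun ε : ℝ => (ε : ℂ) * pp (a / ε) (g ε) z) (𝓝[>] 0) (𝓝 a) := by
  have h1 : Tendsto (fun ε : ℝ => a * deriv (g ε) z +
      (ε : ℂ) * (deriv (deriv (g ε)) z / deriv (g ε) z)) (𝓝[>] 0)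
      (𝓝 (a * 1 + 0 * (0 / 1))) :=
    (tendsto_const_nhds.mul h.l1).add (tendsto_ofReal_zero.mul (h.l2.div h.l1 one_ne_zero))
  have h2 : a * 1 + 0 * (0 / 1) = a := by ring
  rw [h2] at h1
  refine h1.congr' ?_
  filter_upwards [self_mem_nhdsWithin] with ε hε
  have he : (ε : ℂ) ≠ 0 := by
    have : (0 : ℝ) < ε := hε
    exact_mod_cast this.ne'
  unfold pp
  field_simp

theorem Near.pp'_lim {g : ℝ → ℂ → ℂ} {z v : ℂ} (h : Near g z v) (a : ℂ) :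
    Tendsto (fun ε : ℝ => (ε : ℂ) ^ 2 * pp' (a / ε) (g ε) z) (𝓝[>] 0) (𝓝 0) := by
  have h1 : Tendsto (fun ε : ℝ => (ε : ℂ) * (a * deriv (deriv (g ε)) z) +
      (ε : ℂ) ^ 2 * ((deriv (deriv (deriv (g ε))) z * deriv (g ε) z -
        deriv (deriv (g ε)) z * deriv (deriv (g ε)) z) / deriv (g ε) z ^ 2)) (𝓝[>] 0)
      (𝓝 (0 * (a * 0) + 0 ^ 2 * ((0 * 1 - 0 * 0) / 1 ^ 2))) :=
    (tendsto_ofReal_zero.mul (tendsto_const_nhds.mul h.l2)).add
      ((tendsto_ofReal_zero.pow 2).mul (((h.l3.mul h.l1).sub (h.l2.mul h.l2)).div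
        (h.l1.pow 2) (by norm_num)))
  have h2 : (0 : ℂ) * (a * 0) + 0 ^ 2 * ((0 * 1 - 0 * 0) / 1 ^ 2) = 0 := by ring
  rw [h2] at h1
  refine h1.congr' ?_
  filter_upwards [self_mem_nhdsWithin] with ε hε
  have he : (ε : ℂ) ≠ 0 := by
    have : (0 : ℝ) < ε := hε
    exact_mod_cast this.ne'
  unfold pp'
  rw [mul_add]
  congr 1
  field_simp

theorem Near.pb_lim {g : ℝ → ℂ → ℂ} {z v : ℂ} (h : Near g z v) (a : ℂ) :
    Tendsto (fun ε : ℝ => Complex.exp (a * z / ε) * pb (a / ε) (g ε) z) (𝓝[>] 0)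
      (𝓝 (Complex.exp (-(a * v)))) := by
  have h1 : Tendsto (fun ε : ℝ => Complex.exp (-(a * ((g ε z - z) / (ε : ℂ)))) / deriv (g ε) z)
      (𝓝[>] 0) (𝓝 (Complex.exp (-(a * v)) / 1)) :=
    (((Complex.continuous_exp.tendsto _).comp (tendsto_const_nhds.mul h.l0).neg)).div h.l1
      one_ne_zero
  rw [div_one] at h1
  refine h1.congr' ?_
  filter_upwards [self_mem_nhdsWithin] with ε hε
  have he : (ε : ℂ) ≠ 0 := by
    have : (0 : ℝ) < ε := hε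
    exact_mod_cast this.ne'
  unfold pb
  rw [← mul_div_assoc (Complex.exp (a * z / ε)), ← Complex.exp_add]
  congr 2
  field_simp
  ring

/-- The limit of the double bracket. -/
theorem asy {g₁ g₂ : ℝ → ℂ → ℂ} {z v₁ v₂ : ℂ} (h₁ : Near g₁ z v₁) (h₂ : Near g₂ z v₂)
    (a b c : ℂ) :
    Tendsto (fun ε : ℝ => (ε : ℂ) ^ 2 * Complex.exp ((a + b + c) * z / ε) *
      br (br (pb (a / ε) (g₁ ε)) (pb (b / ε) (g₂ ε))) (fun w => Complex.exp (-(c / ε * w))) z)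
      (𝓝[>] 0) (𝓝 ((a - b) * (a + b - c) * Complex.exp (-(a * v₁ + b * v₂)))) := by
  have h3 := (((h₁.pp_lim a).sub (h₂.pp_lim b)).mul (((h₁.pp_lim a).add (h₂.pp_lim b)).sub
    (tendsto_const_nhds (x := c)))).sub ((h₁.pp'_lim a).sub (h₂.pp'_lim b))
  have h4 := h3.mul ((h₁.pb_lim a).mul (h₂.pb_lim b))
  have e : ((a - b) * (a + b - c) - (0 - 0)) * (Complex.exp (-(a * v₁)) * Complex.exp (-(b * v₂))) =
      (a - b) * (a + b - c) * Complex.exp (-(a * v₁ + b * v₂)) := by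
    rw [← Complex.exp_add]
    ring_nf
  rw [e] at h4
  refine h4.congr' ?_
  filter_upwards [self_mem_nhdsWithin, h₁.an, h₂.an, h₁.ne, h₂.ne] with ε hε a1 a2 n1 n2
  have he : (ε : ℂ) ≠ 0 := by
    have : (0 : ℝ) < ε := hε
    exact_mod_cast this.ne'
  rw [br_br a1 a2 n1 n2]
  have e1 : Complex.exp ((a + b + c) * z / ε) =
      Complex.exp (a * z / ε) * Complex.exp (b * z / ε) * Complex.exp (c / ε * z) := by
    rw [← Complex.exp_add, ← Complex.exp_add]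
    congr 1
    field_simp
  have e2 : Complex.exp (c / ε * z) * Complex.exp (-(c / ε * z)) = 1 := by
    rw [← Complex.exp_add, add_neg_cancel, Complex.exp_zero]
  rw [e1]
  have e3 : (ε : ℂ) * (c / ε) = c := by field_simp
  generalize pp (a / ε) (g₁ ε) z = P
  generalize pp (b / ε) (g₂ ε) z = Q
  generalize pp' (a / ε) (g₁ ε) z = P'
  generalize pp' (b / ε) (g₂ ε) z = Q'
  generalize pb (a / ε) (g₁ ε) z = X
  generalize pb (b / ε) (g₂ ε) z = Y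
  generalize Complex.exp (a * z / ε) = ea
  generalize Complex.exp (b * z / ε) = eb
  generalize Complex.exp (c / ε * z) = ec at e2 ⊢
  generalize Complex.exp (-(c / ε * z)) = ec' at e2 ⊢
  generalize c / (ε : ℂ) = cc at e3 ⊢
  rw [← e3]
  linear_combination (-(ε : ℂ) ^ 2 * ((P - Q) * (P + Q - cc) - (P' - Q')) * ea * X * eb * Y) * e2

/-- The finite sum version. -/
theorem asy_sum {ι : Type*} (S : Finset ι) (T a b c : ι → ℂ) (tot : ℂ)
    (hS : ∀ i ∈ S, a i + b i + c i = tot) {g₁ g₂ : ℝ → ℂ → ℂ} {z v₁ v₂ : ℂ}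
    (h₁ : Near g₁ z v₁) (h₂ : Near g₂ z v₂) :
    Tendsto (fun ε : ℝ => (ε : ℂ) ^ 2 * Complex.exp (tot * z / ε) *
      ∑ i ∈ S, T i * br (br (pb (a i / ε) (g₁ ε)) (pb (b i / ε) (g₂ ε)))
        (fun w => Complex.exp (-(c i / ε * w))) z)
      (𝓝[>] 0) (𝓝 (∑ i ∈ S, T i * ((a i - b i) * (a i + b i - c i) *
        Complex.exp (-(a i * v₁ + b i * v₂))))) := by
  have h : Tendsto (fun ε : ℝ => ∑ i ∈ S, T i * ((ε : ℂ) ^ 2 *
      Complex.exp ((a i + b i + c i) * z / ε) *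
      br (br (pb (a i / ε) (g₁ ε)) (pb (b i / ε) (g₂ ε)))
        (fun w => Complex.exp (-(c i / ε * w))) z))
      (𝓝[>] 0) (𝓝 (∑ i ∈ S, T i * ((a i - b i) * (a i + b i - c i) *
        Complex.exp (-(a i * v₁ + b i * v₂))))) :=
    tendsto_finsetSum S fun i _ => tendsto_const_nhds.mul (asy h₁ h₂ (a i) (b i) (c i))
  refine h.congr fun ε => ?_
  rw [Finset.mul_sum]
  refine Finset.sum_congr rfl fun i hi => ?_
  rw [hS i hi]
  ring

end Pool.Agent.Lib.MP_95e7ec_an.Ww
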