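import Mathlib
import Pool.Agent.Lib.MP_95e7ec_an.Ww.Asy

/-!
# Words: germs of holomorphic families, and the double bracket of sums

`near_of_lim`: if `(f d w - w) / d ^ p → A w` locally uniformly on the open set `U` as `d → 0+` and
`(δ ε) ^ p = ε s`, then `f (δ ε) = id + ε s A + ..` at every point of `U` (`Near`).
`br_br_sum`: the double bracket is trilinear.
-/

set_option autoImplicit false

open Set Filter Topology

namespace Pool.Agent.Lib.MP_95e7ec_an.Ww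

section lims

variable {U : Set ℂ} {p : ℕ} {f : ℝ → ℂ → ℂ} {A : ℂ → ℂ} {z : ℂ}

/-- Derivatives of a family `f d = id + d ^ p A + ..`. -/
theorem lim_derivs (hU : IsOpen U) (hz : z ∈ U)
    (hol : ∀ K : Set ℂ, IsCompact K → K ⊆ U →
      ∀ᶠ d in 𝓝[>] (0 : ℝ), ∀ w ∈ K, DifferentiableAt ℂ (f d) w)
    (lim : TendstoLocallyUniformlyOn (fun (d : ℝ) w => (f d w - w) / (d : ℂ) ^ p) A (𝓝[>] 0) U) :
    (∀ᶠ d in 𝓝[>] (0 : ℝ), AnalyticAt ℂ (f d) z) ∧
    Tendsto (fun d : ℝ => (deriv (f d) z - 1) / (d : ℂ) ^ p) (𝓝[>] 0) (𝓝 (deriv A z)) ∧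
    Tendsto (fun d : ℝ => deriv (deriv (f d)) z / (d : ℂ) ^ p) (𝓝[>] 0)
      (𝓝 (deriv (deriv A) z)) ∧
    Tendsto (fun d : ℝ => deriv (deriv (deriv (f d))) z / (d : ℂ) ^ p) (𝓝[>] 0)
      (𝓝 (deriv (deriv (deriv A)) z)) := by
  obtain ⟨r, hr, hrU⟩ := Metric.isOpen_iff.1 hU z hz
  have hr2 : 0 < r / 2 := by linarith
  have hcU : Metric.closedBall z (r / 2) ⊆ U :=
    (Metric.closedBall_subset_ball (by linarith)).trans hrU
  have ho : IsOpen (Metric.ball z (r / 2)) := Metric.isOpen_ball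
  have hzB : z ∈ Metric.ball z (r / 2) := Metric.mem_ball_self hr2
  have hd := hol _ (isCompact_closedBall z (r / 2)) hcU
  have hG : ∀ᶠ d in 𝓝[>] (0 : ℝ), DifferentiableOn ℂ
      ((fun (d : ℝ) w => (f d w - w) / (d : ℂ) ^ p) d) (Metric.ball z (r / 2)) := by
    filter_upwards [hd] with d hd w hw
    exact (((hd w (Metric.ball_subset_closedBall hw)).sub differentiableAt_id).div_const
      _).differentiableWithinAt
  have L0 := lim.mono (Metric.ball_subset_closedBall.trans hcU)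
  have L1 := L0.deriv hG ho
  have hG1 : ∀ᶠ d in 𝓝[>] (0 : ℝ), DifferentiableOn ℂ
      ((deriv ∘ fun (d : ℝ) w => (f d w - w) / (d : ℂ) ^ p) d) (Metric.ball z (r / 2)) := by
    filter_upwards [hG] with d hd
    exact hd.deriv ho
  have L2 := L1.deriv hG1 ho
  have hG2 : ∀ᶠ d in 𝓝[>] (0 : ℝ), DifferentiableOn ℂ
      ((deriv ∘ deriv ∘ fun (d : ℝ) w => (f d w - w) / (d : ℂ) ^ p) d)
      (Metric.ball z (r / 2)) := by
    filter_upwards [hG1] with d hd
    exact hd.deriv ho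
  have L3 := L2.deriv hG2 ho
  have key : ∀ᶠ d in 𝓝[>] (0 : ℝ), AnalyticAt ℂ (f d) z ∧
      (deriv (f d) z - 1) / (d : ℂ) ^ p = deriv (fun w => (f d w - w) / (d : ℂ) ^ p) z ∧
      deriv (deriv (f d)) z / (d : ℂ) ^ p =
        deriv (deriv (fun w => (f d w - w) / (d : ℂ) ^ p)) z ∧
      deriv (deriv (deriv (f d))) z / (d : ℂ) ^ p =
        deriv (deriv (deriv (fun w => (f d w - w) / (d : ℂ) ^ p))) z := by
    filter_upwards [hd] with d hd
    have hfd : DifferentiableOn ℂ (f d) (Metric.ball z (r / 2)) := fun w hw =>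
      (hd w (Metric.ball_subset_closedBall hw)).differentiableWithinAt
    have hn : Metric.ball z (r / 2) ∈ 𝓝 z := ho.mem_nhds hzB
    have e1 : ∀ w ∈ Metric.ball z (r / 2), deriv (fun w => (f d w - w) / (d : ℂ) ^ p) w =
        (deriv (f d) w - 1) / (d : ℂ) ^ p := by
      intro w hw
      have h1 := (hd w (Metric.ball_subset_closedBall hw)).hasDerivAt
      exact ((h1.sub (hasDerivAt_id w)).div_const _).deriv
    have e2 : ∀ w ∈ Metric.ball z (r / 2), deriv (deriv (fun w => (f d w - w) / (d : ℂ) ^ p)) w =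
        deriv (deriv (f d)) w / (d : ℂ) ^ p := by
      intro w hw
      have h0 : deriv (fun w => (f d w - w) / (d : ℂ) ^ p) =ᶠ[𝓝 w]
          fun w => (deriv (f d) w - 1) / (d : ℂ) ^ p := by
        filter_upwards [ho.mem_nhds hw] with v hv using e1 v hv
      rw [h0.deriv_eq, deriv_div_const, deriv_sub_const]
    have e3 : deriv (deriv (deriv (fun w => (f d w - w) / (d : ℂ) ^ p))) z =
        deriv (deriv (deriv (f d))) z / (d : ℂ) ^ p := by
      have h0 : deriv (deriv (fun w => (f d w - w) / (d : ℂ) ^ p)) =ᶠ[𝓝 z]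
          fun w => deriv (deriv (f d)) w / (d : ℂ) ^ p := by
        filter_upwards [hn] with v hv using e2 v hv
      rw [h0.deriv_eq, deriv_div_const]
    exact ⟨hfd.analyticAt hn, (e1 z hzB).symm, (e2 z hzB).symm, e3.symm⟩
  refine ⟨key.mono fun d h => h.1, ?_, ?_, ?_⟩
  · refine (L1.tendsto_at hzB).congr' ?_
    filter_upwards [key] with d h using h.2.1.symm
  · refine (L2.tendsto_at hzB).congr' ?_
    filter_upwards [key] with d h using h.2.2.1.symm
  · refine (L3.tendsto_at hzB).congr' ?_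
    filter_upwards [key] with d h using h.2.2.2.symm

theorem near_of_lim (hU : IsOpen U) (hz : z ∈ U) (hp : p ≠ 0)
    (hol : ∀ K : Set ℂ, IsCompact K → K ⊆ U →
      ∀ᶠ d in 𝓝[>] (0 : ℝ), ∀ w ∈ K, DifferentiableAt ℂ (f d) w)
    (lim : TendstoLocallyUniformlyOn (fun (d : ℝ) w => (f d w - w) / (d : ℂ) ^ p) A (𝓝[>] 0) U)
    (s : ℝ) {δ : ℝ → ℝ} (hδ : Tendsto δ (𝓝[>] 0) (𝓝[>] 0))
    (hδp : ∀ᶠ ε in 𝓝[>] (0 : ℝ), δ ε ^ p = ε * s) :
    Near (fun ε => f (δ ε)) z (s * A z) := by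
  obtain ⟨h0, h1, h2, h3⟩ := lim_derivs hU hz hol lim
  have hz0 : Tendsto (fun d : ℝ => (d : ℂ) ^ p) (𝓝[>] 0) (𝓝 0) := by
    have := tendsto_ofReal_zero.pow p
    rwa [zero_pow hp] at this
  have hpos : ∀ᶠ d : ℝ in 𝓝[>] (0 : ℝ), ((d : ℝ) : ℂ) ^ p ≠ 0 := by
    filter_upwards [self_mem_nhdsWithin] with d hd
    have : (0 : ℝ) < d := hd
    exact pow_ne_zero _ (by exact_mod_cast this.ne')
  have k1 : Tendsto (fun d : ℝ => deriv (f d) z) (𝓝[>] 0) (𝓝 1) := by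
    have := (h1.mul hz0).add_const 1
    rw [mul_zero, zero_add] at this
    refine this.congr' ?_
    filter_upwards [hpos] with d hd
    rw [div_mul_cancel₀ _ hd]
    ring
  have k2 : Tendsto (fun d : ℝ => deriv (deriv (f d)) z) (𝓝[>] 0) (𝓝 0) := by
    have := h2.mul hz0
    rw [mul_zero] at this
    refine this.congr' ?_
    filter_upwards [hpos] with d hd
    rw [div_mul_cancel₀ _ hd]
  have k3 : Tendsto (fun d : ℝ => deriv (deriv (deriv (f d))) z) (𝓝[>] 0) (𝓝 0) := by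
    have := h3.mul hz0
    rw [mul_zero] at this
    refine this.congr' ?_
    filter_upwards [hpos] with d hd
    rw [div_mul_cancel₀ _ hd]
  refine ⟨hδ.eventually h0, ?_, k1.comp hδ, k2.comp hδ, k3.comp hδ⟩
  have k0 := ((lim.tendsto_at hz).comp hδ).const_mul (s : ℂ)
  refine k0.congr' ?_
  filter_upwards [hδp, hδ.eventually hpos, self_mem_nhdsWithin] with ε e1 e2 e3
  have he : (ε : ℂ) ≠ 0 := by
    have : (0 : ℝ) < ε := e3
    exact_mod_cast this.ne'
  have e4 : (δ ε : ℂ) ^ p = ε * s := by exact_mod_cast e1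
  have hs : (s : ℂ) ≠ 0 := by
    intro h
    rw [e4, h, mul_zero] at e2
    exact e2 rfl
  simp only [Function.comp_apply]
  rw [e4]
  field_simp

/-- The reparametrisation `ε ↦ (ε s) ^ (1 / p)`. -/
theorem near_of_lim_rpow (hU : IsOpen U) (hz : z ∈ U) (hp : p ≠ 0)
    (hol : ∀ K : Set ℂ, IsCompact K → K ⊆ U →
      ∀ᶠ d in 𝓝[>] (0 : ℝ), ∀ w ∈ K, DifferentiableAt ℂ (f d) w)
    (lim : TendstoLocallyUniformlyOn (fun (d : ℝ) w => (f d w - w) / (d : ℂ) ^ p) A (𝓝[>] 0) U)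
    {s : ℝ} (hs : 0 < s) :
    Near (fun ε => f ((ε * s) ^ (1 / (p : ℝ)))) z (s * A z) := by
  have hp0 : (0 : ℝ) < p := by
    have : 0 < p := Nat.pos_of_ne_zero hp
    exact_mod_cast this
  refine near_of_lim hU hz hp hol lim s (δ := fun ε => (ε * s) ^ (1 / (p : ℝ))) ?_ ?_
  · refine tendsto_nhdsWithin_iff.2 ⟨?_, ?_⟩
    · have h1 : Tendsto (fun ε : ℝ => (ε * s) ^ (1 / (p : ℝ))) (𝓝 0)
          (𝓝 (((0 : ℝ) * s) ^ (1 / (p : ℝ)))) := by
        have hc : ContinuousAt (fun ε : ℝ => (ε * s) ^ (1 / (p : ℝ))) 0 := by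
          refine ContinuousAt.rpow_const (by fun_prop) (Or.inr ?_)
          positivity
        exact hc
      rw [zero_mul, Real.zero_rpow (by positivity)] at h1
      exact h1.mono_left nhdsWithin_le_nhds
    · filter_upwards [self_mem_nhdsWithin] with ε hε
      have : (0 : ℝ) < ε := hε
      exact Real.rpow_pos_of_pos (by positivity) _
  · filter_upwards [self_mem_nhdsWithin] with ε hε
    have : (0 : ℝ) < ε := hε
    rw [← Real.rpow_natCast, ← Real.rpow_mul (by positivity), one_div,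
      inv_mul_cancel₀ hp0.ne', Real.rpow_one]

end lims

/-! ### Trilinearity -/

theorem br_sum_left {ι : Type*} (S : Finset ι) (a : ι → ℂ) (X : ι → ℂ → ℂ) (Y : ℂ → ℂ) {z : ℂ}
    (hX : ∀ i ∈ S, DifferentiableAt ℂ (X i) z) :
    br (fun w => ∑ i ∈ S, a i * X i w) Y z = ∑ i ∈ S, a i * br (X i) Y z := by
  have h1 : HasDerivAt (fun w => ∑ i ∈ S, a i * X i w) (∑ i ∈ S, a i * deriv (X i) z) z :=
    HasDerivAt.fun_sum fun i hi => (hX i hi).hasDerivAt.const_mul (a i)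
  unfold br
  rw [h1.deriv, Finset.sum_mul, Finset.mul_sum, ← Finset.sum_sub_distrib]
  refine Finset.sum_congr rfl fun i _ => ?_
  ring

theorem br_sum_right {ι : Type*} (S : Finset ι) (a : ι → ℂ) (X : ι → ℂ → ℂ) (Y : ℂ → ℂ) {z : ℂ}
    (hX : ∀ i ∈ S, DifferentiableAt ℂ (X i) z) :
    br Y (fun w => ∑ i ∈ S, a i * X i w) z = ∑ i ∈ S, a i * br Y (X i) z := by
  have h1 : HasDerivAt (fun w => ∑ i ∈ S, a i * X i w) (∑ i ∈ S, a i * deriv (X i) z) z :=
    HasDerivAt.fun_sum fun i hi => (hX i hi).hasDerivAt.const_mul (a i)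
  unfold br
  rw [h1.deriv, Finset.sum_mul, Finset.mul_sum, ← Finset.sum_sub_distrib]
  refine Finset.sum_congr rfl fun i _ => ?_
  ring

theorem br_congr {X X' Y Y' : ℂ → ℂ} {z : ℂ} (hX : X =ᶠ[𝓝 z] X') (hY : Y =ᶠ[𝓝 z] Y') :
    br X Y =ᶠ[𝓝 z] br X' Y' := by
  filter_upwards [hX.eventually_nhds, hY.eventually_nhds] with w h1 h2
  have h1' : X =ᶠ[𝓝 w] X' := h1
  have h2' : Y =ᶠ[𝓝 w] Y' := h2
  unfold br
  rw [h1'.deriv_eq, h2'.deriv_eq, h1'.self_of_nhds, h2'.self_of_nhds]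

theorem br_br_sum {ι κ ν : Type*} (S : Finset ι) (T : Finset κ) (R : Finset ν) (a : ι → ℂ)
    (b : κ → ℂ) (c : ν → ℂ) (X : ι → ℂ → ℂ) (Y : κ → ℂ → ℂ) (Z : ν → ℂ → ℂ) {z : ℂ}
    (hX : ∀ i ∈ S, AnalyticAt ℂ (X i) z) (hY : ∀ j ∈ T, AnalyticAt ℂ (Y j) z)
    (hZ : ∀ k ∈ R, AnalyticAt ℂ (Z k) z) :
    br (br (fun w => ∑ i ∈ S, a i * X i w) (fun w => ∑ j ∈ T, b j * Y j w))
      (fun w => ∑ k ∈ R, c k * Z k w) z =
    ∑ i ∈ S, ∑ j ∈ T, ∑ k ∈ R, a i * b j * c k * br (br (X i) (Y j)) (Z k) z := by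
  have hX' : ∀ᶠ w in 𝓝 z, ∀ i ∈ S, AnalyticAt ℂ (X i) w :=
    (Finset.eventually_all S).2 fun i hi => (hX i hi).eventually_analyticAt
  have hY' : ∀ᶠ w in 𝓝 z, ∀ j ∈ T, AnalyticAt ℂ (Y j) w :=
    (Finset.eventually_all T).2 fun j hj => (hY j hj).eventually_analyticAt
  have e1 : br (fun w => ∑ i ∈ S, a i * X i w) (fun w => ∑ j ∈ T, b j * Y j w) =ᶠ[𝓝 z]
      fun w => ∑ i ∈ S, a i * (fun v => ∑ j ∈ T, b j * br (X i) (Y j) v) w := by
    filter_upwards [hX', hY'] with w h1 h2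
    rw [br_sum_left S a X _ fun i hi => (h1 i hi).differentiableAt]
    refine Finset.sum_congr rfl fun i _ => ?_
    rw [br_sum_right T b Y _ fun j hj => (h2 j hj).differentiableAt]
  rw [(br_congr e1 (Filter.EventuallyEq.refl _ _)).self_of_nhds]
  rw [br_sum_left S a (fun i v => ∑ j ∈ T, b j * br (X i) (Y j) v) _ fun i hi =>
    DifferentiableAt.fun_sum fun j hj =>
      ((analyticAt_br (hX i hi) (hY j hj)).differentiableAt.const_mul (b j))]
  refine Finset.sum_congr rfl fun i hi => ?_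
  rw [br_sum_left T b (fun j => br (X i) (Y j)) _ fun j hj =>
    (analyticAt_br (hX i hi) (hY j hj)).differentiableAt, Finset.mul_sum]
  refine Finset.sum_congr rfl fun j hj => ?_
  rw [br_sum_right R c Z _ fun k hk => (hZ k hk).differentiableAt, Finset.mul_sum,
    Finset.mul_sum]
  refine Finset.sum_congr rfl fun k _ => ?_
  ring

end Pool.Agent.Lib.MP_95e7ec_an.Ww
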