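import Mathlib

/-!
# The third order gadget: the exact sum tensor and the signs

Algebra of the step `K` of the iterated words (project HN, note 10013). The tensor
`alpha i * beta j * gamma k` on `i + j + k = 2 K - 2` (and zero elsewhere) is a sum of `2 K - 1`
products (inverse of a Vandermonde matrix). With `al`, `be`, `ga` the coefficient of `Y ^ (i + K j)`
is `(-1) ^ (i + K j) * B ^ (-(i + K j) ^ 2)`, and the weighted sum alternates at `Y = B ^ (2 e)`.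
-/

set_option autoImplicit false

open Finset

namespace Pool.Agent.Lib.MP_95e7ec_an.Ww

/-! ### Interpolation -/

/-- The inverse of a Vandermonde matrix as a quadrature rule. -/
theorem exists_quad (M : ℕ) : ∃ r : ℕ → ℕ → ℝ, ∀ p < M, ∀ q < M,
    ∑ l ∈ range M, (l : ℝ) ^ p * r l q = if p = q then 1 else 0 := by
  classical
  let v : Fin M → ℝ := fun l => ((l : ℕ) : ℝ)
  have hv : Function.Injective v := by
    intro a b h
    have h' : ((a : ℕ) : ℝ) = ((b : ℕ) : ℝ) := h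
    exact Fin.ext (by exact_mod_cast h')
  have hdet : IsUnit (Matrix.vandermonde v).transpose.det := by
    rw [Matrix.det_transpose]
    exact isUnit_iff_ne_zero.2 (Matrix.det_vandermonde_ne_zero_iff.2 hv)
  let R : Matrix (Fin M) (Fin M) ℝ := (Matrix.vandermonde v).transpose⁻¹
  have hR : (Matrix.vandermonde v).transpose * R = 1 := Matrix.mul_nonsing_inv _ hdet
  refine ⟨fun l q => if h : l < M ∧ q < M then R ⟨l, h.1⟩ ⟨q, h.2⟩ else 0, ?_⟩
  intro p hp q hq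
  have h := congrFun (congrFun hR ⟨p, hp⟩) ⟨q, hq⟩
  rw [Matrix.mul_apply, Matrix.one_apply] at h
  rw [Finset.sum_range]
  have h2 : ∀ l : Fin M, ((l : ℕ) : ℝ) ^ p *
      (if h : (l : ℕ) < M ∧ q < M then R ⟨l, h.1⟩ ⟨q, h.2⟩ else 0) =
      (Matrix.vandermonde v).transpose ⟨p, hp⟩ l * R l ⟨q, hq⟩ := by
    intro l
    rw [dif_pos ⟨l.2, hq⟩]
    rfl
  rw [Finset.sum_congr rfl fun l _ => h2 l, h]
  simp [Fin.ext_iff]

/-- **The exact sum tensor** is a sum of `2 K - 1` products. -/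
theorem tens (K : ℕ) (hK : 1 ≤ K) (alpha beta gamma : ℕ → ℝ) : ∃ a b c : ℕ → ℕ → ℝ,
    ∀ i < K, ∀ j < K, ∀ k < 2 * K - 1,
      ∑ l ∈ range (2 * K - 1), a l i * b l j * c l k =
        if i + j + k + 2 = 2 * K then alpha i * beta j * gamma k else 0 := by
  obtain ⟨r, hr⟩ := exists_quad (2 * K - 1)
  refine ⟨fun l i => alpha i * (l : ℝ) ^ i, fun l j => beta j * (l : ℝ) ^ j,
    fun l k => gamma k * r l (2 * K - 2 - k), ?_⟩
  intro i hi j hj k hk
  have h := hr (i + j) (by omega) (2 * K - 2 - k) (by omega)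
  have h1 : ∑ l ∈ range (2 * K - 1), alpha i * (l : ℝ) ^ i * (beta j * (l : ℝ) ^ j) *
      (gamma k * r l (2 * K - 2 - k)) = alpha i * beta j * gamma k *
      ∑ l ∈ range (2 * K - 1), (l : ℝ) ^ (i + j) * r l (2 * K - 2 - k) := by
    rw [Finset.mul_sum]
    refine Finset.sum_congr rfl fun l _ => ?_
    rw [pow_add]
    ring
  rw [h1, h]
  by_cases hc : i + j + k + 2 = 2 * K
  · rw [if_pos hc, if_pos (by omega), mul_one]
  · rw [if_neg hc, if_neg (by omega), mul_zero]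

/-- A sum over a triple index with the exact sum tensor as weight. -/
theorem tens_sum {E : Type*} [AddCommGroup E] [Module ℝ E] (K : ℕ) (hK : 1 ≤ K)
    (alpha beta gamma : ℕ → ℝ) (a b c : ℕ → ℕ → ℝ)
    (h : ∀ i < K, ∀ j < K, ∀ k < 2 * K - 1,
      ∑ l ∈ range (2 * K - 1), a l i * b l j * c l k =
        if i + j + k + 2 = 2 * K then alpha i * beta j * gamma k else 0)
    (X : ℕ → ℕ → ℕ → E) :
    ∑ l ∈ range (2 * K - 1), ∑ i ∈ range K, ∑ j ∈ range K, ∑ k ∈ range (2 * K - 1),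
        (a l i * b l j * c l k) • X i j k =
      ∑ i ∈ range K, ∑ j ∈ range K,
        (alpha i * beta j * gamma (2 * K - 2 - i - j)) • X i j (2 * K - 2 - i - j) := by
  rw [Finset.sum_comm]
  refine Finset.sum_congr rfl fun i hi => ?_
  rw [Finset.sum_comm]
  refine Finset.sum_congr rfl fun j hj => ?_
  rw [Finset.sum_comm]
  have hi' := Finset.mem_range.1 hi
  have hj' := Finset.mem_range.1 hj
  have h1 : ∀ k ∈ range (2 * K - 1), ∑ l ∈ range (2 * K - 1), (a l i * b l j * c l k) • X i j k =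
      if k = 2 * K - 2 - i - j then
        (alpha i * beta j * gamma (2 * K - 2 - i - j)) • X i j (2 * K - 2 - i - j) else 0 := by
    intro k hk
    have hk' := Finset.mem_range.1 hk
    rw [← Finset.sum_smul, h i hi' j hj' k hk']
    by_cases hc : i + j + k + 2 = 2 * K
    · have hk2 : k = 2 * K - 2 - i - j := by omega
      rw [if_pos hc, if_pos hk2, hk2]
    · rw [if_neg hc, if_neg (by omega), zero_smul]
  rw [Finset.sum_congr rfl h1, Finset.sum_ite_eq' (range (2 * K - 1)) (2 * K - 2 - i - j)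
    (fun _ => (alpha i * beta j * gamma (2 * K - 2 - i - j)) • X i j (2 * K - 2 - i - j)),
    if_pos (Finset.mem_range.2 (by omega))]

/-! ### The coefficients -/

/-- Coefficients of slot A. -/
noncomputable def al (B : ℝ) (K i : ℕ) : ℝ := (-1) ^ i * B ^ (((K : ℤ) - 1) * (i : ℤ) ^ 2)

/-- Coefficients of slot B. -/
noncomputable def be (B : ℝ) (K j : ℕ) : ℝ :=
  (-1) ^ (K * j) * B ^ (((K : ℤ) - (K : ℤ) ^ 2) * (j : ℤ) ^ 2)

/-- Coefficients of slot C. -/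
noncomputable def ga (B : ℝ) (K k : ℕ) : ℝ := B ^ (-(K : ℤ) * (2 * (K : ℤ) - 2 - (k : ℤ)) ^ 2)

theorem al_be_ga {B : ℝ} (hB : 0 < B) {K i j k : ℕ} (h : i + j + k + 2 = 2 * K) :
    al B K i * be B K j * ga B K k =
      (-1) ^ (i + K * j) * B ^ (-((i + K * j : ℕ) : ℤ) ^ 2) := by
  have hB0 : B ≠ 0 := hB.ne'
  have hk : (2 * (K : ℤ) - 2 - (k : ℤ)) = (i : ℤ) + j := by
    have : ((i + j + k + 2 : ℕ) : ℤ) = ((2 * K : ℕ) : ℤ) := by rw [h]
    push_cast at this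
    linarith
  have he : (-((i + K * j : ℕ) : ℤ) ^ 2) = ((K : ℤ) - 1) * (i : ℤ) ^ 2 +
      ((K : ℤ) - (K : ℤ) ^ 2) * (j : ℤ) ^ 2 + -(K : ℤ) * ((i : ℤ) + j) ^ 2 := by
    push_cast
    ring
  unfold al be ga
  rw [hk, he, zpow_add₀ hB0, zpow_add₀ hB0, pow_add]
  ring

/-! ### The weights -/

/-- Exponents of slot A. -/
noncomputable def mA (K i : ℕ) : ℝ := 1 + (i : ℝ) / (4 * K)

/-- Exponents of slot B. -/
noncomputable def mB (K j : ℕ) : ℝ := 2 + (j : ℝ) / (4 * K)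

/-- Exponents of slot C. -/
noncomputable def mC (K k : ℕ) : ℝ := 5 + (k : ℝ) / (4 * K)

/-- The weight of the double bracket. -/
noncomputable def wt (K i j : ℕ) : ℝ :=
  (mA K i - mB K j) * (mA K i + mB K j - mC K (2 * K - 2 - i - j))

theorem mA_pos (K i : ℕ) : 0 < mA K i := by
  unfold mA
  positivity

theorem mB_pos (K j : ℕ) : 0 < mB K j := by
  unfold mB
  positivity

theorem mC_pos (K k : ℕ) : 0 < mC K k := by
  unfold mC
  positivity

theorem cast_lab {K i j : ℕ} (hi : i < K) (hj : j < K) :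
    ((2 * K - 2 - i - j : ℕ) : ℝ) = 2 * K - 2 - i - j := by
  have h : 2 * K - 2 - i - j + (i + j + 2) = 2 * K := by omega
  have h2 : ((2 * K - 2 - i - j + (i + j + 2) : ℕ) : ℝ) = ((2 * K : ℕ) : ℝ) := by rw [h]
  push_cast at h2
  linarith

theorem m_sum {K i j : ℕ} (hi : i < K) (hj : j < K) :
    mA K i + mB K j + mC K (2 * K - 2 - i - j) = 8 + (2 * K - 2) / (4 * K) := by
  have hK : (0 : ℝ) < K := by exact_mod_cast (by omega : 0 < K)
  unfold mA mB mC
  rw [cast_lab hi hj]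
  field_simp
  ring

theorem mA_add {K : ℕ} (hK : 0 < K) (i j : ℕ) :
    mA K i + K * mB K j = 1 + 2 * K + ((i + K * j : ℕ) : ℝ) / (4 * K) := by
  have hK : (0 : ℝ) < K := by exact_mod_cast hK
  unfold mA mB
  push_cast
  field_simp
  ring

theorem wt_mem {K i j : ℕ} (hi : i < K) (hj : j < K) : 1 ≤ wt K i j ∧ wt K i j ≤ 4 := by
  have hK : (0 : ℝ) < K := by exact_mod_cast (by omega : 0 < K)
  have hi0 : (0 : ℝ) ≤ i := Nat.cast_nonneg i
  have hj0 : (0 : ℝ) ≤ j := Nat.cast_nonneg j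
  have hi1 : (i : ℝ) + 1 ≤ K := by exact_mod_cast hi
  have hj1 : (j : ℝ) + 1 ≤ K := by exact_mod_cast hj
  have h4 : (0 : ℝ) < 4 * K := by positivity
  have e1 : mA K i - mB K j = -(1 - ((i : ℝ) - j) / (4 * K)) := by
    unfold mA mB
    ring
  have e2 : mA K i + mB K j - mC K (2 * K - 2 - i - j) =
      -(2 - (2 * (i + j) - (2 * K - 2)) / (4 * K)) := by
    unfold mA mB mC
    rw [cast_lab hi hj]
    ring
  have b1 : ((i : ℝ) - j) / (4 * K) ≤ 1 / 4 := by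
    rw [div_le_iff₀ h4]
    linarith
  have b2 : -(1 / 4) ≤ ((i : ℝ) - j) / (4 * K) := by
    rw [le_div_iff₀ h4]
    linarith
  have b3 : (2 * ((i : ℝ) + j) - (2 * K - 2)) / (4 * K) ≤ 1 / 2 := by
    rw [div_le_iff₀ h4]
    linarith
  have b4 : -(1 / 2) ≤ (2 * ((i : ℝ) + j) - (2 * K - 2)) / (4 * K) := by
    rw [le_div_iff₀ h4]
    linarith
  unfold wt
  rw [e1, e2]
  constructor <;> nlinarith

/-! ### Signs -/

theorem geom_le {q : ℝ} (hq0 : 0 ≤ q) (hq : q ≤ 1 / 64) (m : ℕ) :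
    ∑ d ∈ range m, q ^ (d + 1) ≤ 1 / 63 := by
  have h : (∑ d ∈ range m, q ^ d) * (1 - q) = 1 - q ^ m := by
    have := geom_sum_mul q m
    linarith
  have h1 : 0 ≤ q ^ m := pow_nonneg hq0 m
  have h2 : ∑ d ∈ range m, q ^ (d + 1) = q * ∑ d ∈ range m, q ^ d := by
    rw [Finset.mul_sum]
    exact Finset.sum_congr rfl fun d _ => by rw [pow_succ, mul_comm]
  have h3 : 0 ≤ ∑ d ∈ range m, q ^ d := Finset.sum_nonneg fun d _ => pow_nonneg hq0 d
  rw [h2]
  nlinarith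

theorem sum_digits {E : Type*} [AddCommMonoid E] {K : ℕ} (hK : 0 < K) (f : ℕ → ℕ → ℕ → E) :
    ∑ i ∈ range K, ∑ j ∈ range K, f (i + K * j) i j =
      ∑ e ∈ range (K ^ 2), f e (e % K) (e / K) := by
  rw [← Finset.sum_product']
  refine Finset.sum_nbij' (fun p => p.1 + K * p.2) (fun e => (e % K, e / K)) ?_ ?_ ?_ ?_ ?_
  · intro p hp
    rw [Finset.mem_product, Finset.mem_range, Finset.mem_range] at hp
    rw [Finset.mem_range]
    nlinarith [hp.1, hp.2]
  · intro e he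
    rw [Finset.mem_range] at he
    rw [Finset.mem_product, Finset.mem_range, Finset.mem_range]
    exact ⟨Nat.mod_lt _ hK, Nat.div_lt_of_lt_mul (by rwa [pow_two] at he)⟩
  · intro p hp
    rw [Finset.mem_product, Finset.mem_range, Finset.mem_range] at hp
    have h1 : (p.1 + K * p.2) % K = p.1 := by
      rw [Nat.add_mul_mod_self_left, Nat.mod_eq_of_lt hp.1]
    have h2 : (p.1 + K * p.2) / K = p.2 := by
      rw [Nat.add_mul_div_left _ _ hK, Nat.div_eq_of_lt hp.1, zero_add]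
    exact Prod.ext h1 h2
  · intro e _
    exact Nat.mod_add_div e K
  · intro p hp
    rw [Finset.mem_product, Finset.mem_range, Finset.mem_range] at hp
    have h1 : (p.1 + K * p.2) % K = p.1 := by
      rw [Nat.add_mul_mod_self_left, Nat.mod_eq_of_lt hp.1]
    have h2 : (p.1 + K * p.2) / K = p.2 := by
      rw [Nat.add_mul_div_left _ _ hK, Nat.div_eq_of_lt hp.1, zero_add]
    simp only [h1, h2]

theorem zpow_sq_le {B : ℝ} (hB : 1 ≤ B) {d : ℕ} (hd : 1 ≤ d) :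
    B ^ (-((d : ℤ) ^ 2)) ≤ (B⁻¹) ^ d := by
  have hB0 : 0 < B := by linarith
  rw [← zpow_natCast, inv_zpow']
  refine zpow_le_zpow_right₀ hB ?_
  have : (1 : ℤ) ≤ d := by exact_mod_cast hd
  nlinarith

/-- One exponential scale dominates. -/
theorem sgn_aux {B : ℝ} (hB : 64 ≤ B) {n e0 : ℕ} (he : e0 < n) (w : ℕ → ℝ)
    (hw : ∀ e < n, 1 ≤ w e ∧ w e ≤ 4) :
    0 < (-1 : ℝ) ^ e0 * ∑ e ∈ range n,
      w e * ((-1) ^ e * B ^ (-((e : ℤ) ^ 2))) * (B ^ (2 * e0)) ^ e := by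
  have hB0 : (0 : ℝ) < B := by linarith
  have hB1 : (1 : ℝ) ≤ B := by linarith
  set q : ℝ := B⁻¹ with hq
  have hq0 : 0 ≤ q := (inv_pos.2 hB0).le
  have hq1 : q ≤ 1 / 64 := by
    rw [hq, inv_eq_one_div]
    exact one_div_le_one_div_of_le (by norm_num) hB
  -- every term
  have hterm : ∀ e : ℕ, w e * ((-1) ^ e * B ^ (-((e : ℤ) ^ 2))) * (B ^ (2 * e0)) ^ e =
      B ^ ((e0 : ℤ) ^ 2) * (w e * (-1) ^ e * B ^ (-(((e : ℤ) - e0) ^ 2))) := by
    intro e
    have h1 : (B ^ (2 * e0)) ^ e = B ^ (2 * (e0 : ℤ) * e) := by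
      rw [← pow_mul, ← zpow_natCast]
      push_cast
      rfl
    have h2 : B ^ ((e0 : ℤ) ^ 2) * B ^ (-(((e : ℤ) - e0) ^ 2)) =
        B ^ (-((e : ℤ) ^ 2)) * B ^ (2 * (e0 : ℤ) * e) := by
      rw [← zpow_add₀ hB0.ne', ← zpow_add₀ hB0.ne']
      congr 1
      ring
    rw [h1]
    calc w e * ((-1) ^ e * B ^ (-((e : ℤ) ^ 2))) * B ^ (2 * (e0 : ℤ) * e)
        = w e * (-1) ^ e * (B ^ (-((e : ℤ) ^ 2)) * B ^ (2 * (e0 : ℤ) * e)) := by ring
      _ = w e * (-1) ^ e * (B ^ ((e0 : ℤ) ^ 2) * B ^ (-(((e : ℤ) - e0) ^ 2))) := by rw [h2]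
      _ = _ := by ring
  rw [Finset.sum_congr rfl fun e _ => hterm e, ← Finset.mul_sum]
  have hpos : 0 < B ^ ((e0 : ℤ) ^ 2) := zpow_pos hB0 _
  rw [show (-1 : ℝ) ^ e0 * (B ^ ((e0 : ℤ) ^ 2) *
      ∑ e ∈ range n, w e * (-1) ^ e * B ^ (-(((e : ℤ) - e0) ^ 2))) =
      B ^ ((e0 : ℤ) ^ 2) * ((-1 : ℝ) ^ e0 *
      ∑ e ∈ range n, w e * (-1) ^ e * B ^ (-(((e : ℤ) - e0) ^ 2))) by ring]
  refine mul_pos hpos ?_
  set T : ℕ → ℝ := fun e => w e * (-1) ^ e * B ^ (-(((e : ℤ) - e0) ^ 2)) with hT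
  -- split the sum
  have hsplit : ∑ e ∈ range n, T e =
      ∑ e ∈ range e0, T e + (T e0 + ∑ e ∈ Ico (e0 + 1) n, T e) := by
    rw [Finset.range_eq_Ico, ← Finset.sum_Ico_consecutive T (Nat.zero_le e0) he.le,
      Finset.sum_eq_sum_Ico_succ_bot he T, ← Finset.range_eq_Ico]
  have hsq : (-1 : ℝ) ^ e0 * (-1) ^ e0 = 1 := by
    rw [← mul_pow]
    norm_num
  have hmain : (-1 : ℝ) ^ e0 * T e0 = w e0 := by
    rw [hT]
    simp only [sub_self]
    rw [show (-1 : ℝ) ^ e0 * (w e0 * (-1) ^ e0 * B ^ (-((0 : ℤ) ^ 2))) =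
      ((-1 : ℝ) ^ e0 * (-1) ^ e0) * w e0 * B ^ (-((0 : ℤ) ^ 2)) by ring, hsq]
    simp
  have habs : ∀ e < n, ∀ d : ℕ, 1 ≤ d → ((e : ℤ) - e0 = d ∨ (e : ℤ) - e0 = -(d : ℤ)) →
      |T e| ≤ 4 * q ^ d := by
    intro e hen d hd hed
    have h1 : ((e : ℤ) - e0) ^ 2 = (d : ℤ) ^ 2 := by
      rcases hed with h | h <;> rw [h]
      ring
    have hwe := hw e hen
    rw [hT]
    simp only
    rw [abs_mul, abs_mul, abs_pow, abs_neg, abs_one, one_pow, mul_one, h1,
      abs_of_nonneg (by linarith : (0 : ℝ) ≤ w e), abs_of_pos (zpow_pos hB0 _)]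
    exact mul_le_mul hwe.2 (zpow_sq_le hB1 hd) (zpow_pos hB0 _).le (by norm_num)
  have hleft : |∑ e ∈ range e0, T e| ≤ 4 * (1 / 63) := by
    refine (Finset.abs_sum_le_sum_abs _ _).trans ?_
    rw [← Finset.sum_range_reflect]
    refine (Finset.sum_le_sum (g := fun d => 4 * q ^ (d + 1)) ?_).trans ?_
    · intro d hd
      rw [Finset.mem_range] at hd
      refine habs (e0 - 1 - d) (by omega) (d + 1) (by omega) (Or.inr ?_)
      have : ((e0 - 1 - d : ℕ) : ℤ) = e0 - 1 - d := by omega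
      rw [this]
      push_cast
      ring
    · rw [← Finset.mul_sum]
      exact mul_le_mul_of_nonneg_left (geom_le hq0 hq1 e0) (by norm_num)
  have hright : |∑ e ∈ Ico (e0 + 1) n, T e| ≤ 4 * (1 / 63) := by
    refine (Finset.abs_sum_le_sum_abs _ _).trans ?_
    rw [Finset.sum_Ico_eq_sum_range]
    refine (Finset.sum_le_sum (g := fun d => 4 * q ^ (d + 1)) ?_).trans ?_
    · intro d hd
      rw [Finset.mem_range] at hd
      refine habs (e0 + 1 + d) (by omega) (d + 1) (by omega) (Or.inl ?_)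
      push_cast
      ring
    · rw [← Finset.mul_sum]
      exact mul_le_mul_of_nonneg_left (geom_le hq0 hq1 _) (by norm_num)
  have hw0 := (hw e0 he).1
  have hu : ∀ x : ℝ, |x| ≤ 4 * (1 / 63) → -(4 * (1 / 63)) ≤ (-1 : ℝ) ^ e0 * x := by
    intro x hx
    have h1 : |(-1 : ℝ) ^ e0 * x| ≤ 4 * (1 / 63) := by
      rw [abs_mul, abs_pow, abs_neg, abs_one, one_pow, one_mul]
      exact hx
    exact (abs_le.1 h1).1
  have h3 := hu _ hleft
  have h4 := hu _ hright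
  rw [hsplit, mul_add, mul_add, hmain]
  norm_num at h3 h4 ⊢
  linarith

/-- **Signs of the gadget**: at `Y = B ^ (2 e0)` the weighted sum has the sign `(-1) ^ e0`. -/
theorem sgn {B : ℝ} (hB : 64 ≤ B) {K e0 : ℕ} (he : e0 < K ^ 2) (w : ℕ → ℕ → ℝ)
    (hw : ∀ i < K, ∀ j < K, 1 ≤ w i j ∧ w i j ≤ 4) :
    0 < (-1 : ℝ) ^ e0 * ∑ i ∈ range K, ∑ j ∈ range K,
      w i j * (al B K i * be B K j * ga B K (2 * K - 2 - i - j)) *
        (B ^ (2 * e0)) ^ (i + K * j) := by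
  have hB0 : (0 : ℝ) < B := by linarith
  have hK : 0 < K := by
    rcases Nat.eq_zero_or_pos K with h | h
    · rw [h] at he
      simp at he
    · exact h
  have h1 : ∑ i ∈ range K, ∑ j ∈ range K,
      w i j * (al B K i * be B K j * ga B K (2 * K - 2 - i - j)) *
        (B ^ (2 * e0)) ^ (i + K * j) =
      ∑ i ∈ range K, ∑ j ∈ range K, (fun e i j : ℕ => w i j * ((-1) ^ e * B ^ (-((e : ℤ) ^ 2))) *
        (B ^ (2 * e0)) ^ e) (i + K * j) i j := by
    refine Finset.sum_congr rfl fun i hi => Finset.sum_congr rfl fun j hj => ?_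
    rw [Finset.mem_range] at hi hj
    rw [al_be_ga hB0 (by omega : i + j + (2 * K - 2 - i - j) + 2 = 2 * K)]
  rw [h1, sum_digits hK (fun e i j : ℕ => w i j * ((-1) ^ e * B ^ (-((e : ℤ) ^ 2))) *
        (B ^ (2 * e0)) ^ e)]
  refine sgn_aux hB he (fun e => w (e % K) (e / K)) fun e hen => ?_
  exact hw _ (Nat.mod_lt _ hK) _ (Nat.div_lt_of_lt_mul (by rwa [pow_two] at hen))

end Pool.Agent.Lib.MP_95e7ec_an.Ww
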