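import Mathlib
import Pool.Agent.Lib.MP_95e7ec_an.Ww.AsyN
import Pool.Agent.Lib.MP_95e7ec_an.Ww.Gadget

/-!
# Words: the field of the gadget and its signs as `ε → 0`

`fA a m n ε g` is the field of `n` cheap letters with the exponents `m i / ε`, pulled back by `g`;
`fC c m n ε` is the same without `g`. `gad` is the field of the product of the `2 K - 1` double
commutators. Its terms off the label `i + j + k = 2 K - 2` vanish exactly, the others have the same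
steepness, and with the factor `ε² e^{tot s / ε}` it converges; `gad_sign` is the sign at a point
with `e^{-κ σ F} = B ^ (2 e₀)`, `κ = 1 / (4 K)`.
-/

set_option autoImplicit false

open Set Filter Topology Finset

namespace Pool.Agent.Lib.MP_95e7ec_an.Ww

/-- The field of `n` cheap letters, pulled back by `g`. -/
noncomputable def fA (a m : ℕ → ℝ) (n : ℕ) (ε : ℝ) (g : ℂ → ℂ) (z : ℂ) : ℂ :=
  (∑ i ∈ range n, (a i : ℂ) * Complex.exp (-((m i / ε : ℝ) : ℂ) * g z)) / deriv g z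

/-- The field of `n` cheap letters. -/
noncomputable def fC (c m : ℕ → ℝ) (n : ℕ) (ε : ℝ) (z : ℂ) : ℂ :=
  ∑ k ∈ range n, (c k : ℂ) * Complex.exp (-((m k / ε : ℝ) : ℂ) * z)

/-- The field of the gadget. -/
noncomputable def gad (K : ℕ) (a b c : ℕ → ℕ → ℝ) (ε : ℝ) (g₁ g₂ : ℂ → ℂ) (z : ℂ) : ℂ :=
  ∑ l ∈ range (2 * K - 1), br (br (fA (a l) (mA K) K ε g₁) (fA (b l) (mB K) K ε g₂))
    (fC (c l) (mC K) (2 * K - 1) ε) z

theorem fA_eq (a m : ℕ → ℝ) (n : ℕ) (ε : ℝ) (g : ℂ → ℂ) :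
    fA a m n ε g = fun z => ∑ i ∈ range n, (a i : ℂ) * pb ((m i : ℂ) / ε) g z := by
  funext z
  unfold fA pb
  rw [Finset.sum_div]
  refine Finset.sum_congr rfl fun i _ => ?_
  rw [mul_div_assoc]
  congr 3
  push_cast
  ring

theorem fC_eq (c m : ℕ → ℝ) (n : ℕ) (ε : ℝ) :
    fC c m n ε = fun z => ∑ k ∈ range n, (c k : ℂ) * Complex.exp (-((m k : ℂ) / ε * z)) := by
  funext z
  unfold fC
  refine Finset.sum_congr rfl fun i _ => ?_
  congr 2
  push_cast
  ring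

/-- The terms off the label vanish exactly. -/
theorem gad_eq {K : ℕ} (hK : 1 ≤ K) {alpha beta gamma : ℕ → ℝ} {a b c : ℕ → ℕ → ℝ}
    (h : ∀ i < K, ∀ j < K, ∀ k < 2 * K - 1,
      ∑ l ∈ range (2 * K - 1), a l i * b l j * c l k =
        if i + j + k + 2 = 2 * K then alpha i * beta j * gamma k else 0)
    {ε : ℝ} {g₁ g₂ : ℂ → ℂ} {z : ℂ} (h₁ : AnalyticAt ℂ g₁ z) (h₂ : AnalyticAt ℂ g₂ z)
    (n₁ : deriv g₁ z ≠ 0) (n₂ : deriv g₂ z ≠ 0) :
    gad K a b c ε g₁ g₂ z = ∑ i ∈ range K, ∑ j ∈ range K,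
      ((alpha i * beta j * gamma (2 * K - 2 - i - j) : ℝ) : ℂ) *
        br (br (pb ((mA K i : ℂ) / ε) g₁) (pb ((mB K j : ℂ) / ε) g₂))
          (fun w => Complex.exp (-((mC K (2 * K - 2 - i - j) : ℂ) / ε * w))) z := by
  have e1 : gad K a b c ε g₁ g₂ z = ∑ l ∈ range (2 * K - 1), ∑ i ∈ range K, ∑ j ∈ range K,
      ∑ k ∈ range (2 * K - 1), (a l i * b l j * c l k) •
        br (br (pb ((mA K i : ℂ) / ε) g₁) (pb ((mB K j : ℂ) / ε) g₂))
          (fun w => Complex.exp (-((mC K k : ℂ) / ε * w))) z := by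
    unfold gad
    refine Finset.sum_congr rfl fun l _ => ?_
    rw [fA_eq, fA_eq, fC_eq, br_br_sum (range K) (range K) (range (2 * K - 1))
      (fun i => (a l i : ℂ)) (fun j => (b l j : ℂ)) (fun k => (c l k : ℂ))
      (fun i => pb ((mA K i : ℂ) / ε) g₁) (fun j => pb ((mB K j : ℂ) / ε) g₂)
      (fun k w => Complex.exp (-((mC K k : ℂ) / ε * w)))
      (fun i _ => analyticAt_pb _ h₁ n₁) (fun j _ => analyticAt_pb _ h₂ n₂)
      (fun k _ => (analyticAt_const.mul analyticAt_id).neg.cexp)]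
    refine Finset.sum_congr rfl fun i _ => Finset.sum_congr rfl fun j _ =>
      Finset.sum_congr rfl fun k _ => ?_
    rw [Complex.real_smul]
    push_cast
    ring
  rw [e1, tens_sum K hK alpha beta gamma a b c h (fun i j k =>
    br (br (pb ((mA K i : ℂ) / ε) g₁) (pb ((mB K j : ℂ) / ε) g₂))
      (fun w => Complex.exp (-((mC K k : ℂ) / ε * w))) z)]
  refine Finset.sum_congr rfl fun i _ => Finset.sum_congr rfl fun j _ => ?_
  rw [Complex.real_smul]

/-- The limit of the field of the gadget. -/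
theorem gad_lim {K : ℕ} (hK : 1 ≤ K) {alpha beta gamma : ℕ → ℝ} {a b c : ℕ → ℕ → ℝ}
    (h : ∀ i < K, ∀ j < K, ∀ k < 2 * K - 1,
      ∑ l ∈ range (2 * K - 1), a l i * b l j * c l k =
        if i + j + k + 2 = 2 * K then alpha i * beta j * gamma k else 0)
    {g₁ g₂ : ℝ → ℂ → ℂ} {z v₁ v₂ : ℂ} (h₁ : Near g₁ z v₁) (h₂ : Near g₂ z v₂) :
    Tendsto (fun ε : ℝ => (ε : ℂ) ^ 2 *
      Complex.exp (((8 + (2 * K - 2) / (4 * K) : ℝ) : ℂ) * z / ε) *
      gad K a b c ε (g₁ ε) (g₂ ε) z) (𝓝[>] 0)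
      (𝓝 (∑ i ∈ range K, ∑ j ∈ range K,
        ((wt K i j * (alpha i * beta j * gamma (2 * K - 2 - i - j)) : ℝ) : ℂ) *
        Complex.exp (-((mA K i : ℂ) * v₁ + (mB K j : ℂ) * v₂)))) := by
  have h3 := asy_sum (range K ×ˢ range K)
    (fun p => ((alpha p.1 * beta p.2 * gamma (2 * K - 2 - p.1 - p.2) : ℝ) : ℂ))
    (fun p => (mA K p.1 : ℂ)) (fun p => (mB K p.2 : ℂ))
    (fun p => (mC K (2 * K - 2 - p.1 - p.2) : ℂ)) ((8 + (2 * K - 2) / (4 * K) : ℝ) : ℂ)
    (fun p hp => by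
      rw [Finset.mem_product, Finset.mem_range, Finset.mem_range] at hp
      rw [← m_sum hp.1 hp.2]
      push_cast
      ring) h₁ h₂
  rw [Finset.sum_product] at h3
  have e2 : (∑ i ∈ range K, ∑ j ∈ range K,
      ((alpha i * beta j * gamma (2 * K - 2 - i - j) : ℝ) : ℂ) *
      (((mA K i : ℂ) - mB K j) * (mA K i + mB K j - mC K (2 * K - 2 - i - j)) *
        Complex.exp (-((mA K i : ℂ) * v₁ + (mB K j : ℂ) * v₂)))) =
      ∑ i ∈ range K, ∑ j ∈ range K,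
        ((wt K i j * (alpha i * beta j * gamma (2 * K - 2 - i - j)) : ℝ) : ℂ) *
        Complex.exp (-((mA K i : ℂ) * v₁ + (mB K j : ℂ) * v₂)) := by
    refine Finset.sum_congr rfl fun i _ => Finset.sum_congr rfl fun j _ => ?_
    unfold wt
    push_cast
    ring
  rw [e2] at h3
  refine h3.congr' ?_
  filter_upwards [h₁.an, h₂.an, h₁.ne, h₂.ne] with ε a1 a2 n1 n2
  rw [gad_eq hK h a1 a2 n1 n2, Finset.sum_product]

/-- The sign of the field of the gadget. -/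
theorem gad_sign {K : ℕ} {B : ℝ} (hB : 64 ≤ B) {e0 : ℕ} (he : e0 < K ^ 2)
    {a b c : ℕ → ℕ → ℝ}
    (h : ∀ i < K, ∀ j < K, ∀ k < 2 * K - 1,
      ∑ l ∈ range (2 * K - 1), a l i * b l j * c l k =
        if i + j + k + 2 = 2 * K then al B K i * be B K j * ga B K k else 0)
    {g₁ g₂ : ℝ → ℂ → ℂ} {s σ F : ℝ} (h₁ : Near g₁ (s : ℂ) ((σ : ℂ) * (F : ℂ)))
    (h₂ : Near g₂ (s : ℂ) (((K * σ : ℝ) : ℂ) * (F : ℂ)))
    (hY : Real.exp (-(1 / (4 * (K : ℝ)) * σ * F)) = B ^ (2 * e0)) :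
    ∀ᶠ ε in 𝓝[>] (0 : ℝ), 0 < (-1 : ℝ) ^ e0 * (gad K a b c ε (g₁ ε) (g₂ ε) (s : ℂ)).re := by
  have hK : 0 < K := by
    rcases Nat.eq_zero_or_pos K with h0 | h0
    · rw [h0] at he
      simp at he
    · exact h0
  have hKr : (0 : ℝ) < K := by exact_mod_cast hK
  have hl := gad_lim hK h h₁ h₂
  set L : ℝ := ∑ i ∈ range K, ∑ j ∈ range K,
    wt K i j * (al B K i * be B K j * ga B K (2 * K - 2 - i - j)) *
      Real.exp (-(mA K i * (σ * F) + mB K j * (K * σ * F))) with hL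
  have e1 : (∑ i ∈ range K, ∑ j ∈ range K,
        ((wt K i j * (al B K i * be B K j * ga B K (2 * K - 2 - i - j)) : ℝ) : ℂ) *
        Complex.exp (-((mA K i : ℂ) * ((σ : ℂ) * (F : ℂ)) +
          (mB K j : ℂ) * (((K * σ : ℝ) : ℂ) * (F : ℂ))))) = (L : ℂ) := by
    rw [hL]
    push_cast
    refine Finset.sum_congr rfl fun i _ => Finset.sum_congr rfl fun j _ => ?_
    congr 2
  rw [e1] at hl
  have e2 : L = Real.exp (-(σ * F * (1 + 2 * K))) * ∑ i ∈ range K, ∑ j ∈ range K,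
      wt K i j * (al B K i * be B K j * ga B K (2 * K - 2 - i - j)) *
        (B ^ (2 * e0)) ^ (i + K * j) := by
    rw [hL, Finset.mul_sum]
    refine Finset.sum_congr rfl fun i _ => ?_
    rw [Finset.mul_sum]
    refine Finset.sum_congr rfl fun j _ => ?_
    have e3 : mA K i * (σ * F) + mB K j * (K * σ * F) =
        σ * F * (1 + 2 * K) + ((i + K * j : ℕ) : ℝ) * (1 / (4 * (K : ℝ)) * σ * F) := by
      have := mA_add hK i j
      calc mA K i * (σ * F) + mB K j * (K * σ * F) = (mA K i + K * mB K j) * (σ * F) := by ring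
        _ = _ := by
          rw [this]
          field_simp
    have e4 : Real.exp (-(mA K i * (σ * F) + mB K j * (K * σ * F))) =
        Real.exp (-(σ * F * (1 + 2 * K))) * (B ^ (2 * e0)) ^ (i + K * j) := by
      rw [← hY, ← Real.exp_nat_mul, ← Real.exp_add, e3]
      congr 1
      push_cast
      ring
    rw [e4]
    ring
  have hLs : 0 < (-1 : ℝ) ^ e0 * L := by
    have h5 := sgn hB he (wt K) fun i hi j hj => wt_mem hi hj
    rw [e2, mul_left_comm]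
    exact mul_pos (Real.exp_pos _) h5
  have h6 : Tendsto (fun ε : ℝ => (-1 : ℝ) ^ e0 * ((ε : ℂ) ^ 2 *
      Complex.exp (((8 + (2 * K - 2) / (4 * K) : ℝ) : ℂ) * (s : ℂ) / ε) *
      gad K a b c ε (g₁ ε) (g₂ ε) (s : ℂ)).re) (𝓝[>] 0) (𝓝 ((-1 : ℝ) ^ e0 * L)) := by
    have := ((Complex.continuous_re.tendsto _).comp hl).const_mul ((-1 : ℝ) ^ e0)
    rw [Complex.ofReal_re] at this
    exact this
  filter_upwards [h6.eventually (lt_mem_nhds hLs), self_mem_nhdsWithin] with ε h7 h8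
  have h9 : (0 : ℝ) < ε := h8
  have e5 : (ε : ℂ) ^ 2 * Complex.exp (((8 + (2 * K - 2) / (4 * K) : ℝ) : ℂ) * (s : ℂ) / ε) =
      ((ε ^ 2 * Real.exp ((8 + (2 * K - 2) / (4 * K)) * s / ε) : ℝ) : ℂ) := by
    push_cast
    rfl
  rw [e5, Complex.re_ofReal_mul, mul_left_comm] at h7
  exact (mul_pos_iff_of_pos_left (by positivity)).1 h7

end Pool.Agent.Lib.MP_95e7ec_an.Ww
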