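import Mathlib
import Pool.Agent.Lib.MP_95e7ec_an.Ww.Br

/-! # Limits of nested brackets of steep holomorphic families

`Loc U F f`: the family `F e` is, for small `e > 0`, holomorphic near every point of `U` and
converges to `f` continuously (that is, locally uniformly) on `U` as `e → 0+`. -/

namespace Pool.Agent.Lib.MP_95e7ec_an.Ww.AsyL

open Filter Topology

/-- continuous convergence of a family at a point -/
def CC (F : ℝ → ℂ → ℂ) (z c : ℂ) : Prop :=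
  Tendsto (fun p : ℝ × ℂ => F p.1 p.2) (𝓝[>] (0 : ℝ) ×ˢ 𝓝 z) (𝓝 c)

/-- locally uniform convergence of holomorphic families -/
structure Loc (U : Set ℂ) (F : ℝ → ℂ → ℂ) (f : ℂ → ℂ) : Prop where
  hol : ∀ z ∈ U, ∀ᶠ p : ℝ × ℂ in 𝓝[>] (0 : ℝ) ×ˢ 𝓝 z, DifferentiableAt ℂ (F p.1) p.2
  lim : ∀ z ∈ U, CC F z (f z)

theorem near {z : ℂ} {P : ℝ → ℂ → Prop}
    (h : ∀ᶠ p : ℝ × ℂ in 𝓝[>] (0 : ℝ) ×ˢ 𝓝 z, P p.1 p.2) :
    ∃ r : ℝ, 0 < r ∧ ∀ᶠ e in 𝓝[>] (0 : ℝ), ∀ y ∈ Metric.ball z r, P e y := by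
  obtain ⟨pa, ha, pb, hb, hab⟩ := eventually_prod_iff.1 h
  obtain ⟨r, hr, hb⟩ := Metric.eventually_nhds_iff_ball.1 hb
  exact ⟨r, hr, ha.mono fun e he y hy => hab he (hb y hy)⟩

theorem near_mk {z : ℂ} {P : ℝ → ℂ → Prop} {r : ℝ} (hr : 0 < r)
    (h : ∀ᶠ e in 𝓝[>] (0 : ℝ), ∀ y ∈ Metric.ball z r, P e y) :
    ∀ᶠ p : ℝ × ℂ in 𝓝[>] (0 : ℝ) ×ˢ 𝓝 z, P p.1 p.2 := by
  refine eventually_prod_iff.2 ⟨_, h, fun y => y ∈ Metric.ball z r, Metric.ball_mem_nhds z hr, ?_⟩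
  intro e he y hy
  exact he y hy

/-- an eventual property holds in a neighbourhood of the second coordinate -/
theorem near_near {z : ℂ} {P : ℝ → ℂ → Prop}
    (h : ∀ᶠ p : ℝ × ℂ in 𝓝[>] (0 : ℝ) ×ˢ 𝓝 z, P p.1 p.2) :
    ∀ᶠ p : ℝ × ℂ in 𝓝[>] (0 : ℝ) ×ˢ 𝓝 z, ∀ᶠ y in 𝓝 p.2, P p.1 y := by
  obtain ⟨r, hr, h⟩ := near h
  refine near_mk (P := fun e y => ∀ᶠ w in 𝓝 y, P e w) hr (h.mono fun e he y hy => ?_)
  exact (Metric.isOpen_ball.mem_nhds hy : Metric.ball z r ∈ 𝓝 y) |> fun h => by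
    filter_upwards [h] with w hw using he w hw

/-- a property of the parameter -/
theorem near_fst {z : ℂ} {P : ℝ → Prop} (h : ∀ᶠ e in 𝓝[>] (0 : ℝ), P e) :
    ∀ᶠ p : ℝ × ℂ in 𝓝[>] (0 : ℝ) ×ˢ 𝓝 z, P p.1 :=
  tendsto_fst.eventually h

theorem near_pos {z : ℂ} : ∀ᶠ p : ℝ × ℂ in 𝓝[>] (0 : ℝ) ×ˢ 𝓝 z, 0 < p.1 :=
  near_fst (P := fun e => 0 < e) self_mem_nhdsWithin

theorem CC.at {F : ℝ → ℂ → ℂ} {z c : ℂ} (h : CC F z c) :
    Tendsto (fun e => F e z) (𝓝[>] (0 : ℝ)) (𝓝 c) := by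
  have h1 : Tendsto (fun e : ℝ => (e, z)) (𝓝[>] (0 : ℝ)) (𝓝[>] (0 : ℝ) ×ˢ 𝓝 z) :=
    tendsto_id.prodMk tendsto_const_nhds
  exact Tendsto.comp (g := fun p : ℝ × ℂ => F p.1 p.2) h h1

variable {U : Set ℂ} {F G : ℝ → ℂ → ℂ} {f g : ℂ → ℂ}

theorem Loc.cont (hU : IsOpen U) (h : Loc U F f) {z : ℂ} (hz : z ∈ U) : ContinuousAt f z := by
  rw [Metric.continuousAt_iff']
  intro ε hε
  have h1 : ∀ᶠ p : ℝ × ℂ in 𝓝[>] (0 : ℝ) ×ˢ 𝓝 z, dist (F p.1 p.2) (f z) < ε / 2 :=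
    (Metric.tendsto_nhds.1 (h.lim z hz)) _ (half_pos hε)
  obtain ⟨r, hr, h1⟩ := near (P := fun e y => dist (F e y) (f z) < ε / 2) h1
  filter_upwards [Metric.ball_mem_nhds z hr, hU.mem_nhds hz] with y hy hyU
  have h2 := (h.lim y hyU).at
  have h3 : Tendsto (fun e => dist (F e y) (f z)) (𝓝[>] (0 : ℝ)) (𝓝 (dist (f y) (f z))) :=
    h2.dist tendsto_const_nhds
  have h4 : dist (f y) (f z) ≤ ε / 2 :=
    le_of_tendsto h3 (h1.mono fun e he => (he y hy).le)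
  linarith

theorem Loc.tlu (hU : IsOpen U) (h : Loc U F f) :
    TendstoLocallyUniformlyOn F f (𝓝[>] (0 : ℝ)) U := by
  rw [hU.tendstoLocallyUniformlyOn_iff_forall_tendsto]
  intro z hz
  have h1 : Tendsto (fun p : ℝ × ℂ => (f p.2, F p.1 p.2)) (𝓝[>] (0 : ℝ) ×ˢ 𝓝 z)
      (𝓝 (f z, f z)) :=
    (((h.cont hU hz).tendsto).comp tendsto_snd).prodMk_nhds (h.lim z hz)
  exact h1.mono_right (nhds_le_uniformity _)

theorem Loc.mono {V : Set ℂ} (h : Loc U F f) (hV : V ⊆ U) : Loc V F f :=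
  ⟨fun z hz => h.hol z (hV hz), fun z hz => h.lim z (hV hz)⟩

theorem of_tlu (hU : IsOpen U) (hf : ContinuousOn f U)
    (hh : ∀ z ∈ U, ∀ᶠ p : ℝ × ℂ in 𝓝[>] (0 : ℝ) ×ˢ 𝓝 z, DifferentiableAt ℂ (F p.1) p.2)
    (h : TendstoLocallyUniformlyOn F f (𝓝[>] (0 : ℝ)) U) : Loc U F f := by
  refine ⟨hh, fun z hz => ?_⟩
  rw [hU.tendstoLocallyUniformlyOn_iff_forall_tendsto] at h
  have h1 : Tendsto (fun p : ℝ × ℂ => f p.2) (𝓝[>] (0 : ℝ) ×ˢ 𝓝 z) (𝓝 (f z)) :=
    ((hf.continuousAt (hU.mem_nhds hz)).tendsto).comp tendsto_snd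
  exact h1.congr_uniformity (h z hz)

theorem Loc.diff (hU : IsOpen U) (h : Loc U F f) : DifferentiableOn ℂ f U := by
  intro z hz
  obtain ⟨r, hr, h1⟩ := near (P := fun e y => DifferentiableAt ℂ (F e) y) (h.hol z hz)
  have hV : IsOpen (Metric.ball z r ∩ U) := Metric.isOpen_ball.inter hU
  have h2 := (h.mono (V := Metric.ball z r ∩ U) Set.inter_subset_right).tlu hV
  have h3 := h2.differentiableOn
    (h1.mono fun e he y hy => (he y hy.1).differentiableWithinAt) hV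
  exact (h3.differentiableAt (hV.mem_nhds ⟨Metric.mem_ball_self hr, hz⟩)).differentiableWithinAt

theorem Loc.deriv (hU : IsOpen U) (h : Loc U F f) :
    Loc U (fun e => deriv (F e)) (deriv f) := by
  refine ⟨fun z hz => ?_, fun z hz => ?_⟩
  · refine (near_near (P := fun e y => DifferentiableAt ℂ (F e) y) (h.hol z hz)).mono
      fun p hp => ?_
    obtain ⟨s, hs, hs1⟩ := Metric.eventually_nhds_iff_ball.1 hp
    have : DifferentiableOn ℂ (F p.1) (Metric.ball p.2 s) :=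
      fun y hy => (hs1 y hy).differentiableWithinAt
    exact (this.deriv Metric.isOpen_ball).differentiableAt (Metric.ball_mem_nhds _ hs)
  · obtain ⟨r, hr, h1⟩ := near (P := fun e y => DifferentiableAt ℂ (F e) y) (h.hol z hz)
    have hV : IsOpen (Metric.ball z r ∩ U) := Metric.isOpen_ball.inter hU
    have hzV : z ∈ Metric.ball z r ∩ U := ⟨Metric.mem_ball_self hr, hz⟩
    have h2 := (h.mono (V := Metric.ball z r ∩ U) Set.inter_subset_right).tlu hV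
    have hd : ∀ᶠ e in 𝓝[>] (0 : ℝ), DifferentiableOn ℂ (F e) (Metric.ball z r ∩ U) :=
      h1.mono fun e he y hy => (he y hy.1).differentiableWithinAt
    have h3 := h2.deriv hd hV
    have h4 := h2.differentiableOn hd hV
    rw [hV.tendstoLocallyUniformlyOn_iff_forall_tendsto] at h3
    have h5 : ContinuousAt (_root_.deriv f) z :=
      ((h4.deriv hV).differentiableAt (hV.mem_nhds hzV)).continuousAt
    have h6 : Tendsto (fun p : ℝ × ℂ => _root_.deriv f p.2) (𝓝[>] (0 : ℝ) ×ˢ 𝓝 z)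
        (𝓝 (_root_.deriv f z)) := h5.tendsto.comp tendsto_snd
    exact h6.congr_uniformity (h3 z hzV)

theorem Loc.congr (h : Loc U F f)
    (he : ∀ z ∈ U, ∀ᶠ p : ℝ × ℂ in 𝓝[>] (0 : ℝ) ×ˢ 𝓝 z, G p.1 p.2 = F p.1 p.2) : Loc U G f := by
  refine ⟨fun z hz => ?_, fun z hz => ?_⟩
  · filter_upwards [h.hol z hz, near_near (P := fun e y => G e y = F e y) (he z hz)] with p h1 h2
    exact h1.congr_of_eventuallyEq h2
  · exact (h.lim z hz).congr' ((he z hz).mono fun p hp => hp.symm)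

theorem Loc.congr_right (h : Loc U F f) (he : ∀ z ∈ U, f z = g z) : Loc U F g :=
  ⟨h.hol, fun z hz => he z hz ▸ h.lim z hz⟩

theorem Loc.mul (h : Loc U F f) (h' : Loc U G g) :
    Loc U (fun e z => F e z * G e z) (fun z => f z * g z) := by
  refine ⟨fun z hz => ?_, fun z hz => (h.lim z hz).mul (h'.lim z hz)⟩
  filter_upwards [h.hol z hz, h'.hol z hz] with p h1 h2 using h1.mul h2

theorem Loc.add (h : Loc U F f) (h' : Loc U G g) :
    Loc U (fun e z => F e z + G e z) (fun z => f z + g z) := by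
  refine ⟨fun z hz => ?_, fun z hz => (h.lim z hz).add (h'.lim z hz)⟩
  filter_upwards [h.hol z hz, h'.hol z hz] with p h1 h2 using h1.add h2

theorem Loc.sub (h : Loc U F f) (h' : Loc U G g) :
    Loc U (fun e z => F e z - G e z) (fun z => f z - g z) := by
  refine ⟨fun z hz => ?_, fun z hz => (h.lim z hz).sub (h'.lim z hz)⟩
  filter_upwards [h.hol z hz, h'.hol z hz] with p h1 h2 using h1.sub h2

theorem Loc.exp (h : Loc U F f) :
    Loc U (fun e z => Complex.exp (F e z)) (fun z => Complex.exp (f z)) := by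
  refine ⟨fun z hz => ?_, fun z hz => (Complex.continuous_exp.tendsto _).comp (h.lim z hz)⟩
  filter_upwards [h.hol z hz] with p h1 using h1.cexp

theorem Loc.inv (h : Loc U F f) (hf : ∀ z ∈ U, f z ≠ 0) :
    Loc U (fun e z => (F e z)⁻¹) (fun z => (f z)⁻¹) := by
  refine ⟨fun z hz => ?_, fun z hz => (h.lim z hz).inv₀ (hf z hz)⟩
  filter_upwards [h.hol z hz, (h.lim z hz).eventually_ne (hf z hz)] with p h1 h2 using h1.inv h2

/-- a fixed holomorphic function -/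
theorem loc_fix (hU : IsOpen U) (hf : DifferentiableOn ℂ f U) : Loc U (fun _ => f) f := by
  refine ⟨fun z hz => ?_, fun z hz => ?_⟩
  · have : ∀ᶠ y in 𝓝 z, DifferentiableAt ℂ f y := by
      filter_upwards [hU.mem_nhds hz] with y hy using hf.differentiableAt (hU.mem_nhds hy)
    exact tendsto_snd.eventually this
  · exact ((hf.differentiableAt (hU.mem_nhds hz)).continuousAt.tendsto).comp tendsto_snd

theorem loc_const (c : ℂ) : Loc U (fun _ _ => c) (fun _ => c) :=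
  ⟨fun _ _ => Eventually.of_forall fun _ => differentiableAt_const _,
    fun _ _ => tendsto_const_nhds⟩

/-- the parameter itself -/
theorem loc_par : Loc U (fun e _ => (e : ℂ)) (fun _ => 0) := by
  refine ⟨fun _ _ => Eventually.of_forall fun _ => differentiableAt_const _, fun z _ => ?_⟩
  have h1 : Tendsto (fun e : ℝ => (e : ℂ)) (𝓝[>] (0 : ℝ)) (𝓝 ((0 : ℝ) : ℂ)) :=
    (Complex.continuous_ofReal.tendsto 0).mono_left nhdsWithin_le_nhds
  rw [Complex.ofReal_zero] at h1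
  exact h1.comp tendsto_fst

/-- steep families: `X e = exp (- (α / e) z) * (convergent)` -/
def Stp (U : Set ℂ) (α : ℝ) (X : ℝ → ℂ → ℂ) (Φ : ℂ → ℂ) : Prop :=
  Loc U (fun e z => Complex.exp ((α / e : ℝ) * z) * X e z) Φ

theorem Stp.hol {α : ℝ} {X : ℝ → ℂ → ℂ} {Φ : ℂ → ℂ} (h : Stp U α X Φ) {z : ℂ} (hz : z ∈ U) :
    ∀ᶠ p : ℝ × ℂ in 𝓝[>] (0 : ℝ) ×ˢ 𝓝 z, DifferentiableAt ℂ (X p.1) p.2 := by
  filter_upwards [Loc.hol h z hz] with p hp
  have h1 : DifferentiableAt ℂ (fun w : ℂ => Complex.exp (-((α / p.1 : ℝ) * w))) p.2 := by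
    fun_prop
  refine (h1.mul hp).congr_of_eventuallyEq (Eventually.of_forall fun w => ?_)
  show X p.1 w = Complex.exp (-((α / p.1 : ℝ) * w)) *
    (Complex.exp ((α / p.1 : ℝ) * w) * X p.1 w)
  rw [← mul_assoc, ← Complex.exp_add, neg_add_cancel, Complex.exp_zero, one_mul]

theorem deriv_steep {c : ℂ} {X : ℂ → ℂ} {z : ℂ} (h : DifferentiableAt ℂ X z) :
    deriv (fun w => Complex.exp (c * w) * X w) z =
      Complex.exp (c * z) * (c * X z + deriv X z) := by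
  have h1 : HasDerivAt (fun w : ℂ => Complex.exp (c * w)) (Complex.exp (c * z) * (c * 1)) z :=
    ((hasDerivAt_id z).const_mul c).cexp
  have h2 : HasDerivAt (fun w => Complex.exp (c * w) * X w)
      (Complex.exp (c * z) * (c * 1) * X z + Complex.exp (c * z) * deriv X z) z :=
    h1.mul h.hasDerivAt
  rw [h2.deriv]
  ring

theorem Stp.br (hU : IsOpen U) {α β : ℝ} {X Y : ℝ → ℂ → ℂ} {Φ Ψ : ℂ → ℂ} (hX : Stp U α X Φ)
    (hY : Stp U β Y Ψ) :
    Stp U (α + β) (fun e z => (e : ℂ) * Ww.br (X e) (Y e) z)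
      (fun z => ((β : ℂ) - α) * (Φ z * Ψ z)) := by
  have h1 : Loc U _ _ := (loc_par.mul ((Loc.mul (Loc.deriv hU hX) hY).sub
    (Loc.mul (Loc.deriv hU hY) hX))).add ((loc_const ((β : ℂ) - α)).mul (Loc.mul hX hY))
  refine Loc.congr_right (Loc.congr h1 fun z hz => ?_) (fun z _ => by simp)
  filter_upwards [near_pos, hX.hol hz, hY.hol hz] with p hp h2 h3
  obtain ⟨e, w⟩ := p
  simp only at hp h2 h3 ⊢
  have he : (e : ℂ) ≠ 0 := by exact_mod_cast hp.ne'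
  rw [deriv_steep h2, deriv_steep h3]
  have h4 : Complex.exp (((α + β) / e : ℝ) * w) =
      Complex.exp ((α / e : ℝ) * w) * Complex.exp ((β / e : ℝ) * w) := by
    rw [← Complex.exp_add]
    congr 1
    push_cast
    ring
  rw [h4]
  simp only [Ww.br]
  push_cast
  field_simp
  ring

/-- the field of a cheap letter conjugated by `g` -/
noncomputable def st (a e : ℝ) (g : ℂ → ℂ) (z : ℂ) : ℂ :=
  Complex.exp (-((a / e : ℝ) * g z)) / deriv g z

theorem loc_g (hU : IsOpen U) {g : ℝ → ℂ → ℂ} {H : ℂ → ℂ}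
    (hg : Loc U (fun e z => (g e z - z) / e) H) : Loc U g id := by
  refine Loc.congr_right (Loc.congr ((loc_fix hU differentiableOn_id).add (loc_par.mul hg))
    fun z _ => ?_) (fun z _ => by simp)
  filter_upwards [near_pos] with p hp
  have he : (p.1 : ℂ) ≠ 0 := by exact_mod_cast hp.ne'
  simp only [id]
  field_simp
  ring

theorem loc_dg (hU : IsOpen U) {g : ℝ → ℂ → ℂ} {H : ℂ → ℂ}
    (hg : Loc U (fun e z => (g e z - z) / e) H) : Loc U (fun e => deriv (g e)) (fun _ => 1) :=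
  ((loc_g hU hg).deriv hU).congr_right fun z _ => by simp

theorem stp_st (hU : IsOpen U) {g : ℝ → ℂ → ℂ} {H : ℂ → ℂ}
    (hg : Loc U (fun e z => (g e z - z) / e) H) (a : ℝ) :
    Stp U a (fun e => st a e (g e)) (fun z => Complex.exp (-(a * H z))) := by
  have h1 : Loc U _ _ := ((((loc_const (-(a : ℂ))).mul hg).exp)).mul
    ((loc_dg hU hg).inv fun _ _ => one_ne_zero)
  refine Loc.congr_right (Loc.congr h1 fun z _ => ?_) (fun z _ => by simp)
  filter_upwards [near_pos] with p hp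
  have he : (p.1 : ℂ) ≠ 0 := by exact_mod_cast hp.ne'
  simp only [st]
  rw [← mul_div_assoc, ← Complex.exp_add]
  refine (div_eq_mul_inv _ _).trans ?_
  congr 2
  push_cast
  field_simp
  ring

theorem stp_exp (c : ℝ) :
    Stp U c (fun e z => Complex.exp (-((c / e : ℝ) * z))) (fun _ => 1) := by
  refine Loc.congr (loc_const 1) fun z _ => Eventually.of_forall fun p => ?_
  show Complex.exp _ * Complex.exp _ = 1
  rw [← Complex.exp_add, add_neg_cancel, Complex.exp_zero]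

theorem br_smul_left (c : ℂ) (X Y : ℂ → ℂ) (z : ℂ) :
    br (fun w => c * X w) Y z = c * br X Y z := by
  simp only [br, deriv_const_mul_field]
  ring

/-- **The limit of the double bracket.** -/
theorem lim_br3 (hU : IsOpen U) {g₁ g₂ : ℝ → ℂ → ℂ} {H₁ H₂ : ℂ → ℂ}
    (h₁ : Loc U (fun e z => (g₁ e z - z) / e) H₁) (h₂ : Loc U (fun e z => (g₂ e z - z) / e) H₂)
    (a b c : ℝ) {z : ℂ} (hz : z ∈ U) :
    Tendsto (fun e : ℝ => (e : ℂ) ^ 2 * (Complex.exp (((a + b + c) / e : ℝ) * z) *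
        br (br (st a e (g₁ e)) (st b e (g₂ e))) (fun w => Complex.exp (-((c / e : ℝ) * w))) z))
      (𝓝[>] (0 : ℝ))
      (𝓝 (((b : ℂ) - a) * (c - a - b) * Complex.exp (-(a * H₁ z + b * H₂ z)))) := by
  have h1 := Stp.br hU (Stp.br hU (stp_st hU h₁ a) (stp_st hU h₂ b)) (stp_exp c)
  have h2 := (Loc.lim h1 z hz).at
  have h3 : ((b : ℂ) - a) * (c - a - b) * Complex.exp (-(a * H₁ z + b * H₂ z)) =
      ((c : ℂ) - ((a + b : ℝ) : ℂ)) * ((((b : ℂ) - a) * (Complex.exp (-(a * H₁ z)) *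
        Complex.exp (-(b * H₂ z)))) * 1) := by
    rw [neg_add, Complex.exp_add]
    push_cast
    ring
  rw [h3]
  refine h2.congr fun e => ?_
  beta_reduce
  rw [br_smul_left]
  ring

/-! ### Brackets of finite sums -/

theorem br_sum_left {ι : Type*} (s : Finset ι) (a : ι → ℂ) (X : ι → ℂ → ℂ) (Y : ℂ → ℂ) {z : ℂ}
    (h : ∀ i ∈ s, DifferentiableAt ℂ (X i) z) :
    br (fun w => ∑ i ∈ s, a i * X i w) Y z = ∑ i ∈ s, a i * br (X i) Y z := by
  have h1 : deriv (fun w => ∑ i ∈ s, a i * X i w) z = ∑ i ∈ s, a i * deriv (X i) z := by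
    have : HasDerivAt (fun w => ∑ i ∈ s, a i * X i w) (∑ i ∈ s, a i * deriv (X i) z) z :=
      HasDerivAt.fun_sum fun i hi => ((h i hi).hasDerivAt).const_mul (a i)
    exact this.deriv
  simp only [br, h1]
  rw [Finset.sum_mul, Finset.mul_sum, ← Finset.sum_sub_distrib]
  exact Finset.sum_congr rfl fun i _ => by ring

theorem br_sum_right {ι : Type*} (s : Finset ι) (a : ι → ℂ) (X : ℂ → ℂ) (Y : ι → ℂ → ℂ) {z : ℂ}
    (h : ∀ i ∈ s, DifferentiableAt ℂ (Y i) z) :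
    br X (fun w => ∑ i ∈ s, a i * Y i w) z = ∑ i ∈ s, a i * br X (Y i) z := by
  have h1 : deriv (fun w => ∑ i ∈ s, a i * Y i w) z = ∑ i ∈ s, a i * deriv (Y i) z := by
    have : HasDerivAt (fun w => ∑ i ∈ s, a i * Y i w) (∑ i ∈ s, a i * deriv (Y i) z) z :=
      HasDerivAt.fun_sum fun i hi => ((h i hi).hasDerivAt).const_mul (a i)
    exact this.deriv
  simp only [br, h1]
  rw [Finset.sum_mul, Finset.mul_sum, ← Finset.sum_sub_distrib]
  exact Finset.sum_congr rfl fun i _ => by ring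

theorem br_congr_left {X X' Y : ℂ → ℂ} {z : ℂ} (h : X =ᶠ[𝓝 z] X') : br X Y z = br X' Y z := by
  simp only [br, h.deriv_eq, h.self_of_nhds]

theorem differentiableAt_br {X Y : ℂ → ℂ} {z : ℂ} (hX : ∀ᶠ w in 𝓝 z, DifferentiableAt ℂ X w)
    (hY : ∀ᶠ w in 𝓝 z, DifferentiableAt ℂ Y w) : DifferentiableAt ℂ (br X Y) z := by
  have key : ∀ {Z : ℂ → ℂ}, (∀ᶠ w in 𝓝 z, DifferentiableAt ℂ Z w) →
      DifferentiableAt ℂ (deriv Z) z := by
    intro Z hZ
    obtain ⟨s, hs, hs1⟩ := Metric.eventually_nhds_iff_ball.1 hZ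
    have : DifferentiableOn ℂ Z (Metric.ball z s) :=
      fun y hy => (hs1 y hy).differentiableWithinAt
    exact (this.deriv Metric.isOpen_ball).differentiableAt (Metric.ball_mem_nhds _ hs)
  exact ((key hX).mul hY.self_of_nhds).sub ((key hY).mul hX.self_of_nhds)

/-- trilinear expansion of the double bracket -/
theorem br3_sum {ι κ l : Type*} (s : Finset ι) (t : Finset κ) (u : Finset l) (a : ι → ℂ)
    (b : κ → ℂ) (c : l → ℂ) (X : ι → ℂ → ℂ) (Y : κ → ℂ → ℂ) (Z : l → ℂ → ℂ) {z : ℂ}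
    (hX : ∀ i ∈ s, ∀ᶠ w in 𝓝 z, DifferentiableAt ℂ (X i) w)
    (hY : ∀ j ∈ t, ∀ᶠ w in 𝓝 z, DifferentiableAt ℂ (Y j) w)
    (hZ : ∀ k ∈ u, DifferentiableAt ℂ (Z k) z) :
    br (br (fun w => ∑ i ∈ s, a i * X i w) (fun w => ∑ j ∈ t, b j * Y j w))
        (fun w => ∑ k ∈ u, c k * Z k w) z =
      ∑ i ∈ s, ∑ j ∈ t, ∑ k ∈ u, a i * b j * c k * br (br (X i) (Y j)) (Z k) z := by
  have hX' : ∀ᶠ w in 𝓝 z, ∀ i ∈ s, DifferentiableAt ℂ (X i) w :=
    (Finset.eventually_all s).2 hX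
  have hY' : ∀ᶠ w in 𝓝 z, ∀ j ∈ t, DifferentiableAt ℂ (Y j) w :=
    (Finset.eventually_all t).2 hY
  have h1 : br (fun w => ∑ i ∈ s, a i * X i w) (fun w => ∑ j ∈ t, b j * Y j w) =ᶠ[𝓝 z]
      fun w => ∑ p ∈ s ×ˢ t, (a p.1 * b p.2) * br (X p.1) (Y p.2) w := by
    filter_upwards [hX', hY'] with w hx hy
    rw [br_sum_left s a X _ hx, Finset.sum_product]
    refine Finset.sum_congr rfl fun i _ => ?_
    rw [br_sum_right t b (X i) Y hy, Finset.mul_sum]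
    exact Finset.sum_congr rfl fun j _ => by ring
  rw [br_congr_left h1, br_sum_left (s ×ˢ t) (fun p => a p.1 * b p.2)
    (fun p => br (X p.1) (Y p.2)) _ (fun p hp => differentiableAt_br
      (hX p.1 (Finset.mem_product.1 hp).1) (hY p.2 (Finset.mem_product.1 hp).2)),
    Finset.sum_product]
  refine Finset.sum_congr rfl fun i _ => Finset.sum_congr rfl fun j _ => ?_
  rw [br_sum_right u c _ Z hZ, Finset.mul_sum]
  exact Finset.sum_congr rfl fun k _ => by ring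

end Pool.Agent.Lib.MP_95e7ec_an.Ww.AsyL
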