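import Pool.Agent.Lib.MP_95e7ec_an.Ww.Rea

/-!
# Realness and domains of word families

For a word family `WF U p m w A`: `A` is real on the real points of `U` and continuous there; a
compact segment of `U` has an open neighbourhood with compact closure in `U`, on which the words
`w (c e)` are defined for all small `e`.
-/

set_option autoImplicit false

open Filter Topology Set

namespace Pool.Agent.Lib.MP_95e7ec_an.Ww

open Pool.Agent.MP95e7W

variable {U : Set ℂ} {p m : ℕ} {w : ℝ → List (ℝ × ℝ)} {A : ℂ → ℂ}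

/-- the field of a word family is real on the real line -/
theorem WF.im_zero (h : WF U p m w A) {s : ℝ} (hs : (s : ℂ) ∈ U) : (A (s : ℂ)).im = 0 := by
  have hK : ({(s : ℂ)} : Set ℂ) ⊆ U := singleton_subset_iff.2 hs
  have h1 : Tendsto (fun d : ℝ => (cwd (w d) (s : ℂ) - s) / (d : ℂ) ^ p) (𝓝[>] (0 : ℝ))
      (𝓝 (A (s : ℂ))) := (h.fwd.lim _ hK isCompact_singleton).tendsto_at rfl
  have h2 : ∀ᶠ d : ℝ in 𝓝[>] (0 : ℝ), ((cwd (w d) (s : ℂ) - s) / (d : ℂ) ^ p).im = 0 := by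
    filter_upwards [h.ok _ hK isCompact_singleton] with d hd
    obtain ⟨-, -, e⟩ := (hd (s : ℂ) rfl).real (h.pos d)
    rw [e]
    have : (((Real.log (wd (w d) (Real.exp s)) : ℝ) : ℂ) - (s : ℂ)) / (d : ℂ) ^ p =
        (((Real.log (wd (w d) (Real.exp s)) - s) / d ^ p : ℝ) : ℂ) := by push_cast; ring
    rw [this, Complex.ofReal_im]
  have h3 : Tendsto (fun d : ℝ => ((cwd (w d) (s : ℂ) - s) / (d : ℂ) ^ p).im) (𝓝[>] (0 : ℝ))
      (𝓝 (A (s : ℂ)).im) := (Complex.continuous_im.tendsto _).comp h1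
  exact tendsto_nhds_unique h3 (tendsto_const_nhds.congr' (h2.mono fun d hd => hd.symm))

theorem WF.ofReal_re (h : WF U p m w A) {s : ℝ} (hs : (s : ℂ) ∈ U) :
    (((A (s : ℂ)).re : ℝ) : ℂ) = A (s : ℂ) :=
  Complex.ext (Complex.ofReal_re _) (by rw [Complex.ofReal_im, h.im_zero hs])

theorem Rea.im_zero (h : Rea U p m A) {s : ℝ} (hs : (s : ℂ) ∈ U) : (A (s : ℂ)).im = 0 := by
  obtain ⟨w, hw⟩ := h
  exact hw.im_zero hs

/-- the values of a word family at a real point are real for small `d` -/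
theorem WF.cwd_im (h : WF U p m w A) {s : ℝ} (hs : (s : ℂ) ∈ U) :
    ∀ᶠ d in 𝓝[>] (0 : ℝ), (cwd (w d) (s : ℂ)).im = 0 := by
  filter_upwards [h.ok _ (singleton_subset_iff.2 hs) isCompact_singleton] with d hd
  obtain ⟨-, -, e⟩ := (hd (s : ℂ) rfl).real (h.pos d)
  rw [e, Complex.ofReal_im]

theorem Rea.differentiableOn (hU : IsOpen U) (h : Rea U p m A) : DifferentiableOn ℂ A U := by
  obtain ⟨w, hw⟩ := h
  exact hw.fwd.dif hU

/-- the real part of the field is continuous on the real points -/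
theorem Rea.continuousOn_re (hU : IsOpen U) (h : Rea U p m A) {S : Set ℝ}
    (hS : ∀ x ∈ S, (x : ℂ) ∈ U) : ContinuousOn (fun x : ℝ => (A (x : ℂ)).re) S :=
  Complex.continuous_re.comp_continuousOn
    ((h.differentiableOn hU).continuousOn.comp Complex.continuous_ofReal.continuousOn hS)

/-- a compact segment of `U` has an open neighbourhood with compact closure in `U` -/
theorem exists_seg_nbhd (hU : IsOpen U) {a b : ℝ} (hS : ∀ x ∈ Icc a b, (x : ℂ) ∈ U) :
    ∃ W K : Set ℂ, IsOpen W ∧ IsCompact K ∧ (∀ x ∈ Icc a b, (x : ℂ) ∈ W) ∧ W ⊆ K ∧ K ⊆ U := by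
  have hc : IsCompact ((fun x : ℝ => (x : ℂ)) '' Icc a b) :=
    isCompact_Icc.image Complex.continuous_ofReal
  have hs : (fun x : ℝ => (x : ℂ)) '' Icc a b ⊆ U := by
    rintro _ ⟨x, hx, rfl⟩
    exact hS x hx
  obtain ⟨r, hr, h1, h2⟩ := exists_nbhd hU hs hc
  refine ⟨_, _, Metric.isOpen_thickening, h2, fun x hx => ?_,
    Metric.thickening_subset_cthickening r _, h1⟩
  exact Metric.self_subset_thickening hr _ ⟨x, hx, rfl⟩

/-- multiplication by a positive factor -/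
theorem tendsto_mul_pos {c : ℝ} (hc : 0 < c) :
    Tendsto (fun e : ℝ => e * c) (𝓝[>] (0 : ℝ)) (𝓝[>] (0 : ℝ)) := by
  refine tendsto_nhdsWithin_iff.2 ⟨?_, ?_⟩
  · have h1 : Tendsto (fun e : ℝ => e * c) (𝓝 0) (𝓝 (0 * c)) :=
      (continuous_id.mul continuous_const).tendsto 0
    rw [zero_mul] at h1
    exact h1.mono_left nhdsWithin_le_nhds
  · filter_upwards [self_mem_nhdsWithin] with e he
    exact mul_pos he hc

/-- for small `e` the words `w (e c)` are defined on a compact subset of `U` -/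
theorem WF.ok_mul (h : WF U p m w A) {K : Set ℂ} (hK : K ⊆ U) (hc : IsCompact K) {c : ℝ}
    (hc0 : 0 < c) : ∀ᶠ e in 𝓝[>] (0 : ℝ), ∀ z ∈ K, Cok (w (e * c)) z :=
  (tendsto_mul_pos hc0).eventually (h.ok K hK hc)

/-- order one: `w (e c)` is `z + e c A z + ..` -/
theorem WF.lim_mul (h : WF U 1 m w A) {z : ℂ} (hz : z ∈ U) {c : ℝ} (hc0 : 0 < c) :
    Tendsto (fun e : ℝ => (cwd (w (e * c)) z - z) / (e : ℂ)) (𝓝[>] (0 : ℝ))
      (𝓝 ((c : ℂ) * A z)) := by
  have h1 : Tendsto (fun d : ℝ => (cwd (w d) z - z) / (d : ℂ) ^ 1) (𝓝[>] (0 : ℝ)) (𝓝 (A z)) :=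
    (h.fwd.lim _ (singleton_subset_iff.2 hz) isCompact_singleton).tendsto_at rfl
  have h2 := (h1.comp (tendsto_mul_pos hc0)).const_mul (c : ℂ)
  refine h2.congr' ?_
  filter_upwards [eventually_ne] with e he
  have hc1 : (c : ℂ) ≠ 0 := Complex.ofReal_ne_zero.2 hc0.ne'
  simp only [Function.comp_apply, pow_one]
  push_cast
  field_simp

end Pool.Agent.Lib.MP_95e7ec_an.Ww
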