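import Mathlib

/-!
# Holomorphic families near the identity: basic facts

All limits are limits for `d → 0+`, uniform on the compact subsets of an open set `U` of the
complex plane. `EvC U P`: on every compact subset of `U` the property `P d z` holds for all small
`d > 0`. `UC U F Φ`: `F d → Φ` uniformly on the compact subsets of `U`. `Fam U p f A`: the maps
`f d` are holomorphic and `(f d z - z) / d ^ p → A z`.
-/

set_option autoImplicit false

open Filter Topology Set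

namespace Pool.Agent.Lib.MP_95e7ec_an.Ww

/-- `P d z` holds for the points of every compact subset of `U` and all small `d > 0`. -/
def EvC (U : Set ℂ) (P : ℝ → ℂ → Prop) : Prop :=
  ∀ K ⊆ U, IsCompact K → ∀ᶠ d in 𝓝[>] (0 : ℝ), ∀ z ∈ K, P d z

/-- `F d → Φ` uniformly on the compact subsets of `U`. -/
def UC (U : Set ℂ) (F : ℝ → ℂ → ℂ) (Φ : ℂ → ℂ) : Prop :=
  ∀ K ⊆ U, IsCompact K → TendstoUniformlyOn F Φ (𝓝[>] (0 : ℝ)) K

/-- Families of maps near the identity. -/
structure Fam (U : Set ℂ) (p : ℕ) (f : ℝ → ℂ → ℂ) (A : ℂ → ℂ) : Prop where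
  hol : EvC U fun d z => DifferentiableAt ℂ (f d) z
  lim : UC U (fun d z => (f d z - z) / (d : ℂ) ^ p) A

variable {U V : Set ℂ} {P Q : ℝ → ℂ → Prop} {F G f g k : ℝ → ℂ → ℂ} {Φ Ψ A B : ℂ → ℂ} {p q : ℕ}

theorem EvC.and (h1 : EvC U P) (h2 : EvC U Q) : EvC U fun d z => P d z ∧ Q d z := by
  intro K hK hc
  filter_upwards [h1 K hK hc, h2 K hK hc] with d h3 h4 z hz
  exact ⟨h3 z hz, h4 z hz⟩

theorem EvC.imp (h1 : EvC U P) (h2 : ∀ d z, P d z → Q d z) : EvC U Q := by
  intro K hK hc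
  filter_upwards [h1 K hK hc] with d h3 z hz
  exact h2 d z (h3 z hz)

theorem EvC.mono (h1 : EvC U P) (h : V ⊆ U) : EvC V P := fun K hK hc => h1 K (hK.trans h) hc

theorem UC.mono (h1 : UC U F Φ) (h : V ⊆ U) : UC V F Φ := fun K hK hc => h1 K (hK.trans h) hc

theorem UC_iff : UC U F Φ ↔ ∀ ε : ℝ, 0 < ε → EvC U fun d z => dist (Φ z) (F d z) < ε := by
  constructor
  · intro h ε hε K hK hc
    exact Metric.tendstoUniformlyOn_iff.1 (h K hK hc) ε hε
  · intro h K hK hc
    exact Metric.tendstoUniformlyOn_iff.2 fun ε hε => h ε hε K hK hc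

theorem UC.congr (h : UC U F Φ) (e : EvC U fun d z => F d z = G d z) : UC U G Φ := by
  intro K hK hc
  exact (h K hK hc).congr (e K hK hc)

theorem UC.congr_right (h : UC U F Φ) (e : ∀ z ∈ U, Φ z = Ψ z) : UC U F Ψ := by
  intro K hK hc
  exact (h K hK hc).congr_right fun z hz => e z (hK hz)

theorem UC.add (h1 : UC U F Φ) (h2 : UC U G Ψ) :
    UC U (fun d z => F d z + G d z) fun z => Φ z + Ψ z := fun K hK hc =>
  (h1 K hK hc).add (h2 K hK hc)

theorem UC.sub (h1 : UC U F Φ) (h2 : UC U G Ψ) :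
    UC U (fun d z => F d z - G d z) fun z => Φ z - Ψ z := fun K hK hc =>
  (h1 K hK hc).sub (h2 K hK hc)

theorem UC.neg (h1 : UC U F Φ) : UC U (fun d z => -F d z) fun z => -Φ z := fun K hK hc =>
  (h1 K hK hc).neg

theorem UC.const (Φ : ℂ → ℂ) : UC U (fun _ => Φ) Φ := by
  intro K _ _
  rw [Metric.tendstoUniformlyOn_iff]
  intro ε hε
  exact Eventually.of_forall fun d z _ => by simpa using hε

/-- A compact subset of an open set has a compact neighbourhood in it. -/
theorem exists_nbhd (hU : IsOpen U) {K : Set ℂ} (hK : K ⊆ U) (hc : IsCompact K) :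
    ∃ r : ℝ, 0 < r ∧ Metric.cthickening r K ⊆ U ∧ IsCompact (Metric.cthickening r K) := by
  obtain ⟨r, hr, h⟩ := hc.exists_cthickening_subset_open hU hK
  exact ⟨r, hr, h, hc.cthickening⟩

/-- The limit is bounded on compact sets when it is continuous, and then so is the family. -/
theorem UC.bdd (h : UC U F Φ) (hΦ : ContinuousOn Φ U) {K : Set ℂ} (hK : K ⊆ U)
    (hc : IsCompact K) : ∃ C : ℝ, 0 < C ∧ (∀ z ∈ K, ‖Φ z‖ ≤ C) ∧
      ∀ᶠ d in 𝓝[>] (0 : ℝ), ∀ z ∈ K, ‖F d z‖ ≤ C := by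
  obtain ⟨C, hC⟩ := hc.exists_bound_of_continuousOn (hΦ.mono hK)
  refine ⟨|C| + 1, by positivity, fun z hz => ?_, ?_⟩
  · have := le_abs_self C
    linarith [hC z hz]
  · filter_upwards [Metric.tendstoUniformlyOn_iff.1 (h K hK hc) 1 one_pos] with d hd z hz
    have h1 := hd z hz
    rw [dist_comm, dist_eq_norm] at h1
    have h2 : ‖F d z‖ ≤ ‖F d z - Φ z‖ + ‖Φ z‖ := by
      calc ‖F d z‖ = ‖(F d z - Φ z) + Φ z‖ := by ring_nf
        _ ≤ _ := norm_add_le _ _
    have := le_abs_self C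
    linarith [hC z hz]

theorem UC.mul (h1 : UC U F Φ) (h2 : UC U G Ψ) (hΦ : ContinuousOn Φ U) (hΨ : ContinuousOn Ψ U) :
    UC U (fun d z => F d z * G d z) fun z => Φ z * Ψ z := by
  intro K hK hc
  obtain ⟨C1, hC1, b1, b1'⟩ := h1.bdd hΦ hK hc
  obtain ⟨C2, hC2, b2, b2'⟩ := h2.bdd hΨ hK hc
  rw [Metric.tendstoUniformlyOn_iff]
  intro ε hε
  have hη : 0 < ε / (2 * (C1 + C2)) := by positivity
  filter_upwards [Metric.tendstoUniformlyOn_iff.1 (h1 K hK hc) _ hη,
    Metric.tendstoUniformlyOn_iff.1 (h2 K hK hc) _ hη, b1', b2'] with d e1 e2 e3 e4 z hz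
  have f1 := e1 z hz
  have f2 := e2 z hz
  rw [dist_eq_norm] at f1 f2 ⊢
  have e : Φ z * Ψ z - F d z * G d z = (Φ z - F d z) * Ψ z + F d z * (Ψ z - G d z) := by ring
  rw [e]
  have g1 : ‖(Φ z - F d z) * Ψ z‖ ≤ ε / (2 * (C1 + C2)) * C2 := by
    rw [norm_mul]
    exact mul_le_mul f1.le (b2 z hz) (norm_nonneg _) hη.le
  have g2 : ‖F d z * (Ψ z - G d z)‖ ≤ C1 * (ε / (2 * (C1 + C2))) := by
    rw [norm_mul]
    exact mul_le_mul (e3 z hz) f2.le (norm_nonneg _) hC1.le
  calc ‖(Φ z - F d z) * Ψ z + F d z * (Ψ z - G d z)‖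
      ≤ ε / (2 * (C1 + C2)) * C2 + C1 * (ε / (2 * (C1 + C2))) :=
        (norm_add_le _ _).trans (add_le_add g1 g2)
    _ = ε / 2 := by field_simp; ring
    _ < ε := by linarith

/-- If `k d → id` then the points of a compact set stay in a compact neighbourhood. -/
theorem UC.near_id (hk : UC U k fun z => z) {K : Set ℂ} (hK : K ⊆ U) (hc : IsCompact K)
    {r : ℝ} (hr : 0 < r) : ∀ᶠ d in 𝓝[>] (0 : ℝ), ∀ z ∈ K, dist z (k d z) < r ∧
      k d z ∈ Metric.cthickening r K := by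
  filter_upwards [Metric.tendstoUniformlyOn_iff.1 (hk K hK hc) r hr] with d hd z hz
  have h1 := hd z hz
  refine ⟨h1, Metric.mem_cthickening_of_dist_le _ z _ _ hz ?_⟩
  rw [dist_comm]
  exact h1.le

/-- Properties are transported along families near the identity. -/
theorem EvC.comp (hU : IsOpen U) (h : EvC U P) (hk : UC U k fun z => z) :
    EvC U fun d z => P d (k d z) := by
  intro K hK hc
  obtain ⟨r, hr, h1, h2⟩ := exists_nbhd hU hK hc
  filter_upwards [h _ h1 h2, hk.near_id hK hc hr] with d h3 h4 z hz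
  exact h3 _ (h4 z hz).2

/-- Composition with a family near the identity. -/
theorem UC.comp (hU : IsOpen U) (h : UC U F Φ) (hΦ : ContinuousOn Φ U)
    (hk : UC U k fun z => z) : UC U (fun d z => F d (k d z)) Φ := by
  intro K hK hc
  obtain ⟨r, hr, h1, h2⟩ := exists_nbhd hU hK hc
  have huc : UniformContinuousOn Φ (Metric.cthickening r K) :=
    h2.uniformContinuousOn_of_continuous (hΦ.mono h1)
  rw [Metric.tendstoUniformlyOn_iff]
  intro ε hε
  obtain ⟨δ, hδ, hδ2⟩ := Metric.uniformContinuousOn_iff.1 huc (ε / 2) (by positivity)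
  filter_upwards [Metric.tendstoUniformlyOn_iff.1 (h _ h1 h2) (ε / 2) (by positivity),
    hk.near_id hK hc hr, hk.near_id hK hc hδ] with d e1 e2 e3 z hz
  have f1 := e1 _ (e2 z hz).2
  have f2 := hδ2 z (Metric.self_subset_cthickening K hz) _ (e2 z hz).2 (e3 z hz).1
  calc dist (Φ z) (F d (k d z)) ≤ dist (Φ z) (Φ (k d z)) + dist (Φ (k d z)) (F d (k d z)) :=
        dist_triangle _ _ _
    _ < ε := by linarith

/-- Holomorphic families: the limit is holomorphic and the derivatives converge. -/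
theorem UC.hol_deriv (hU : IsOpen U) (h : UC U F Φ)
    (hF : EvC U fun d z => DifferentiableAt ℂ (F d) z) :
    DifferentiableOn ℂ Φ U ∧ UC U (fun d z => deriv (F d) z) (deriv Φ) := by
  have key : ∀ K ⊆ U, IsCompact K → ∃ W : Set ℂ, IsOpen W ∧ K ⊆ W ∧ W ⊆ U ∧
      DifferentiableOn ℂ Φ W ∧ TendstoLocallyUniformlyOn (fun d z => deriv (F d) z) (deriv Φ)
        (𝓝[>] (0 : ℝ)) W := by
    intro K hK hc
    obtain ⟨r, hr, h1, h2⟩ := exists_nbhd hU hK hc
    have hW : IsOpen (Metric.thickening r K) := Metric.isOpen_thickening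
    have hWU : Metric.thickening r K ⊆ Metric.cthickening r K :=
      Metric.thickening_subset_cthickening r K
    have hlu : TendstoLocallyUniformlyOn F Φ (𝓝[>] (0 : ℝ)) (Metric.thickening r K) :=
      ((h _ h1 h2).mono hWU).tendstoLocallyUniformlyOn
    have hd : ∀ᶠ d in 𝓝[>] (0 : ℝ), DifferentiableOn ℂ (F d) (Metric.thickening r K) := by
      filter_upwards [hF _ h1 h2] with d hd z hz
      exact (hd z (hWU hz)).differentiableWithinAt
    exact ⟨_, hW, Metric.self_subset_thickening hr K, hWU.trans h1,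
      hlu.differentiableOn hd hW, hlu.deriv hd hW⟩
  constructor
  · intro z hz
    obtain ⟨W, hW, h1, -, h2, -⟩ := key {z} (singleton_subset_iff.2 hz) isCompact_singleton
    exact ((h2 z (h1 rfl)).differentiableAt (hW.mem_nhds (h1 rfl))).differentiableWithinAt
  · intro K hK hc
    obtain ⟨W, hW, h1, h3, -, h2⟩ := key K hK hc
    exact (tendstoLocallyUniformlyOn_iff_forall_isCompact hW).1 h2 K h1 hc

theorem pow_tendsto (hp : 0 < p) : Tendsto (fun d : ℝ => (d : ℂ) ^ p) (𝓝[>] (0 : ℝ)) (𝓝 0) := by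
  have h1 : Tendsto (fun d : ℝ => (d : ℂ) ^ p) (𝓝 (0 : ℝ)) (𝓝 (((0 : ℝ) : ℂ) ^ p)) :=
    (Complex.continuous_ofReal.pow p).tendsto 0
  rw [Complex.ofReal_zero, zero_pow hp.ne'] at h1
  exact h1.mono_left nhdsWithin_le_nhds

theorem eventually_ne : ∀ᶠ d : ℝ in 𝓝[>] (0 : ℝ), (d : ℂ) ≠ 0 := by
  filter_upwards [self_mem_nhdsWithin] with d hd
  exact Complex.ofReal_ne_zero.2 (ne_of_gt hd)

/-- the limit of a family is holomorphic -/
theorem Fam.dif (hU : IsOpen U) (h : Fam U p f A) : DifferentiableOn ℂ A U :=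
  (h.lim.hol_deriv hU (h.hol.imp fun d z hz => (hz.sub differentiableAt_id).div_const _)).1

theorem Fam.deriv_lim (hU : IsOpen U) (h : Fam U p f A) :
    UC U (fun d z => deriv (fun w => (f d w - w) / (d : ℂ) ^ p) z) (deriv A) :=
  (h.lim.hol_deriv hU (h.hol.imp fun d z hz => (hz.sub differentiableAt_id).div_const _)).2

theorem Fam.mono (h : Fam U p f A) (hV : V ⊆ U) : Fam V p f A :=
  ⟨h.hol.mono hV, h.lim.mono hV⟩

/-- `f d z = z + d ^ p φ d z` -/
theorem fam_eq {d : ℝ} (hd : (d : ℂ) ≠ 0) (f : ℝ → ℂ → ℂ) (p : ℕ) (z : ℂ) :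
    f d z = z + (d : ℂ) ^ p * ((f d z - z) / (d : ℂ) ^ p) := by
  have : (d : ℂ) ^ p ≠ 0 := pow_ne_zero _ hd
  field_simp
  ring

/-- A family near the identity tends to the identity. -/
theorem Fam.id (hU : IsOpen U) (h : Fam U p f A) (hp : 0 < p) : UC U f fun z => z := by
  intro K hK hc
  obtain ⟨C, hC, -, hb⟩ := h.lim.bdd (h.dif hU).continuousOn hK hc
  rw [Metric.tendstoUniformlyOn_iff]
  intro ε hε
  have h1 : ∀ᶠ d : ℝ in 𝓝[>] (0 : ℝ), ‖(d : ℂ) ^ p‖ < ε / C := by
    have h2 := (pow_tendsto hp).norm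
    rw [norm_zero] at h2
    exact h2.eventually (gt_mem_nhds (by positivity))
  filter_upwards [hb, h1, eventually_ne] with d h2 h3 h4 z hz
  rw [dist_comm, dist_eq_norm]
  have e := fam_eq h4 f p z
  have e2 : f d z - z = (d : ℂ) ^ p * ((f d z - z) / (d : ℂ) ^ p) := by
    nth_rewrite 1 [e]
    ring
  rw [e2, norm_mul]
  calc ‖(d : ℂ) ^ p‖ * ‖(f d z - z) / (d : ℂ) ^ p‖ ≤ ‖(d : ℂ) ^ p‖ * C :=
        mul_le_mul_of_nonneg_left (h2 z hz) (norm_nonneg _)
    _ < ε / C * C := mul_lt_mul_of_pos_right h3 hC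
    _ = ε := by field_simp

theorem Fam.congr (h : Fam U p f A) (hU : IsOpen U) (e : EvC U fun d z => f d z = g d z) :
    Fam U p g A := by
  refine ⟨?_, h.lim.congr (e.imp fun d z hz => by rw [hz])⟩
  intro K hK hc
  obtain ⟨r, hr, h1, h2⟩ := exists_nbhd hU hK hc
  filter_upwards [h.hol K hK hc, e _ h1 h2] with d h3 h4 z hz
  have h5 : f d =ᶠ[𝓝 z] g d := by
    have : Metric.thickening r K ∈ 𝓝 z :=
      Metric.isOpen_thickening.mem_nhds (Metric.self_subset_thickening hr K hz)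
    filter_upwards [this] with w hw
    exact h4 w (Metric.thickening_subset_cthickening r K hw)
  exact (h3 z hz).congr_of_eventuallyEq h5.symm

theorem Fam.congr_field (h : Fam U p f A) (e : ∀ z ∈ U, A z = B z) : Fam U p f B :=
  ⟨h.hol, h.lim.congr_right e⟩

/-- Composition of families of the same order. -/
theorem Fam.comp (hU : IsOpen U) (hf : Fam U p f A) (hg : Fam U p g B) (hp : 0 < p) :
    Fam U p (fun d z => f d (g d z)) fun z => A z + B z := by
  have hgid := hg.id hU hp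
  refine ⟨?_, ?_⟩
  · intro K hK hc
    filter_upwards [hg.hol K hK hc, (hf.hol.comp hU hgid) K hK hc] with d h1 h2 z hz
    exact (h2 z hz).comp z (h1 z hz)
  · have h1 := hf.lim.comp hU (hf.dif hU).continuousOn hgid
    refine (h1.add hg.lim).congr ?_
    intro K _ _
    refine Eventually.of_forall fun d z _ => ?_
    ring

theorem Fam.const_id : Fam U p (fun _ z => z) fun _ => 0 := by
  refine ⟨fun K _ _ => Eventually.of_forall fun d z _ => differentiableAt_id, ?_⟩
  have h : UC U (fun _ _ => (0 : ℂ)) fun _ => 0 := UC.const _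
  refine h.congr fun K _ _ => Eventually.of_forall fun d z _ => ?_
  simp

end Pool.Agent.Lib.MP_95e7ec_an.Ww
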