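import Pool.Agent.Lib.MP_95e7ec_an.Ww.Fam1
import Pool.Agent.Lib.MP_95e7ec_an.Ww.Br

/-!
# The group commutator of two holomorphic families
-/

set_option autoImplicit false

open Filter Topology Set

namespace Pool.Agent.Lib.MP_95e7ec_an.Ww

/-- Difference quotients along a family near the identity. -/
theorem UC.diffq {U : Set ℂ} (hU : IsOpen U) {q : ℕ} {F k : ℝ → ℂ → ℂ} {Φ B : ℂ → ℂ}
    (h : UC U F Φ) (hF : EvC U fun d z => DifferentiableAt ℂ (F d) z) (hk : Fam U q k B)
    (hq : 0 < q) :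
    UC U (fun d z => (F d (k d z) - F d z) / (d : ℂ) ^ q) fun z => deriv Φ z * B z := by
  obtain ⟨hΦ, hder⟩ := h.hol_deriv hU hF
  have hΦ' : ContinuousOn (deriv Φ) U := (hΦ.deriv hU).continuousOn
  have c1 : UC U (fun d z => deriv Φ z * ((k d z - z) / (d : ℂ) ^ q))
      fun z => deriv Φ z * B z :=
    (UC.const (U := U) (deriv Φ)).mul hk.lim hΦ' (hk.dif hU).continuousOn
  have c2 : UC U (fun d z => (F d (k d z) - F d z) / (d : ℂ) ^ q -
      deriv Φ z * ((k d z - z) / (d : ℂ) ^ q)) fun _ => 0 := by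
    intro K hK hc
    rw [Metric.tendstoUniformlyOn_iff]
    intro ε hε
    obtain ⟨r, hr, h1, h2⟩ := exists_nbhd hU hK hc
    obtain ⟨C, hC, -, hb⟩ := hk.lim.bdd (hk.dif hU).continuousOn hK hc
    have huc : UniformContinuousOn (deriv Φ) (Metric.cthickening r K) :=
      h2.uniformContinuousOn_of_continuous (hΦ'.mono h1)
    have hη : 0 < ε / (4 * C) := by positivity
    obtain ⟨δ, hδ, hδ2⟩ := Metric.uniformContinuousOn_iff.1 huc (ε / (4 * C)) hη
    have hρ : 0 < min r δ := lt_min hr hδ
    filter_upwards [hF _ h1 h2, Metric.tendstoUniformlyOn_iff.1 (hder _ h1 h2) _ hη,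
      (hk.id hU hq).near_id hK hc hρ, hb, eventually_ne] with d e1 e2 e3 e4 e5 z hz
    have hsub : Metric.ball z (min r δ) ⊆ Metric.cthickening r K := by
      intro w hw
      refine Metric.mem_cthickening_of_dist_le w z _ _ hz ?_
      have := Metric.mem_ball.1 hw
      exact (this.trans_le (min_le_left _ _)).le
    have hzK : z ∈ Metric.cthickening r K := Metric.self_subset_cthickening K hz
    have hd : ∀ w ∈ Metric.ball z (min r δ),
        HasDerivAt (fun w => F d w - deriv Φ z * w) (deriv (F d) w - deriv Φ z) w := by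
      intro w hw
      have h5 : HasDerivAt (fun w : ℂ => deriv Φ z * w) (deriv Φ z * 1) w :=
        (hasDerivAt_id w).const_mul (deriv Φ z)
      rw [mul_one] at h5
      exact (e1 w (hsub hw)).hasDerivAt.sub h5
    have hm := Convex.norm_image_sub_le_of_norm_deriv_le (𝕜 := ℂ)
      (f := fun w => F d w - deriv Φ z * w) (s := Metric.ball z (min r δ)) (C := ε / (2 * C))
      (x := z) (y := k d z) (fun w hw => (hd w hw).differentiableAt) ?_
      (convex_ball z (min r δ)) (Metric.mem_ball_self hρ) ?_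
    · have hdq : (d : ℂ) ^ q ≠ 0 := pow_ne_zero _ e5
      have hn : 0 < ‖(d : ℂ) ^ q‖ := norm_pos_iff.2 hdq
      have e6 : (F d (k d z) - F d z) / (d : ℂ) ^ q - deriv Φ z * ((k d z - z) / (d : ℂ) ^ q) =
          ((F d (k d z) - deriv Φ z * k d z) - (F d z - deriv Φ z * z)) / (d : ℂ) ^ q := by
        field_simp
        ring
      rw [dist_comm, dist_zero_right, e6, norm_div]
      have e7 := e4 z hz
      rw [norm_div] at e7
      calc ‖(F d (k d z) - deriv Φ z * k d z) - (F d z - deriv Φ z * z)‖ / ‖(d : ℂ) ^ q‖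
          ≤ (ε / (2 * C) * ‖k d z - z‖) / ‖(d : ℂ) ^ q‖ := by
            exact div_le_div_of_nonneg_right hm hn.le
        _ = ε / (2 * C) * (‖k d z - z‖ / ‖(d : ℂ) ^ q‖) := by ring
        _ ≤ ε / (2 * C) * C := mul_le_mul_of_nonneg_left e7 (by positivity)
        _ = ε / 2 := by field_simp
        _ < ε := by linarith
    · intro w hw
      rw [(hd w hw).deriv]
      have a1 := e2 w (hsub hw)
      have a2 := hδ2 w (hsub hw) z hzK ((Metric.mem_ball.1 hw).trans_le (min_le_right _ _))
      rw [dist_comm, dist_eq_norm] at a1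
      rw [dist_eq_norm] at a2
      calc ‖deriv (F d) w - deriv Φ z‖ =
          ‖(deriv (F d) w - deriv Φ w) + (deriv Φ w - deriv Φ z)‖ := by ring_nf
        _ ≤ ‖deriv (F d) w - deriv Φ w‖ + ‖deriv Φ w - deriv Φ z‖ := norm_add_le _ _
        _ ≤ ε / (4 * C) + ε / (4 * C) := add_le_add a1.le a2.le
        _ = ε / (2 * C) := by ring
    · have := (e3 z hz).1
      rwa [dist_comm] at this
  refine ((c2.add c1).congr ?_).congr_right fun z _ => zero_add _
  intro K _ _
  exact Eventually.of_forall fun d z _ => by ring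

/-- The group commutator `f g f' g'` has the field `A' B - B' A` and the order `p + q`. -/
theorem Fam.comm {U : Set ℂ} (hU : IsOpen U) {p q : ℕ} (hp : 0 < p) (hq : 0 < q)
    {f f' g g' : ℝ → ℂ → ℂ} {A B A1 B1 : ℂ → ℂ} (hf : Fam U p f A) (hf' : Fam U p f' A1)
    (hg : Fam U q g B) (hg' : Fam U q g' B1)
    (hff : EvC U fun d z => f d (f' d z) = z) (hgg : EvC U fun d z => g d (g' d z) = z) :
    Fam U (p + q) (fun d z => f d (g d (f' d (g' d z)))) (br A B) := by
  have d1 := UC.diffq hU hf.lim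
    (hf.hol.imp fun d z hz => (hz.sub differentiableAt_id).div_const _) hg hq
  have d2 := UC.diffq hU hg.lim
    (hg.hol.imp fun d z hz => (hz.sub differentiableAt_id).div_const _) hf hp
  have hA := hf.dif hU
  have hB := hg.dif hU
  have hbr : ContinuousOn (br A B) U := by
    have h1 := ((hA.deriv hU).mul hB).sub ((hB.deriv hU).mul hA)
    exact h1.continuousOn
  have hE := d1.sub d2
  have hk : UC U (fun d z => f' d (g' d z)) fun z => z :=
    (hf'.id hU hp).comp hU continuousOn_id (hg'.id hU hq)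
  have hgk : UC U (fun d z => g d (f' d (g' d z))) fun z => z :=
    (hg.id hU hq).comp hU continuousOn_id hk
  have hEk := UC.comp hU hE hbr hk
  refine ⟨?_, hEk.congr ?_⟩
  · have a1 := hg'.hol
    have a2 := hf'.hol.comp hU (hg'.id hU hq)
    have a3 := hg.hol.comp hU hk
    have a4 := hf.hol.comp hU hgk
    refine ((a1.and a2).and (a3.and a4)).imp ?_
    rintro d z ⟨⟨b1, b2⟩, b3, b4⟩
    exact b4.comp z (b3.comp z (b2.comp z b1))
  · have a1 := hff.comp hU (hg'.id hU hq)
    intro K hK hc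
    filter_upwards [a1 K hK hc, hgg K hK hc, eventually_ne] with d b1 b2 b3 z hz
    have c1 : f d (f' d (g' d z)) = g' d z := b1 z hz
    have c2 : g d (g' d z) = z := b2 z hz
    have hdp : (d : ℂ) ^ p ≠ 0 := pow_ne_zero _ b3
    have hdq : (d : ℂ) ^ q ≠ 0 := pow_ne_zero _ b3
    rw [pow_add, c1, c2]
    field_simp
    ring

end Pool.Agent.Lib.MP_95e7ec_an.Ww
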