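import Pool.Agent.Lib.MP_95e7ec_an.Ww.WDefs
import Pool.Agent.Lib.MP_95e7ec_an.Ww.Fam1

/-!
# Conjugation of a family by a fixed map, letters, change of the parameter
-/

set_option autoImplicit false

open Filter Topology Set

namespace Pool.Agent.Lib.MP_95e7ec_an.Ww

variable {U V W : Set ℂ} {P : ℝ → ℂ → Prop} {F f : ℝ → ℂ → ℂ} {Φ A : ℂ → ℂ} {p : ℕ}

theorem EvC.fix {h : ℂ → ℂ} (hP : EvC V P) (hh : ContinuousOn h U) (hm : MapsTo h U V) :
    EvC U fun d z => P d (h z) := by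
  intro K hK hc
  have h1 : IsCompact (h '' K) := hc.image_of_continuousOn (hh.mono hK)
  have h2 : h '' K ⊆ V := by
    rintro _ ⟨z, hz, rfl⟩
    exact hm (hK hz)
  filter_upwards [hP _ h2 h1] with d hd z hz
  exact hd _ ⟨z, hz, rfl⟩

theorem UC.fix {h : ℂ → ℂ} (hF : UC V F Φ) (hh : ContinuousOn h U) (hm : MapsTo h U V) :
    UC U (fun d z => F d (h z)) fun z => Φ (h z) := by
  rw [UC_iff] at hF ⊢
  intro ε hε
  exact (hF ε hε).fix hh hm

/-- Differentiability is uniform on compact sets. -/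
theorem unif_diff (hW : IsOpen W) {h : ℂ → ℂ} (hh : DifferentiableOn ℂ h W) {K : Set ℂ}
    (hK : K ⊆ W) (hc : IsCompact K) {ε : ℝ} (hε : 0 < ε) : ∃ δ : ℝ, 0 < δ ∧ ∀ y ∈ K, ∀ v : ℂ,
      ‖v‖ < δ → ‖h (y + v) - h y - deriv h y * v‖ ≤ ε * ‖v‖ := by
  obtain ⟨r, hr, h1, h2⟩ := exists_nbhd hW hK hc
  have hd : ContinuousOn (deriv h) W := (hh.deriv hW).continuousOn
  obtain ⟨δ, hδ, h3⟩ := Metric.uniformContinuousOn_iff.1
    (h2.uniformContinuousOn_of_continuous (hd.mono h1)) ε hε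
  refine ⟨min r δ, lt_min hr hδ, fun y hy v hv => ?_⟩
  have hball : ∀ ζ ∈ Metric.ball y (min r δ), ζ ∈ Metric.cthickening r K := fun ζ hζ =>
    Metric.mem_cthickening_of_dist_le _ y _ _ hy
      ((Metric.mem_ball.1 hζ).le.trans (min_le_left _ _))
  have hg : ∀ ζ ∈ Metric.ball y (min r δ), HasDerivAt (fun ζ => h ζ - deriv h y * ζ)
      (deriv h ζ - deriv h y) ζ := by
    intro ζ hζ
    have e1 : HasDerivAt h (deriv h ζ) ζ :=
      (hh.differentiableAt (hW.mem_nhds (h1 (hball ζ hζ)))).hasDerivAt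
    have e2 : HasDerivAt (fun ζ : ℂ => deriv h y * ζ) (deriv h y) ζ := by
      simpa using (hasDerivAt_id ζ).const_mul (deriv h y)
    exact e1.sub e2
  have hb : ∀ ζ ∈ Metric.ball y (min r δ), ‖deriv h ζ - deriv h y‖ ≤ ε := by
    intro ζ hζ
    have := h3 ζ (hball ζ hζ) y (Metric.self_subset_cthickening K hy)
      ((Metric.mem_ball.1 hζ).trans_le (min_le_right _ _))
    rw [dist_eq_norm] at this
    exact this.le
  have hy0 : y ∈ Metric.ball y (min r δ) := Metric.mem_ball_self (lt_min hr hδ)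
  have hy1 : y + v ∈ Metric.ball y (min r δ) := by
    rw [Metric.mem_ball, dist_eq_norm]
    simpa using hv
  have := (convex_ball y (min r δ)).norm_image_sub_le_of_norm_hasDerivWithin_le
    (fun ζ hζ => (hg ζ hζ).hasDerivWithinAt) hb hy0 hy1
  have e : h (y + v) - deriv h y * (y + v) - (h y - deriv h y * y) =
      h (y + v) - h y - deriv h y * v := by ring
  rw [e] at this
  simpa using this

/-- Conjugation by a fixed holomorphic map `h` with the local inverse `h'`. -/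
theorem Fam.conj (hV : IsOpen V) (hW : IsOpen W) {h h' : ℂ → ℂ}
    (h1 : DifferentiableOn ℂ h U) (hU : IsOpen U) (h2 : DifferentiableOn ℂ h' W)
    (hmV : MapsTo h U V) (hmW : MapsTo h U W) (hinv : ∀ z ∈ U, h' (h z) = z) (hp : 0 < p)
    (hf : Fam V p f A) :
    (EvC U fun d z => f d (h z) ∈ W) ∧
      Fam U p (fun d z => h' (f d (h z))) fun z => deriv h' (h z) * A (h z) := by
  have hc1 : ContinuousOn h U := h1.continuousOn
  have hid : UC U (fun d z => f d (h z)) fun z => h z := (hf.id hV hp).fix hc1 hmV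
  have hmem : EvC U fun d z => f d (h z) ∈ W := by
    intro K hK hc
    have hK1 : IsCompact (h '' K) := hc.image_of_continuousOn (hc1.mono hK)
    have hK2 : h '' K ⊆ W := by
      rintro _ ⟨z, hz, rfl⟩
      exact hmW (hK hz)
    obtain ⟨r, hr, e1, e2⟩ := exists_nbhd hW hK2 hK1
    filter_upwards [Metric.tendstoUniformlyOn_iff.1 (hid K hK hc) r hr] with d hd z hz
    refine e1 (Metric.mem_cthickening_of_dist_le _ (h z) _ _ ⟨z, hz, rfl⟩ ?_)
    rw [dist_comm]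
    exact (hd z hz).le
  refine ⟨hmem, ?_, ?_⟩
  · intro K hK hc
    filter_upwards [hmem K hK hc, (hf.hol.fix hc1 hmV) K hK hc] with d e1 e2 z hz
    have e3 : DifferentiableAt ℂ h z := h1.differentiableAt (hU.mem_nhds (hK hz))
    have e4 : DifferentiableAt ℂ h' (f d (h z)) := h2.differentiableAt (hW.mem_nhds (e1 z hz))
    exact e4.comp z ((e2 z hz).comp z e3)
  · intro K hK hc
    have hK1 : IsCompact (h '' K) := hc.image_of_continuousOn (hc1.mono hK)
    have hK2 : h '' K ⊆ W := by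
      rintro _ ⟨z, hz, rfl⟩
      exact hmW (hK hz)
    have hK3 : h '' K ⊆ V := by
      rintro _ ⟨z, hz, rfl⟩
      exact hmV (hK hz)
    obtain ⟨C, hC, b1, b2⟩ := hf.lim.bdd (hf.dif hV).continuousOn hK3 hK1
    obtain ⟨D, hD⟩ := hK1.exists_bound_of_continuousOn
      ((h2.deriv hW).continuousOn.mono hK2)
    have hD0 : 0 < |D| + 1 := by positivity
    rw [Metric.tendstoUniformlyOn_iff]
    intro ε hε
    obtain ⟨δ, hδ, hu⟩ := unif_diff hW h2 hK2 hK1 (show 0 < ε / (2 * C) by positivity)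
    have s1 := Metric.tendstoUniformlyOn_iff.1 (hf.lim _ hK3 hK1) (ε / (2 * (|D| + 1)))
      (by positivity)
    have s2 := Metric.tendstoUniformlyOn_iff.1 ((hf.id hV hp) _ hK3 hK1) δ hδ
    filter_upwards [b2, s1, s2, eventually_ne] with d c1 c2 c3 c4 z hz
    have hy : h z ∈ h '' K := ⟨z, hz, rfl⟩
    set y := h z with hyd
    have a1 := c1 y hy
    have a2 := c2 y hy
    have a3 := c3 y hy
    set φ : ℂ := (f d y - y) / (d : ℂ) ^ p with hφ
    have hdp : (d : ℂ) ^ p ≠ 0 := pow_ne_zero _ c4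
    have e1 : f d y = y + (d : ℂ) ^ p * φ := fam_eq c4 f p y
    have e2 : ‖(d : ℂ) ^ p * φ‖ < δ := by
      rw [dist_comm, dist_eq_norm, e1] at a3
      simpa using a3
    have e3 := hu y hy _ e2
    rw [← e1, hinv z (hK hz)] at e3
    have e4 : deriv h' y * A y - (h' (f d y) - z) / (d : ℂ) ^ p =
        deriv h' y * (A y - φ) - (h' (f d y) - z - deriv h' y * ((d : ℂ) ^ p * φ)) /
          (d : ℂ) ^ p := by
      field_simp
      ring
    rw [dist_eq_norm] at a2 ⊢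
    rw [e4]
    have e5 : ‖(h' (f d y) - z - deriv h' y * ((d : ℂ) ^ p * φ)) / (d : ℂ) ^ p‖ ≤
        ε / (2 * C) * C := by
      rw [norm_div, div_le_iff₀ (norm_pos_iff.2 hdp)]
      refine e3.trans ?_
      rw [norm_mul]
      have : ε / (2 * C) * (‖(d : ℂ) ^ p‖ * ‖φ‖) ≤ ε / (2 * C) * (‖(d : ℂ) ^ p‖ * C) := by
        gcongr
      refine this.trans (le_of_eq (by ring))
    have e6 : ‖deriv h' y * (A y - φ)‖ ≤ (|D| + 1) * ‖A y - φ‖ := by
      rw [norm_mul]
      refine mul_le_mul_of_nonneg_right ?_ (norm_nonneg _)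
      have := hD y hy
      have := le_abs_self D
      linarith
    have e7 : (|D| + 1) * ‖A y - φ‖ < (|D| + 1) * (ε / (2 * (|D| + 1))) :=
      mul_lt_mul_of_pos_left a2 hD0
    have e8 : (|D| + 1) * (ε / (2 * (|D| + 1))) = ε / 2 := by field_simp
    have e9 : ε / (2 * C) * C = ε / 2 := by field_simp
    calc ‖deriv h' y * (A y - φ) - (h' (f d y) - z - deriv h' y * ((d : ℂ) ^ p * φ)) /
          (d : ℂ) ^ p‖ ≤ _ + _ := norm_sub_le _ _
      _ < ε := by linarith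

/-- the family of one letter -/
theorem fam_letter {μ : ℝ} (hμ : 0 < μ) (a : ℝ) :
    (EvC univ fun d z => Cok [(μ, μ * a * d)] z) ∧
      Fam univ 1 (fun d => clt (μ, μ * a * d)) fun z => (a : ℂ) * Complex.exp (-(μ : ℂ) * z) := by
  have key : ∀ K : Set ℂ, IsCompact K → ∃ M : ℝ, 0 < M ∧ ∀ z ∈ K,
      ‖Complex.exp (-(μ : ℂ) * z)‖ ≤ M := by
    intro K hc
    obtain ⟨M, hM⟩ := hc.exists_bound_of_continuousOn
      (f := fun z : ℂ => Complex.exp (-(μ : ℂ) * z)) (by fun_prop)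
    refine ⟨|M| + 1, by positivity, fun z hz => ?_⟩
    have := hM z hz
    have := le_abs_self M
    linarith
  have small : ∀ M : ℝ, 0 < M → ∀ᶠ d in 𝓝[>] (0 : ℝ), μ * |a| * d * M < 1 / 2 := by
    intro M hM
    have h1 : Tendsto (fun d : ℝ => μ * |a| * d * M) (𝓝[>] 0) (𝓝 (μ * |a| * 0 * M)) :=
      (Continuous.tendsto (by fun_prop) 0).mono_left nhdsWithin_le_nhds
    rw [mul_zero, zero_mul] at h1
    exact h1.eventually (gt_mem_nhds (by norm_num))
  have hnorm : ∀ d : ℝ, 0 < d → ∀ M : ℝ, ∀ z : ℂ, ‖Complex.exp (-(μ : ℂ) * z)‖ ≤ M →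
      ‖((μ * a * d : ℝ) : ℂ) * Complex.exp (-(μ : ℂ) * z)‖ ≤ μ * |a| * d * M := by
    intro d hd M z hz
    rw [norm_mul, Complex.norm_real, Real.norm_eq_abs, abs_mul, abs_mul, abs_of_pos hμ,
      abs_of_pos hd]
    exact mul_le_mul_of_nonneg_left hz (by positivity)
  have hslit : EvC univ fun d z =>
      1 + ((μ * a * d : ℝ) : ℂ) * Complex.exp (-(μ : ℂ) * z) ∈ Complex.slitPlane := by
    intro K _ hc
    obtain ⟨M, hM, hb⟩ := key K hc
    filter_upwards [small M hM, self_mem_nhdsWithin] with d h1 h2 z hz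
    refine Complex.mem_slitPlane_of_norm_lt_one ?_
    have := hnorm d h2 M z (hb z hz)
    linarith
  refine ⟨hslit.imp fun d z hz => ⟨hz, trivial⟩, ?_, ?_⟩
  · exact hslit.imp fun d z hz => clt_differentiableAt hz
  · intro K _ hc
    obtain ⟨M, hM, hb⟩ := key K hc
    rw [Metric.tendstoUniformlyOn_iff]
    intro ε hε
    have h0 : ∀ᶠ d in 𝓝[>] (0 : ℝ), 1 / μ * (μ * |a| * M) ^ 2 * d < ε := by
      have h1 : Tendsto (fun d : ℝ => 1 / μ * (μ * |a| * M) ^ 2 * d) (𝓝[>] 0)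
          (𝓝 (1 / μ * (μ * |a| * M) ^ 2 * 0)) :=
        (Continuous.tendsto (by fun_prop) 0).mono_left nhdsWithin_le_nhds
      rw [mul_zero] at h1
      exact h1.eventually (gt_mem_nhds hε)
    filter_upwards [small M hM, self_mem_nhdsWithin, h0] with d h1 h2 h3 z hz
    have h2' : 0 < d := h2
    have hdc : (d : ℂ) ≠ 0 := Complex.ofReal_ne_zero.2 h2'.ne'
    have hμc : (μ : ℂ) ≠ 0 := Complex.ofReal_ne_zero.2 hμ.ne'
    set v : ℂ := ((μ * a * d : ℝ) : ℂ) * Complex.exp (-(μ : ℂ) * z) with hv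
    have hvn : ‖v‖ ≤ μ * |a| * d * M := hnorm d h2' M z (hb z hz)
    have hv1 : ‖v‖ < 1 := by linarith
    have e1 : (clt (μ, μ * a * d) z - z) / (d : ℂ) ^ 1 - (a : ℂ) * Complex.exp (-(μ : ℂ) * z) =
        (1 / ((μ : ℂ) * d)) * (Complex.log (1 + v) - v) := by
      rw [clt]
      simp only
      rw [← hv]
      have : (a : ℂ) * Complex.exp (-(μ : ℂ) * z) = (1 / ((μ : ℂ) * d)) * v := by
        rw [hv]
        push_cast
        field_simp
      rw [this]
      field_simp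
      ring
    rw [dist_comm, dist_eq_norm, e1, norm_mul]
    have e2 := Complex.norm_log_one_add_sub_self_le hv1
    have e3 : (1 - ‖v‖)⁻¹ / 2 ≤ 1 := by
      have : (1 - ‖v‖)⁻¹ ≤ 2 := by
        rw [inv_le_comm₀ (by linarith) (by norm_num)]
        linarith
      linarith
    have e4 : ‖Complex.log (1 + v) - v‖ ≤ (μ * |a| * d * M) ^ 2 := by
      calc ‖Complex.log (1 + v) - v‖ ≤ ‖v‖ ^ 2 * (1 - ‖v‖)⁻¹ / 2 := e2
        _ = ‖v‖ ^ 2 * ((1 - ‖v‖)⁻¹ / 2) := by ring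
        _ ≤ ‖v‖ ^ 2 * 1 := mul_le_mul_of_nonneg_left e3 (by positivity)
        _ = ‖v‖ ^ 2 := mul_one _
        _ ≤ _ := pow_le_pow_left₀ (norm_nonneg _) hvn 2
    have e5 : ‖1 / ((μ : ℂ) * d)‖ = 1 / (μ * d) := by
      rw [norm_div, norm_one, norm_mul, Complex.norm_real, Complex.norm_real, Real.norm_eq_abs,
        Real.norm_eq_abs, abs_of_pos hμ, abs_of_pos h2']
    rw [e5]
    calc 1 / (μ * d) * ‖Complex.log (1 + v) - v‖ ≤ 1 / (μ * d) * (μ * |a| * d * M) ^ 2 :=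
          mul_le_mul_of_nonneg_left e4 (by positivity)
      _ = 1 / μ * (μ * |a| * M) ^ 2 * d := by field_simp
      _ < ε := h3

/-- change of the parameter -/
theorem EvC.repar {δ : ℝ → ℝ} (hδ : Tendsto δ (𝓝[>] 0) (𝓝[>] 0)) (h : EvC U P) :
    EvC U fun d z => P (δ d) z := fun K hK hc => hδ.eventually (h K hK hc)

theorem UC.repar {δ : ℝ → ℝ} (hδ : Tendsto δ (𝓝[>] 0) (𝓝[>] 0)) (h : UC U F Φ) :
    UC U (fun d z => F (δ d) z) Φ := by
  rw [UC_iff] at h ⊢
  exact fun ε hε => (h ε hε).repar hδ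

theorem tendsto_root (hp : 0 < p) :
    Tendsto (fun d : ℝ => d ^ (1 / (p : ℝ))) (𝓝[>] 0) (𝓝[>] 0) := by
  have hp' : (0 : ℝ) < 1 / p := by positivity
  refine tendsto_nhdsWithin_iff.2 ⟨?_, ?_⟩
  · have h1 : Tendsto (fun d : ℝ => d ^ (1 / (p : ℝ))) (𝓝 0) (𝓝 ((0 : ℝ) ^ (1 / (p : ℝ)))) :=
      (Real.continuousAt_rpow_const 0 _ (Or.inr hp'.le)).tendsto
    rw [Real.zero_rpow hp'.ne'] at h1
    exact h1.mono_left nhdsWithin_le_nhds
  · filter_upwards [self_mem_nhdsWithin] with d hd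
    exact Real.rpow_pos_of_pos hd _

theorem Fam.root (hp : 0 < p) (h : Fam U p f A) :
    Fam U 1 (fun d => f (d ^ (1 / (p : ℝ)))) A := by
  refine ⟨h.hol.repar (tendsto_root hp), (h.lim.repar (tendsto_root hp)).congr ?_⟩
  intro K _ _
  filter_upwards [self_mem_nhdsWithin] with d hd z _
  have hd' : (0 : ℝ) ≤ d := le_of_lt hd
  have : ((d ^ (1 / (p : ℝ)) : ℝ) : ℂ) ^ p = (d : ℂ) ^ 1 := by
    rw [← Complex.ofReal_pow, ← Real.rpow_natCast, ← Real.rpow_mul hd', pow_one]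
    congr 1
    rw [one_div_mul_cancel (by positivity), Real.rpow_one]
  rw [this]

theorem tendsto_scale {c : ℝ} (hc : 0 < c) : Tendsto (fun d : ℝ => c * d) (𝓝[>] 0) (𝓝[>] 0) := by
  refine tendsto_nhdsWithin_iff.2 ⟨?_, ?_⟩
  · have h1 : Tendsto (fun d : ℝ => c * d) (𝓝 0) (𝓝 (c * 0)) :=
      Continuous.tendsto (by fun_prop) 0
    rw [mul_zero] at h1
    exact h1.mono_left nhdsWithin_le_nhds
  · filter_upwards [self_mem_nhdsWithin] with d hd
    exact mul_pos hc hd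

theorem Fam.scale (hU : IsOpen U) {c : ℝ} (hc : 0 < c) (h : Fam U p f A) :
    Fam U p (fun d => f (c * d)) fun z => (c : ℂ) ^ p * A z := by
  refine ⟨h.hol.repar (tendsto_scale hc), ?_⟩
  have h1 := (UC.const (U := U) fun _ => (c : ℂ) ^ p).mul (h.lim.repar (tendsto_scale hc))
    continuousOn_const (h.dif hU).continuousOn
  refine h1.congr ?_
  intro K _ _
  filter_upwards [eventually_ne] with d hd z _
  have hcc : (c : ℂ) ≠ 0 := Complex.ofReal_ne_zero.2 hc.ne'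
  push_cast
  rw [mul_pow]
  field_simp

end Pool.Agent.Lib.MP_95e7ec_an.Ww
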