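import Pool.Agent.Lib.MP_95e7ec_an.Ww.Rea

/-!
# Alternating fields realized by words
-/

set_option autoImplicit false

open Filter Topology Set

namespace Pool.Agent.Lib.MP_95e7ec_an.Ww

/-- A field whose real part alternates `N` times along a real interval is realized, with order 1,
by a family of words of length `m`. -/
def Alt (m N : ℕ) : Prop :=
  ∃ (U : Set ℂ) (A : ℂ → ℂ) (s : ℕ → ℝ), IsOpen U ∧ Rea U 1 m A ∧ (∀ i < N, s i < s (i + 1)) ∧
    (∀ x : ℝ, s 0 ≤ x → x ≤ s N → (x : ℂ) ∈ U) ∧ ∀ i ≤ N, 0 < (-1) ^ i * (A (s i)).re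

end Pool.Agent.Lib.MP_95e7ec_an.Ww
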