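import Mathlib

/-!
Laps: a continuous function `F` with alternating signs at `s 0 < ... < s N` takes on each of the `N` intervals
all the values `- c e`, `e = 0, ..., E`, `c = 2 log B / (κ σ)` small. The points are listed in increasing order,
`e` is the zigzag `0, 1, ..., E, E - 1, ..., 0, 1, ...`; consecutive laps share their common value.
-/

namespace Pool.Agent.Lib.MP_95e7ec_an.Ww

open Set

/-- Decreasing values, in increasing order of the points. -/
theorem lap_down {F : ℝ → ℝ} {a b : ℝ} (hab : a < b) (hF : ContinuousOn F (Icc a b)) {v : ℕ → ℝ}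
    (hv : ∀ k, v (k + 1) < v k) (ha : v 0 < F a) (n : ℕ) (hb : F b < v n) :
    ∃ t : ℕ → ℝ, (∀ k < n, t k < t (k + 1)) ∧ ∀ k ≤ n, a < t k ∧ t k < b ∧ F (t k) = v k := by
  induction n with
  | zero =>
    obtain ⟨x, hx, hxv⟩ := intermediate_value_Ioo' hab.le hF ⟨hb, ha⟩
    refine ⟨fun _ => x, fun k hk => absurd hk (Nat.not_lt_zero k), fun k hk => ?_⟩
    have hk0 : k = 0 := Nat.le_zero.1 hk
    rw [hk0]
    exact ⟨hx.1, hx.2, hxv⟩
  | succ n ih =>
    obtain ⟨t, ht1, ht2⟩ := ih (hb.trans (hv n))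
    obtain ⟨h1, h2, h3⟩ := ht2 n le_rfl
    obtain ⟨x, hx, hxv⟩ := intermediate_value_Ioo' h2.le
      (hF.mono (Icc_subset_Icc_left h1.le)) ⟨hb, by rw [h3]; exact hv n⟩
    refine ⟨fun k => if k ≤ n then t k else x, fun k hk => ?_, fun k hk => ?_⟩
    · rcases Nat.lt_or_ge k n with h | h
      · simp only [if_pos h.le, if_pos (Nat.succ_le_iff.2 h)]
        exact ht1 k h
      · have hkn : k = n := le_antisymm (Nat.lt_succ_iff.1 hk) h
        rw [hkn]
        simp only [if_pos le_rfl, if_neg (Nat.not_succ_le_self n)]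
        exact hx.1
    · rcases Nat.lt_or_ge n k with h | h
      · have hkn : k = n + 1 := le_antisymm hk h
        rw [hkn]
        simp only [if_neg (Nat.not_succ_le_self n)]
        exact ⟨h1.trans hx.1, hx.2, hxv⟩
      · simp only [if_pos h]
        exact ht2 k h

/-- One lap. -/
theorem lap_block {F : ℝ → ℝ} {a b : ℝ} (hab : a < b) (hF : ContinuousOn F (Icc a b)) {c : ℝ}
    (hc : 0 < c) (E n : ℕ) (ha : c * E < (-1) ^ n * F a) (hb : c * E < (-1) ^ (n + 1) * F b) :
    ∃ (t : ℕ → ℝ) (e : ℕ → ℕ), (∀ k < E, t k < t (k + 1)) ∧ ∀ k ≤ E, a < t k ∧ t k < b ∧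
      e k ≤ E ∧ (-1 : ℝ) ^ (e k) = (-1) ^ (E * n + k) ∧ F (t k) = -(c * e k) := by
  have hE : 0 ≤ c * (E : ℝ) := mul_nonneg hc.le (Nat.cast_nonneg E)
  rcases Nat.even_or_odd n with hn | hn
  · rw [hn.neg_one_pow, one_mul] at ha
    rw [hn.add_one.neg_one_pow] at hb
    obtain ⟨t, ht1, ht2⟩ := lap_down hab hF (v := fun k => -(c * k)) (fun k => by
      push_cast
      linarith) (by simpa using hE.trans_lt ha) E (by linarith)
    refine ⟨t, fun k => k, ht1, fun k hk => ?_⟩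
    obtain ⟨h1, h2, h3⟩ := ht2 k hk
    refine ⟨h1, h2, hk, ?_, h3⟩
    rw [pow_add, (hn.mul_left E).neg_one_pow, one_mul]
  · rw [hn.neg_one_pow] at ha
    rw [hn.add_one.neg_one_pow, one_mul] at hb
    obtain ⟨t, ht1, ht2⟩ := lap_down (F := fun x => -F x) hab hF.neg
      (v := fun k => c * ((E : ℝ) - k)) (fun k => by
        push_cast
        nlinarith) (by simp only [Nat.cast_zero, sub_zero]; linarith) E (by
        simp only [sub_self, mul_zero]
        linarith)
    refine ⟨t, fun k => E - k, ht1, fun k hk => ?_⟩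
    obtain ⟨h1, h2, h3⟩ := ht2 k hk
    refine ⟨h1, h2, Nat.sub_le E k, ?_, ?_⟩
    · obtain ⟨m, hm⟩ := Nat.exists_eq_add_of_le hk
      obtain ⟨r, hr⟩ := hn
      have h4 : E - k = m := by omega
      have h5 : E * n + k = m + 2 * (r * E + k) := by
        rw [hr, hm]
        ring
      dsimp only
      rw [h4, h5, pow_add, pow_mul, neg_one_sq, one_pow, mul_one]
    · rw [Nat.cast_sub hk]
      linarith

/-- The laps, with the values `- c e`. -/
theorem laps_aux {N E : ℕ} {F : ℝ → ℝ} {s : ℕ → ℝ} (hs : ∀ i < N, s i < s (i + 1))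
    (hF : ContinuousOn F (Icc (s 0) (s N))) {c : ℝ} (hc : 0 < c)
    (hsgn : ∀ i ≤ N, c * E < (-1) ^ i * F (s i)) (n : ℕ) (hn : n + 1 ≤ N) :
    ∃ (t : ℕ → ℝ) (e : ℕ → ℕ), (∀ q < E * (n + 1), t q < t (q + 1)) ∧ ∀ q ≤ E * (n + 1),
      s 0 < t q ∧ t q < s (n + 1) ∧ e q ≤ E ∧ (-1 : ℝ) ^ (e q) = (-1) ^ q ∧
        F (t q) = -(c * e q) := by
  have hmono : ∀ i j, i ≤ j → j ≤ N → s i ≤ s j := by
    intro i j hij
    induction j, hij using Nat.le_induction with
    | base => exact fun _ => le_rfl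
    | succ j hij ih => exact fun hj => (ih (by omega)).trans (hs j (by omega)).le
  have hblock : ∀ i, i + 1 ≤ N → ∃ (t : ℕ → ℝ) (e : ℕ → ℕ), (∀ k < E, t k < t (k + 1)) ∧
      ∀ k ≤ E, s i < t k ∧ t k < s (i + 1) ∧
      e k ≤ E ∧ (-1 : ℝ) ^ (e k) = (-1) ^ (E * i + k) ∧ F (t k) = -(c * e k) := fun i hi =>
    lap_block (hs i (by omega)) (hF.mono (Icc_subset_Icc (hmono 0 i (Nat.zero_le i) (by omega))
      (hmono (i + 1) N hi le_rfl))) hc E i (hsgn i (by omega)) (hsgn (i + 1) hi)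
  induction n with
  | zero =>
    obtain ⟨t, e, h1, h2⟩ := hblock 0 hn
    refine ⟨t, e, fun q hq => h1 q (by simpa using hq), fun q hq => ?_⟩
    have h3 := h2 q (by simpa using hq)
    simp only [mul_zero, zero_add] at h3 ⊢
    exact h3
  | succ n ih =>
    obtain ⟨t, e, h1, h2⟩ := ih (by omega)
    obtain ⟨t', e', h3, h4⟩ := hblock (n + 1) hn
    refine ⟨fun q => if q ≤ E * (n + 1) then t q else t' (q - E * (n + 1)),
      fun q => if q ≤ E * (n + 1) then e q else e' (q - E * (n + 1)), fun q hq => ?_,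
      fun q hq => ?_⟩
    · have hq' : q < E * (n + 1) + E := by
        rw [← Nat.mul_succ]
        exact hq
      rcases Nat.lt_or_ge q (E * (n + 1)) with h | h
      · simp only [if_pos h.le, if_pos (Nat.succ_le_iff.2 h)]
        exact h1 q h
      · rcases Nat.lt_or_ge (E * (n + 1)) q with h5 | h5
        · simp only [if_neg (not_le.2 h5), if_neg (not_le.2 (Nat.lt_succ_of_lt h5))]
          obtain ⟨m, hm⟩ := Nat.exists_eq_add_of_le h
          have h6 : q - E * (n + 1) = m := by omega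
          have h7 : q + 1 - E * (n + 1) = m + 1 := by omega
          rw [h6, h7]
          exact h3 m (by omega)
        · have h6 : q = E * (n + 1) := le_antisymm h5 h
          rw [h6]
          simp only [if_pos le_rfl, if_neg (Nat.not_succ_le_self (E * (n + 1)))]
          have h7 : E * (n + 1) + 1 - E * (n + 1) = 1 := by omega
          rw [h7]
          exact (h2 _ le_rfl).2.1.trans (h4 1 (by omega)).1
    · have hq' : q ≤ E * (n + 1) + E := by
        rw [← Nat.mul_succ]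
        exact hq
      rcases Nat.lt_or_ge (E * (n + 1)) q with h | h
      · simp only [if_neg (not_le.2 h)]
        obtain ⟨m, hm⟩ := Nat.exists_eq_add_of_le h.le
        have h6 : q - E * (n + 1) = m := by omega
        rw [h6]
        obtain ⟨h7, h8, h9, h10, h11⟩ := h4 m (by omega)
        refine ⟨(hmono 0 (n + 1) (Nat.zero_le _) (by omega)).trans_lt h7, h8, h9, ?_, h11⟩
        rw [h10, hm]
      · simp only [if_pos h]
        obtain ⟨h7, h8, h9, h10, h11⟩ := h2 q h
        exact ⟨h7, h8.trans (hs (n + 1) (by omega)), h9, h10, h11⟩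

/-- **Laps.** For `σ` large there are `(K ^ 2 - 1) N + 1` points in increasing order at which
`Y = exp (- κ σ F)` has the values `B ^ (2 e)`, `e = 0, ..., K ^ 2 - 1` in zigzag order. -/
theorem laps {N K : ℕ} (hN : 1 ≤ N) (hK : 1 ≤ K) {B kap : ℝ} (hB : 1 < B) (hk : 0 < kap)
    {F : ℝ → ℝ} {s : ℕ → ℝ} (hs : ∀ i < N, s i < s (i + 1))
    (hF : ContinuousOn F (Icc (s 0) (s N))) (hsgn : ∀ i ≤ N, 0 < (-1) ^ i * F (s i)) :
    ∃ sig0 : ℝ, 0 < sig0 ∧ ∀ sig : ℝ, sig0 ≤ sig → ∃ (t : ℕ → ℝ) (e : ℕ → ℕ),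
      (∀ q < (K ^ 2 - 1) * N, t q < t (q + 1)) ∧ ∀ q ≤ (K ^ 2 - 1) * N,
        s 0 < t q ∧ t q < s N ∧ e q < K ^ 2 ∧ (-1 : ℝ) ^ (e q) = (-1) ^ q ∧
          Real.exp (-(kap * sig * F (t q))) = B ^ (2 * e q) := by
  obtain ⟨E, hE⟩ : ∃ E, E = K ^ 2 - 1 := ⟨_, rfl⟩
  have hK2 : 1 ≤ K ^ 2 := Nat.one_le_pow _ _ hK
  have hlog : 0 < Real.log B := Real.log_pos hB
  -- a lower bound of the absolute values
  obtain ⟨r, hr, hrs⟩ : ∃ r : ℝ, 0 < r ∧ ∀ i ≤ N, r < (-1) ^ i * F (s i) := by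
    have h1 : ∀ n ≤ N, ∃ r : ℝ, 0 < r ∧ ∀ i ≤ n, r < (-1) ^ i * F (s i) := by
      intro n
      induction n with
      | zero =>
        intro _
        refine ⟨(-1) ^ 0 * F (s 0) / 2, half_pos (hsgn 0 (Nat.zero_le N)), fun i hi => ?_⟩
        rw [Nat.le_zero.1 hi]
        exact half_lt_self (hsgn 0 (Nat.zero_le N))
      | succ n ih =>
        intro hn
        obtain ⟨r, hr, h2⟩ := ih (by omega)
        have h3 := hsgn (n + 1) hn
        refine ⟨min r ((-1) ^ (n + 1) * F (s (n + 1)) / 2), lt_min hr (half_pos h3),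
          fun i hi => ?_⟩
        rcases Nat.lt_or_ge n i with h4 | h4
        · rw [le_antisymm hi h4]
          exact (min_le_right _ _).trans_lt (half_lt_self h3)
        · exact (min_le_left _ _).trans_lt (h2 i h4)
    exact h1 N le_rfl
  have hEp : (0 : ℝ) < (E : ℝ) + 1 := by positivity
  refine ⟨2 * Real.log B * (E + 1) / (kap * r), by positivity, fun sig hsig => ?_⟩
  have hsp : 0 < sig := lt_of_lt_of_le (by positivity) hsig
  obtain ⟨c, hc⟩ : ∃ c, c = 2 * Real.log B / (kap * sig) := ⟨_, rfl⟩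
  have hcp : 0 < c := by
    rw [hc]
    positivity
  have hcE : c * E < r := by
    rw [div_le_iff₀ (by positivity)] at hsig
    have h1 : c * (kap * sig) = 2 * Real.log B := by
      rw [hc, div_mul_cancel₀]
      positivity
    have h2 : c * (E + 1) * (kap * sig) ≤ r * (kap * sig) := by nlinarith
    have h3 : c * (E + 1) ≤ r := le_of_mul_le_mul_right h2 (by positivity)
    nlinarith
  obtain ⟨n, rfl⟩ : ∃ n, N = n + 1 := ⟨N - 1, by omega⟩
  obtain ⟨t, e, h1, h2⟩ := laps_aux (E := E) hs hF hcp (fun i hi => hcE.trans (hrs i hi)) n le_rfl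
  rw [← hE]
  refine ⟨t, e, h1, fun q hq => ?_⟩
  obtain ⟨h3, h4, h5, h6, h7⟩ := h2 q hq
  refine ⟨h3, h4, by omega, h6, ?_⟩
  have h8 : -(kap * sig * F (t q)) = ((2 * e q : ℕ) : ℝ) * Real.log B := by
    rw [h7, hc]
    push_cast
    field_simp
  rw [h8, Real.exp_nat_mul, Real.exp_log (by linarith)]

end Pool.Agent.Lib.MP_95e7ec_an.Ww
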