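import Mathlib
import Pool.Agent.Lib.MP_95e7ec_an.Ww.AsyL
import Pool.Agent.Lib.MP_95e7ec_an.Ww.Gadget

/-!
# The field of the gadget and its signs
-/

set_option autoImplicit false

open Filter Topology Finset

namespace Pool.Agent.Lib.MP_95e7ec_an.Ww

open AsyL

/-- The field of the product of the nested commutators. -/
noncomputable def nf (K : ℕ) (a b c : ℕ → ℕ → ℝ) (e : ℝ) (g₁ g₂ : ℂ → ℂ) (z : ℂ) : ℂ :=
  ∑ l ∈ range (2 * K - 1),
    br (br (fun w => ∑ i ∈ range K, (a l i : ℂ) * st (mA K i) e g₁ w)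
      (fun w => ∑ j ∈ range K, (b l j : ℂ) * st (mB K j) e g₂ w))
      (fun w => ∑ k ∈ range (2 * K - 1), (c l k : ℂ) *
        Complex.exp (-((mC K k / e : ℝ) * w))) z

/-- The limit of the normalised field. -/
theorem nf_lim {K : ℕ} (hK : 1 ≤ K) {a b c : ℕ → ℕ → ℝ} {alpha beta gamma : ℕ → ℝ}
    (habc : ∀ i < K, ∀ j < K, ∀ k < 2 * K - 1,
      ∑ l ∈ range (2 * K - 1), a l i * b l j * c l k =
        if i + j + k + 2 = 2 * K then alpha i * beta j * gamma k else 0)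
    {U : Set ℂ} (hU : IsOpen U) {g₁ g₂ : ℝ → ℂ → ℂ} {H₁ H₂ : ℂ → ℂ}
    (h₁ : Loc U (fun e z => (g₁ e z - z) / e) H₁) (h₂ : Loc U (fun e z => (g₂ e z - z) / e) H₂)
    {z : ℂ} (hz : z ∈ U) :
    Tendsto (fun e : ℝ => (e : ℂ) ^ 2 *
        (Complex.exp (((8 + (2 * K - 2) / (4 * K)) / e : ℝ) * z) *
          nf K a b c e (g₁ e) (g₂ e) z)) (𝓝[>] (0 : ℝ))
      (𝓝 (∑ i ∈ range K, ∑ j ∈ range K,
        ((alpha i * beta j * gamma (2 * K - 2 - i - j) : ℝ) : ℂ) * ((wt K i j : ℂ) *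
          Complex.exp (-(mA K i * H₁ z + mB K j * H₂ z))))) := by
  have hlim : Tendsto (fun e : ℝ => ∑ i ∈ range K, ∑ j ∈ range K,
      ((alpha i * beta j * gamma (2 * K - 2 - i - j) : ℝ) : ℂ) * ((e : ℂ) ^ 2 *
        (Complex.exp (((mA K i + mB K j + mC K (2 * K - 2 - i - j)) / e : ℝ) * z) *
        br (br (st (mA K i) e (g₁ e)) (st (mB K j) e (g₂ e)))
          (fun w => Complex.exp (-((mC K (2 * K - 2 - i - j) / e : ℝ) * w))) z)))
      (𝓝[>] (0 : ℝ))
      (𝓝 (∑ i ∈ range K, ∑ j ∈ range K,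
        ((alpha i * beta j * gamma (2 * K - 2 - i - j) : ℝ) : ℂ) * ((wt K i j : ℂ) *
          Complex.exp (-(mA K i * H₁ z + mB K j * H₂ z))))) := by
    refine tendsto_finsetSum _ fun i _ => tendsto_finsetSum _ fun j _ => ?_
    refine Tendsto.const_mul _ ?_
    have h := lim_br3 hU h₁ h₂ (mA K i) (mB K j) (mC K (2 * K - 2 - i - j)) hz
    have e1 : (wt K i j : ℂ) = ((mB K j : ℂ) - mA K i) *
        (mC K (2 * K - 2 - i - j) - mA K i - mB K j) := by
      rw [wt]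
      push_cast
      ring
    rw [e1]
    exact h
  refine hlim.congr' ?_
  -- differentiability of the pulled back letters near `z`
  have hA : ∀ᶠ e in 𝓝[>] (0 : ℝ), ∀ i ∈ range K,
      ∀ᶠ w in 𝓝 z, DifferentiableAt ℂ (st (mA K i) e (g₁ e)) w := by
    refine (Finset.eventually_all _).2 fun i _ => ?_
    obtain ⟨r, hr, h1⟩ := near (P := fun e y => DifferentiableAt ℂ (st (mA K i) e (g₁ e)) y)
      (Stp.hol (stp_st hU h₁ (mA K i)) hz)
    exact h1.mono fun e he => by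
      filter_upwards [Metric.ball_mem_nhds z hr] with w hw using he w hw
  have hB : ∀ᶠ e in 𝓝[>] (0 : ℝ), ∀ j ∈ range K,
      ∀ᶠ w in 𝓝 z, DifferentiableAt ℂ (st (mB K j) e (g₂ e)) w := by
    refine (Finset.eventually_all _).2 fun j _ => ?_
    obtain ⟨r, hr, h1⟩ := near (P := fun e y => DifferentiableAt ℂ (st (mB K j) e (g₂ e)) y)
      (Stp.hol (stp_st hU h₂ (mB K j)) hz)
    exact h1.mono fun e he => by
      filter_upwards [Metric.ball_mem_nhds z hr] with w hw using he w hw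
  filter_upwards [hA, hB] with e hA hB
  have hC : ∀ k ∈ range (2 * K - 1),
      DifferentiableAt ℂ (fun w : ℂ => Complex.exp (-((mC K k / e : ℝ) * w))) z := by
    intro k _
    fun_prop
  have h1 : nf K a b c e (g₁ e) (g₂ e) z = ∑ i ∈ range K, ∑ j ∈ range K,
      ((alpha i * beta j * gamma (2 * K - 2 - i - j) : ℝ) : ℂ) *
        br (br (st (mA K i) e (g₁ e)) (st (mB K j) e (g₂ e)))
          (fun w => Complex.exp (-((mC K (2 * K - 2 - i - j) / e : ℝ) * w))) z := by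
    have h2 := tens_sum (E := ℂ) K hK alpha beta gamma a b c habc (fun i j k =>
      br (br (st (mA K i) e (g₁ e)) (st (mB K j) e (g₂ e)))
          (fun w => Complex.exp (-((mC K k / e : ℝ) * w))) z)
    simp only [Complex.real_smul] at h2
    rw [← h2, nf]
    refine Finset.sum_congr rfl fun l _ => ?_
    rw [br3_sum (range K) (range K) (range (2 * K - 1)) (fun i => (a l i : ℂ))
      (fun j => (b l j : ℂ)) (fun k => (c l k : ℂ)) (fun i => st (mA K i) e (g₁ e))
      (fun j => st (mB K j) e (g₂ e)) (fun k w => Complex.exp (-((mC K k / e : ℝ) * w)))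
      hA hB hC]
    refine Finset.sum_congr rfl fun i _ => Finset.sum_congr rfl fun j _ =>
      Finset.sum_congr rfl fun k _ => ?_
    push_cast
    ring
  rw [h1, Finset.mul_sum, Finset.mul_sum]
  refine Finset.sum_congr rfl fun i hi => ?_
  rw [Finset.mul_sum, Finset.mul_sum]
  refine Finset.sum_congr rfl fun j hj => ?_
  rw [m_sum (Finset.mem_range.1 hi) (Finset.mem_range.1 hj)]
  ring

/-- The sign of the field at a real point where the steepness variable is `B ^ (2 e0)`. -/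
theorem nf_sign {K : ℕ} (hK : 1 ≤ K) {B : ℝ} (hB : 64 ≤ B) {a b c : ℕ → ℕ → ℝ}
    (habc : ∀ i < K, ∀ j < K, ∀ k < 2 * K - 1,
      ∑ l ∈ range (2 * K - 1), a l i * b l j * c l k =
        if i + j + k + 2 = 2 * K then al B K i * be B K j * ga B K k else 0)
    {U : Set ℂ} (hU : IsOpen U) {g₁ g₂ : ℝ → ℂ → ℂ} {H₁ H₂ : ℂ → ℂ}
    (h₁ : Loc U (fun e z => (g₁ e z - z) / e) H₁) (h₂ : Loc U (fun e z => (g₂ e z - z) / e) H₂)
    {s t : ℝ} (hs : (s : ℂ) ∈ U) (ht₁ : H₁ s = t) (ht₂ : H₂ s = (K * t : ℝ)) {e0 : ℕ}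
    (he0 : e0 < K ^ 2) (ht : Real.exp (-(t / (4 * K))) = B ^ (2 * e0)) :
    ∀ᶠ e in 𝓝[>] (0 : ℝ), 0 < (-1) ^ e0 * (nf K a b c e (g₁ e) (g₂ e) s).re := by
  have hlim := nf_lim hK habc hU h₁ h₂ hs
  have hK0 : (0 : ℝ) < K := by exact_mod_cast hK
  -- the limit is real
  have e1 : (∑ i ∈ range K, ∑ j ∈ range K,
        ((al B K i * be B K j * ga B K (2 * K - 2 - i - j) : ℝ) : ℂ) * ((wt K i j : ℂ) *
          Complex.exp (-(mA K i * H₁ s + mB K j * H₂ s)))) =
      ((Real.exp (-(t * (1 + 2 * K))) * ∑ i ∈ range K, ∑ j ∈ range K,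
        wt K i j * (al B K i * be B K j * ga B K (2 * K - 2 - i - j)) *
          (B ^ (2 * e0)) ^ (i + K * j) : ℝ) : ℂ) := by
    rw [Finset.mul_sum]
    push_cast
    refine Finset.sum_congr rfl fun i _ => ?_
    rw [Finset.mul_sum]
    refine Finset.sum_congr rfl fun j _ => ?_
    have h3 : Complex.exp (-(mA K i * H₁ s + mB K j * H₂ s)) =
        Complex.exp (-(t * (1 + 2 * K))) * ((B : ℂ) ^ (2 * e0)) ^ (i + K * j) := by
      rw [ht₁, ht₂]
      have h4 : ((B : ℂ) ^ (2 * e0)) = Complex.exp (-(t / (4 * K) : ℝ)) := by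
        rw [← Complex.ofReal_neg, ← Complex.ofReal_exp, ht]
        push_cast
        ring
      rw [h4, ← Complex.exp_nat_mul, ← Complex.exp_add]
      congr 1
      have h5 := mA_add (K := K) (by omega) i j
      have h6 : mA K i * t + mB K j * (K * t) =
          t * (1 + 2 * K) + (i + K * j : ℕ) * (t / (4 * K)) := by
        have : mA K i * t + mB K j * (K * t) = t * (mA K i + K * mB K j) := by ring
        rw [this, h5]
        ring
      have h7 : ((mA K i * t + mB K j * (K * t) : ℝ) : ℂ) =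
          ((t * (1 + 2 * K) + (i + K * j : ℕ) * (t / (4 * K)) : ℝ) : ℂ) := by rw [h6]
      push_cast at h7 ⊢
      linear_combination -h7
    rw [h3]
    push_cast
    ring
  rw [e1] at hlim
  have hsg := sgn hB he0 (wt K) (fun i hi j hj => wt_mem hi hj)
  have hre := (Complex.continuous_re.tendsto _).comp hlim
  rw [Complex.ofReal_re] at hre
  have h8 := hre.const_mul ((-1 : ℝ) ^ e0)
  have hpos : 0 < (-1 : ℝ) ^ e0 * (Real.exp (-(t * (1 + 2 * K))) * ∑ i ∈ range K,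
      ∑ j ∈ range K, wt K i j * (al B K i * be B K j * ga B K (2 * K - 2 - i - j)) *
          (B ^ (2 * e0)) ^ (i + K * j)) := by
    have := mul_pos (Real.exp_pos (-(t * (1 + 2 * K)))) hsg
    linarith [this, show Real.exp (-(t * (1 + 2 * K))) * ((-1 : ℝ) ^ e0 * ∑ i ∈ range K,
      ∑ j ∈ range K, wt K i j * (al B K i * be B K j * ga B K (2 * K - 2 - i - j)) *
          (B ^ (2 * e0)) ^ (i + K * j)) = (-1 : ℝ) ^ e0 * (Real.exp (-(t * (1 + 2 * K))) *
      ∑ i ∈ range K, ∑ j ∈ range K, wt K i j * (al B K i * be B K j *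
        ga B K (2 * K - 2 - i - j)) * (B ^ (2 * e0)) ^ (i + K * j)) from by ring]
  filter_upwards [h8.eventually (lt_mem_nhds hpos), self_mem_nhdsWithin] with e h9 he
  have he : (0 : ℝ) < e := he
  simp only [Function.comp_apply] at h9
  have h10 : (Complex.exp (((8 + (2 * K - 2) / (4 * K)) / e : ℝ) * (s : ℂ))) =
      ((Real.exp ((8 + (2 * K - 2) / (4 * K)) / e * s) : ℝ) : ℂ) := by
    rw [Complex.ofReal_exp]
    push_cast
    ring_nf
  have h11 : ((e : ℂ) ^ 2 * (Complex.exp (((8 + (2 * K - 2) / (4 * K)) / e : ℝ) * (s : ℂ)) *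
          nf K a b c e (g₁ e) (g₂ e) s)).re =
      e ^ 2 * (Real.exp ((8 + (2 * K - 2) / (4 * K)) / e * s)) *
        (nf K a b c e (g₁ e) (g₂ e) s).re := by
    rw [h10, ← mul_assoc]
    have : (e : ℂ) ^ 2 * ((Real.exp ((8 + (2 * K - 2) / (4 * K)) / e * s) : ℝ) : ℂ) =
        ((e ^ 2 * Real.exp ((8 + (2 * K - 2) / (4 * K)) / e * s) : ℝ) : ℂ) := by
      push_cast
      ring
    rw [this, Complex.re_ofReal_mul]
  rw [h11] at h9
  have h12 : 0 < e ^ 2 * Real.exp ((8 + (2 * K - 2) / (4 * K)) / e * s) := by positivity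
  have h13 : (-1 : ℝ) ^ e0 * (e ^ 2 * Real.exp ((8 + (2 * K - 2) / (4 * K)) / e * s) *
      (nf K a b c e (g₁ e) (g₂ e) s).re) =
      (e ^ 2 * Real.exp ((8 + (2 * K - 2) / (4 * K)) / e * s)) *
        ((-1) ^ e0 * (nf K a b c e (g₁ e) (g₂ e) s).re) := by ring
  rw [h13] at h9
  exact (mul_pos_iff_of_pos_left h12).1 h9

end Pool.Agent.Lib.MP_95e7ec_an.Ww
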