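import Mathlib
import Pool.Agent.Lib.MP_95e7ec_an.Ww.StepA
import Pool.Agent.Lib.MP_95e7ec_an.Ww.IDefs
import Pool.Agent.Lib.MP_95e7ec_an.Ww.Lap

/-!
# The step: `N` alternations with `m` letters give `(K² - 1) N` with `(2K - 1)(16 m + 12 K)`
-/

set_option autoImplicit false

open Filter Topology

namespace Pool.Agent.Lib.MP_95e7ec_an.Ww

open Pool.Agent.MP95e7W

variable {U : Set ℂ} {m N K : ℕ} {w : ℝ → List (ℝ × ℝ)} {A : ℂ → ℂ}

/-- `TendstoLocallyUniformlyOn` form of a family. -/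
theorem Fam.loc (hU : IsOpen U) {f : ℝ → ℂ → ℂ} (h : Fam U 1 f A) :
    AsyL.Loc U (fun e z => (f e z - z) / e) A := by
  refine AsyL.of_tlu hU (h.dif hU).continuousOn ?_ ?_
  · intro z hz
    obtain ⟨R, hR, hRU⟩ := Metric.nhds_basis_closedBall.mem_iff.1 (hU.mem_nhds hz)
    have h1 := h.hol _ hRU (isCompact_closedBall z R)
    refine AsyL.near_mk (P := fun e y => DifferentiableAt ℂ (fun z => (f e z - z) / (e : ℂ)) y)
      hR (h1.mono fun e he y hy => ?_)
    exact ((he y (Metric.ball_subset_closedBall hy)).sub differentiableAt_id).div_const _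
  · rw [tendstoLocallyUniformlyOn_iff_forall_isCompact hU]
    intro L hL hc
    have h1 := h.lim L hL hc
    refine h1.congr (Eventually.of_forall fun d z _ => ?_)
    simp only [pow_one]

/-- The field of a word family is real on the real axis. -/
theorem WF.real (h : WF U 1 m w A) {x : ℝ} (hx : (x : ℂ) ∈ U) :
    A (x : ℂ) = (((A (x : ℂ)).re : ℝ) : ℂ) := by
  have h1 := h.fwd.lim {(x : ℂ)} (by simpa using hx) isCompact_singleton
  have h2 : Tendsto (fun d : ℝ => (cwd (w d) (x : ℂ) - x) / (d : ℂ) ^ 1) (𝓝[>] (0 : ℝ))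
      (𝓝 (A (x : ℂ))) := h1.tendsto_at (Set.mem_singleton _)
  have h3 : ∀ᶠ d in 𝓝[>] (0 : ℝ), ((cwd (w d) (x : ℂ) - x) / (d : ℂ) ^ 1).im = 0 := by
    filter_upwards [h.ok {(x : ℂ)} (by simpa using hx) isCompact_singleton] with d hd
    have h4 := (Cok.real (h.pos d) (hd _ (Set.mem_singleton _))).2.2
    rw [h4, pow_one, ← Complex.ofReal_sub, ← Complex.ofReal_div, Complex.ofReal_im]
  have h5 := (Complex.continuous_im.tendsto _).comp h2
  have h6 : (A (x : ℂ)).im = 0 :=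
    tendsto_nhds_unique (h5.congr' h3) tendsto_const_nhds
  exact Complex.ext (by simp) (by simp [h6])

/-- The letters of one slot. -/
theorem rea_letters {n : ℕ} {μ : ℕ → ℝ} (hμ : ∀ i, 0 < μ i) (a : ℕ → ℝ) {e : ℝ} (he : 0 < e) :
    Rea Set.univ 1 n fun z => ∑ i ∈ Finset.range n, (a i : ℂ) *
      Complex.exp (-((μ i / e : ℝ) * z)) := by
  have h := Rea.sum (U := Set.univ) (p := 1) (m := 1) isOpen_univ one_pos (n := n)
    (A := fun i z => (a i : ℂ) * Complex.exp (-((μ i / e : ℝ) : ℂ) * z))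
    (fun i _ => Rea.letter (div_pos (hμ i) he) (a i))
  rw [mul_one] at h
  refine h.congr fun z _ => Finset.sum_congr rfl fun i _ => ?_
  rw [neg_mul]

/-- A slot of cheap letters conjugated by a fixed word. -/
theorem rea_slot {n : ℕ} {μ : ℕ → ℝ} (hμ : ∀ i, 0 < μ i) (a : ℕ → ℝ) {e : ℝ} (he : 0 < e)
    (hU : IsOpen U) {l : List (ℝ × ℝ)} (hl : ∀ x ∈ l, 0 < x.1) (hok : ∀ z ∈ U, Cok l z) :
    Rea U 1 (n + 2 * l.length) fun z => ∑ i ∈ Finset.range n, (a i : ℂ) *
      AsyL.st (μ i) e (cwd l) z := by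
  have h := Rea.conj hU isOpen_univ hl hok (fun _ _ => Set.mem_univ _) one_pos
    (rea_letters (n := n) hμ a he)
  refine h.congr fun z _ => ?_
  rw [Finset.sum_div]
  refine Finset.sum_congr rfl fun i _ => ?_
  rw [AsyL.st, mul_div_assoc]

/-- The word family of the gadget. -/
theorem rea_nf (a b c : ℕ → ℕ → ℝ) {e : ℝ} (he : 0 < e) (hU : IsOpen U)
    {l₁ l₂ : List (ℝ × ℝ)} (hl₁ : ∀ x ∈ l₁, 0 < x.1) (hl₂ : ∀ x ∈ l₂, 0 < x.1)
    (hok₁ : ∀ z ∈ U, Cok l₁ z) (hok₂ : ∀ z ∈ U, Cok l₂ z) (h1 : l₁.length = m)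
    (h2 : l₂.length = m) :
    Rea U 3 ((2 * K - 1) * (16 * m + 8 * K + 2 * (2 * K - 1)))
      (nf K a b c e (cwd l₁) (cwd l₂)) := by
  have hsum := Rea.sum (U := U) (p := 3) (m := 16 * m + 8 * K + 2 * (2 * K - 1)) hU (by norm_num)
    (n := 2 * K - 1)
    (A := fun l => br (br (fun w => ∑ i ∈ Finset.range K, (a l i : ℂ) *
        AsyL.st (mA K i) e (cwd l₁) w)
      (fun w => ∑ j ∈ Finset.range K, (b l j : ℂ) * AsyL.st (mB K j) e (cwd l₂) w))
      (fun w => ∑ k ∈ Finset.range (2 * K - 1), (c l k : ℂ) *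
        Complex.exp (-((mC K k / e : ℝ) * w)))) (fun l _ => ?_)
  · exact hsum
  · have hA := rea_slot (n := K) (mA_pos K) (a l) he hU hl₁ hok₁
    have hB := rea_slot (n := K) (mB_pos K) (b l) he hU hl₂ hok₂
    have hC := (rea_letters (n := 2 * K - 1) (mC_pos K) (c l) he).mono (Set.subset_univ U)
    have h := (hA.comm hU one_pos one_pos hB).comm hU (by norm_num) one_pos hC
    rw [h1, h2] at h
    have e1 : 2 * (2 * (K + 2 * m) + 2 * (K + 2 * m)) + 2 * (2 * K - 1) =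
        16 * m + 8 * K + 2 * (2 * K - 1) := by ring
    rw [e1] at h
    exact h

/-- Padding with letters which have the coefficient `0`. -/
theorem Rea.pad {m' : ℕ} (hU : IsOpen U) (h : Rea U 1 m A) (hm : m ≤ m') : Rea U 1 m' A := by
  have h1 := h.add hU one_pos ((rea_letters (n := m' - m) (μ := fun _ => 1)
    (fun _ => one_pos) (fun _ => 0) one_pos).mono (Set.subset_univ U))
  have e : m + (m' - m) = m' := by omega
  rw [e] at h1
  refine h1.congr fun z _ => ?_
  simp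

/-- strict monotonicity along an initial segment of the indices -/
theorem step_mono {t : ℕ → ℝ} {n : ℕ} (h : ∀ i < n, t i < t (i + 1)) {i j : ℕ} (hij : i ≤ j)
    (hj : j ≤ n) : t i ≤ t j := by
  induction j, hij using Nat.le_induction with
  | base => exact le_rfl
  | succ k hk ih => exact (ih (by omega)).trans (h k (by omega)).le

/-- **The step.** -/
theorem Alt.step {m N K : ℕ} (hK : 2 ≤ K) (hN : 1 ≤ N) (h : Alt m N) :
    Alt ((2 * K - 1) * (16 * m + 12 * K)) ((K ^ 2 - 1) * N) := by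
  obtain ⟨U, A, s, hU, ⟨w, hw⟩, hs, hseg', hsg⟩ := h
  have hK : 1 ≤ K := by omega
  have hseg : ∀ x ∈ Set.Icc (s 0) (s N), (x : ℂ) ∈ U := fun x hx => hseg' x hx.1 hx.2
  have hKr : (0 : ℝ) < K := by exact_mod_cast hK
  have hcont : ContinuousOn A U := (hw.fwd.dif hU).continuousOn
  -- the laps
  have hF : ContinuousOn (fun x : ℝ => (A (x : ℂ)).re) (Set.Icc (s 0) (s N)) := by
    refine Complex.continuous_re.comp_continuousOn (hcont.comp ?_ fun x hx => hseg x hx)
    exact Complex.continuous_ofReal.continuousOn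
  obtain ⟨sig, hsig, hlaps⟩ := laps hN hK (B := 64) (kap := 1 / (4 * K)) (by norm_num)
    (by positivity) hs hF hsg
  obtain ⟨t, eq, ht, hq⟩ := hlaps sig le_rfl
  -- the coefficients
  obtain ⟨a, b, c, habc⟩ := tens K hK (al 64 K) (be 64 K) (ga 64 K)
  -- the two families
  have hw₁ := hw.scale hU (c := sig) hsig
  have hw₂ := hw.scale hU (c := K * sig) (by positivity)
  have L₁ := hw₁.fwd.loc hU
  have L₂ := hw₂.fwd.loc hU
  have hnt : 1 ≤ K ^ 2 := Nat.one_le_pow _ _ hK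
  have hmem : ∀ q ≤ (K ^ 2 - 1) * N, (t q : ℂ) ∈ U := fun q hq' =>
    hseg _ ⟨(hq q hq').1.le, (hq q hq').2.1.le⟩
  -- the signs
  have hsgn : ∀ᶠ e in 𝓝[>] (0 : ℝ), ∀ q ∈ Finset.range ((K ^ 2 - 1) * N + 1),
      0 < (-1 : ℝ) ^ q * (nf K a b c e (cwd (w (sig * e))) (cwd (w (K * sig * e))) (t q)).re := by
    refine (Finset.eventually_all _).2 fun q hq' => ?_
    have hq'' : q ≤ (K ^ 2 - 1) * N := by
      have := Finset.mem_range.1 hq'
      omega
    obtain ⟨-, -, q3, q4, q5⟩ := hq q hq''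
    have hr := hw.real (hmem q hq'')
    have h1 := nf_sign (B := 64) hK (by norm_num) habc hU L₁ L₂ (s := t q)
      (t := sig * (A (t q)).re) (hmem q hq'') (by rw [pow_one, Complex.ofReal_mul, ← hr])
      (by
        rw [pow_one, Complex.ofReal_mul, Complex.ofReal_mul, Complex.ofReal_mul,
          Complex.ofReal_natCast, ← hr]
        ring) q3 (by
        rw [← q5]
        congr 1
        field_simp)
    filter_upwards [h1] with e he
    rw [← q4]
    exact he
  -- the words are defined near the segment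
  have hcomp : IsCompact ((fun x : ℝ => (x : ℂ)) '' Set.Icc (s 0) (s N)) :=
    isCompact_Icc.image Complex.continuous_ofReal
  have hsub : (fun x : ℝ => (x : ℂ)) '' Set.Icc (s 0) (s N) ⊆ U := by
    rintro _ ⟨x, hx, rfl⟩
    exact hseg x hx
  obtain ⟨e, he1, he2, he3, he4⟩ := (hsgn.and ((hw₁.ok _ hsub hcomp).and
    ((hw₂.ok _ hsub hcomp).and self_mem_nhdsWithin))).exists
  have he : (0 : ℝ) < e := he4
  have hU' : IsOpen ({z : ℂ | Cok (w (sig * e)) z} ∩ {z : ℂ | Cok (w (K * sig * e)) z}) :=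
    (isOpen_Cok _).inter (isOpen_Cok _)
  have hrea := (rea_nf (K := K) (m := m) a b c he hU' (hw.pos _) (hw.pos _)
    (fun z hz => hz.1) (fun z hz => hz.2) (hw.len _) (hw.len _)).root (by norm_num)
  refine ⟨_, _, t, hU', hrea.pad hU' (Nat.mul_le_mul_left _ (by omega)), ht, ?_, ?_⟩
  · intro x hx1 hx2
    have h0 := (hq 0 (Nat.zero_le _)).1
    have h1 := (hq _ le_rfl).2.1
    have hx' : (x : ℂ) ∈ (fun x : ℝ => (x : ℂ)) '' Set.Icc (s 0) (s N) :=
      ⟨x, ⟨h0.le.trans hx1, hx2.trans h1.le⟩, rfl⟩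
    exact ⟨he2 _ hx', he3 _ hx'⟩
  · intro q hq'
    exact he1 q (Finset.mem_range.2 (by omega))

end Pool.Agent.Lib.MP_95e7ec_an.Ww
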