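import Pool.Agent.Lib.MP_95e7ec_an.Ww.IDefs
import Pool.Agent.Lib.MP_95e7ec_an.Ww.Step

/-!
# Iteration

The start (`K` letters, `K - 1` alternations) and the powers `K ^ (2 T + 1)`, `K ^ (T + 1)`.
-/

set_option autoImplicit false

open Filter Topology Set Finset

namespace Pool.Agent.Lib.MP_95e7ec_an.Ww

/-- The start. -/
theorem Alt.start (K : ℕ) (hK : 1 ≤ K) : Alt K (K - 1) := by
  have hlog : 0 < Real.log 64 := Real.log_pos (by norm_num)
  set c : ℕ → ℝ := fun e => (-1) ^ e * (64 : ℝ) ^ (-((e : ℤ) ^ 2)) with hc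
  have hR : Rea univ 1 K fun z => ∑ e ∈ range K,
      (c e : ℂ) * Complex.exp (-((K - e : ℝ) : ℂ) * z) := by
    have h := Rea.sum (U := univ) (p := 1) (m := 1) isOpen_univ one_pos (n := K)
      (A := fun e z => (c e : ℂ) * Complex.exp (-((K - e : ℝ) : ℂ) * z)) fun e he => by
        refine Rea.letter ?_ (c e)
        have : (e : ℝ) < K := by exact_mod_cast he
        linarith
    rwa [mul_one] at h
  refine ⟨univ, _, fun i => 2 * i * Real.log 64, isOpen_univ, hR, fun i _ => ?_,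
    fun _ _ _ => mem_univ _, fun i hi => ?_⟩
  · push_cast
    nlinarith
  · have hi' : i < K := by omega
    have h1 := sgn_aux (B := 64) le_rfl hi' (fun _ => 1) (fun _ _ => ⟨le_rfl, by norm_num⟩)
    have h2 : (∑ e ∈ range K, (c e : ℂ) *
        Complex.exp (-((K - e : ℝ) : ℂ) * ((2 * i * Real.log 64 : ℝ) : ℂ))) =
        (((64 : ℝ) ^ (2 * i * K))⁻¹ * ∑ e ∈ range K,
          1 * ((-1) ^ e * (64 : ℝ) ^ (-((e : ℤ) ^ 2))) * ((64 : ℝ) ^ (2 * i)) ^ e : ℝ) := by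
      rw [Finset.mul_sum, Complex.ofReal_sum]
      refine Finset.sum_congr rfl fun e he => ?_
      have he' : e < K := Finset.mem_range.1 he
      have h3 : Real.exp (-(K - e : ℝ) * (2 * i * Real.log 64)) =
          ((64 : ℝ) ^ (2 * i * K))⁻¹ * ((64 : ℝ) ^ (2 * i)) ^ e := by
        have h4 : (-(K - e : ℝ) * (2 * i * Real.log 64)) =
            -((2 * i * K : ℕ) * Real.log 64) + (2 * i * e : ℕ) * Real.log 64 := by
          push_cast
          ring
        rw [h4, Real.exp_add, Real.exp_neg, Real.exp_nat_mul, Real.exp_nat_mul,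
          Real.exp_log (by norm_num), pow_mul (64 : ℝ) (2 * i) e]
      have h5 : Complex.exp (-((K - e : ℝ) : ℂ) * ((2 * i * Real.log 64 : ℝ) : ℂ)) =
          ((Real.exp (-(K - e : ℝ) * (2 * i * Real.log 64)) : ℝ) : ℂ) := by
        push_cast
        rfl
      rw [h5, h3, ← Complex.ofReal_mul]
      congr 1
      rw [hc]
      ring
    rw [h2, Complex.ofReal_re]
    have h6 : (0 : ℝ) < ((64 : ℝ) ^ (2 * i * K))⁻¹ := by positivity
    calc (0 : ℝ) < ((64 : ℝ) ^ (2 * i * K))⁻¹ * ((-1) ^ i * ∑ e ∈ range K,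
          1 * ((-1) ^ e * (64 : ℝ) ^ (-((e : ℤ) ^ 2))) * ((64 : ℝ) ^ (2 * i)) ^ e) :=
          mul_pos h6 h1
      _ = _ := by ring

/-- The iteration. -/
theorem Alt.iter (T : ℕ) : ∃ C : ℕ, ∀ K, 2 ≤ K → ∃ m N : ℕ, 1 ≤ N ∧ K ^ (2 * T + 1) ≤ C * N ∧
    m ≤ C * K ^ (T + 1) ∧ Alt m N := by
  induction T with
  | zero =>
    refine ⟨2, fun K hK => ⟨K, K - 1, by omega, ?_, ?_, Alt.start K (by omega)⟩⟩
    · rw [Nat.mul_zero, Nat.zero_add, pow_one]
      omega
    · rw [Nat.zero_add, pow_one]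
      omega
  | succ T ih =>
    obtain ⟨C, hC⟩ := ih
    refine ⟨32 * C + 24, fun K hK => ?_⟩
    obtain ⟨m, N, hN, h1, h2, h3⟩ := hC K hK
    have hK2 : 4 ≤ K ^ 2 := by nlinarith
    refine ⟨(2 * K - 1) * (16 * m + 12 * K), (K ^ 2 - 1) * N, ?_, ?_, ?_, h3.step hK hN⟩
    · exact Nat.mul_pos (by omega) hN
    · have e1 : K ^ (2 * (T + 1) + 1) = K ^ 2 * K ^ (2 * T + 1) := by ring
      have e2 : K ^ 2 ≤ 2 * (K ^ 2 - 1) := by omega
      rw [e1]
      calc K ^ 2 * K ^ (2 * T + 1) ≤ (2 * (K ^ 2 - 1)) * (C * N) := Nat.mul_le_mul e2 h1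
        _ = (2 * C) * ((K ^ 2 - 1) * N) := by ring
        _ ≤ (32 * C + 24) * ((K ^ 2 - 1) * N) := Nat.mul_le_mul_right _ (by omega)
    · have e1 : K ≤ K ^ (T + 1) := by
        calc K = K ^ 1 := (pow_one K).symm
          _ ≤ K ^ (T + 1) := Nat.pow_le_pow_right (by omega) (by omega)
      calc (2 * K - 1) * (16 * m + 12 * K)
          ≤ (2 * K) * (16 * (C * K ^ (T + 1)) + 12 * K ^ (T + 1)) :=
            Nat.mul_le_mul (by omega) (by omega)
        _ = (32 * C + 24) * K ^ (T + 1 + 1) := by ring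

end Pool.Agent.Lib.MP_95e7ec_an.Ww
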