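import Pool.Agent.Lib.MP_95e7ec_an.Ww.WDefs
import Pool.Agent.Lib.MP_95e7ec_an.Ww.Fam2
import Pool.Agent.Lib.MP_95e7ec_an.Ww.Fam3

/-!
# Word families and the fields they realize

`WF U p m w A`: the words `w d` (`d > 0`) have length `m` and positive exponents; on the compact
subsets of `U` the word `w d` and its inverse word are defined for small `d`, and their maps are
`z + d ^ p A z + o (d ^ p)` and `z - d ^ p A z + o (d ^ p)`, uniformly.
-/

set_option autoImplicit false

open Filter Topology Set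

namespace Pool.Agent.Lib.MP_95e7ec_an.Ww

open Pool.Agent.MP95e7W

/-- Word families with field `A` and order `p`. -/
structure WF (U : Set ℂ) (p m : ℕ) (w : ℝ → List (ℝ × ℝ)) (A : ℂ → ℂ) : Prop where
  len : ∀ d, (w d).length = m
  pos : ∀ d, ∀ x ∈ w d, 0 < x.1
  ok : EvC U fun d z => Cok (w d) z
  ok' : EvC U fun d z => Cok (winv (w d)) z
  fwd : Fam U p (fun d => cwd (w d)) A
  bwd : Fam U p (fun d => cwd (winv (w d))) fun z => -A z

/-- The field `A` is realized on `U` by a family of words of length `m`, with order `p`. -/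
def Rea (U : Set ℂ) (p m : ℕ) (A : ℂ → ℂ) : Prop := ∃ w : ℝ → List (ℝ × ℝ), WF U p m w A

variable {U V : Set ℂ} {p q m m' : ℕ} {w w' : ℝ → List (ℝ × ℝ)} {A B : ℂ → ℂ}

theorem WF.mono (h : WF U p m w A) (hV : V ⊆ U) : WF V p m w A :=
  ⟨h.len, h.pos, h.ok.mono hV, h.ok'.mono hV, h.fwd.mono hV, h.bwd.mono hV⟩

theorem WF.congr (h : WF U p m w A) (e : ∀ z ∈ U, A z = B z) : WF U p m w B :=
  ⟨h.len, h.pos, h.ok, h.ok', h.fwd.congr_field e,
    h.bwd.congr_field fun z hz => by rw [e z hz]⟩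

/-- one letter with a small coefficient -/
theorem WF.letter {μ : ℝ} (hμ : 0 < μ) (a : ℝ) :
    WF univ 1 1 (fun d => [(μ, μ * a * d)]) fun z => (a : ℂ) * Complex.exp (-(μ : ℂ) * z) := by
  have h1 := fam_letter hμ a
  have h2 := fam_letter hμ (-a)
  have e : ∀ d : ℝ, winv [(μ, μ * a * d)] = [(μ, μ * (-a) * d)] := by
    intro d
    simp [winv]
  refine ⟨fun _ => rfl, ?_, h1.1, ?_, h1.2, ?_⟩
  · intro d x hx
    rw [List.mem_singleton] at hx
    rw [hx]
    exact hμ
  · simp only [e]
    exact h2.1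
  · simp only [e]
    refine Fam.congr_field h2.2 fun z _ => ?_
    push_cast
    ring

theorem WF.nil : WF U p 0 (fun _ => []) fun _ => 0 := by
  refine ⟨fun _ => rfl, by simp, ?_, ?_, Fam.const_id, ?_⟩
  · exact fun K _ _ => Eventually.of_forall fun d z _ => trivial
  · exact fun K _ _ => Eventually.of_forall fun d z _ => trivial
  · exact Fam.congr_field Fam.const_id fun z _ => by simp

/-- composition of two word families: one direction -/
theorem okapp (hU : IsOpen U) (hp : 0 < p) {w w' : ℝ → List (ℝ × ℝ)} {A : ℂ → ℂ}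
    (h1 : EvC U fun d z => Cok (w d) z) (h2 : EvC U fun d z => Cok (w' d) z)
    (hw : Fam U p (fun d => cwd (w d)) A) : EvC U fun d z => Cok (w d ++ w' d) z :=
  (h1.and (h2.comp hU (hw.id hU hp))).imp fun _ _ hz => (Cok_append _ _ _).2 hz

theorem famapp (hU : IsOpen U) (hp : 0 < p) {w w' : ℝ → List (ℝ × ℝ)} {A B : ℂ → ℂ}
    (hw : Fam U p (fun d => cwd (w d)) A) (hw' : Fam U p (fun d => cwd (w' d)) B) :
    Fam U p (fun d => cwd (w d ++ w' d)) fun z => A z + B z := by
  have h := (hw'.comp hU hw hp).congr_field (B := fun z => A z + B z) fun z _ => add_comm _ _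
  refine h.congr hU ?_
  exact fun K _ _ => Eventually.of_forall fun d z _ => (cwd_append _ _ _).symm

theorem WF.add (hU : IsOpen U) (hp : 0 < p) (h : WF U p m w A) (h' : WF U p m' w' B) :
    WF U p (m + m') (fun d => w d ++ w' d) fun z => A z + B z := by
  have e : ∀ d, winv (w d ++ w' d) = winv (w' d) ++ winv (w d) := fun d => winv_append _ _
  refine ⟨fun d => by simp [h.len, h'.len], ?_, okapp hU hp h.ok h'.ok h.fwd, ?_,
    famapp hU hp h.fwd h'.fwd, ?_⟩
  · intro d x hx
    rcases List.mem_append.1 hx with hx | hx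
    · exact h.pos d x hx
    · exact h'.pos d x hx
  · simp only [e]
    exact okapp hU hp h'.ok' h.ok' h'.bwd
  · simp only [e]
    refine (famapp hU hp h'.bwd h.bwd).congr_field fun z _ => ?_
    ring

/-- The words and the inverse words are inverse to each other. -/
theorem WF.inv_left (h : WF U p m w A) :
    EvC U fun d z => cwd (winv (w d)) (cwd (w d) z) = z := by
  intro K hK hc
  filter_upwards [h.ok K hK hc] with d hd z hz
  exact ((hd z hz).inv (h.pos d)).2

theorem WF.inv_right (h : WF U p m w A) :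
    EvC U fun d z => cwd (w d) (cwd (winv (w d)) z) = z := by
  intro K hK hc
  filter_upwards [h.ok' K hK hc] with d hd z hz
  have := ((hd z hz).inv (pos_winv (h.pos d))).2
  rwa [winv_winv] at this

/-- one direction of the commutator -/
theorem commapp (hU : IsOpen U) (hp : 0 < p) (hq : 0 < q) (h : WF U p m w A)
    (h' : WF U q m' w' B) :
    (EvC U fun d z => Cok (winv (w' d) ++ winv (w d) ++ w' d ++ w d) z) ∧
      Fam U (p + q) (fun d => cwd (winv (w' d) ++ winv (w d) ++ w' d ++ w d)) (br A B) := by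
  have i1 := h'.bwd.id hU hq
  have i2 := h.bwd.id hU hp
  have i3 := h'.fwd.id hU hq
  have c1 : EvC U fun d z => Cok (winv (w' d)) z := h'.ok'
  have j2 : UC U (fun d z => cwd (winv (w d)) (cwd (winv (w' d)) z)) fun z => z :=
    i2.comp hU continuousOn_id i1
  have j3 : UC U (fun d z => cwd (w' d) (cwd (winv (w d)) (cwd (winv (w' d)) z))) fun z => z :=
    i3.comp hU continuousOn_id j2
  have c2 : EvC U fun d z => Cok (winv (w d)) (cwd (winv (w' d)) z) := h.ok'.comp hU i1
  have c3 : EvC U fun d z => Cok (w' d) (cwd (winv (w d)) (cwd (winv (w' d)) z)) :=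
    h'.ok.comp hU j2
  have c4 : EvC U fun d z => Cok (w d) (cwd (w' d) (cwd (winv (w d)) (cwd (winv (w' d)) z))) :=
    h.ok.comp hU j3
  constructor
  · refine (((c1.and c2).and c3).and c4).imp fun d z hz => ?_
    simp only [Cok_append, cwd_append]
    exact hz
  · refine (Fam.comm hU hp hq h.fwd h.bwd h'.fwd h'.bwd h.inv_right h'.inv_right).congr hU ?_
    refine fun K _ _ => Eventually.of_forall fun d z _ => ?_
    simp only [cwd_append]

theorem WF.swap (h : WF U p m w A) : WF U p m (fun d => winv (w d)) fun z => -A z := by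
  refine ⟨fun d => by simp [h.len], fun d => pos_winv (h.pos d), h.ok', ?_, h.bwd, ?_⟩
  · simp only [winv_winv]
    exact h.ok
  · simp only [winv_winv]
    exact h.fwd.congr_field fun z _ => (neg_neg _).symm

theorem WF.comm (hU : IsOpen U) (hp : 0 < p) (hq : 0 < q) (h : WF U p m w A)
    (h' : WF U q m' w' B) :
    WF U (p + q) (2 * m + 2 * m') (fun d => winv (w' d) ++ winv (w d) ++ w' d ++ w d)
      (br A B) := by
  obtain ⟨a1, a2⟩ := commapp hU hp hq h h'
  obtain ⟨b1, b2⟩ := commapp hU hq hp h' h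
  have e : ∀ d, winv (winv (w' d) ++ winv (w d) ++ w' d ++ w d) =
      winv (w d) ++ winv (w' d) ++ w d ++ w' d := by
    intro d
    simp only [winv_append, winv_winv, List.append_assoc]
  refine ⟨?_, ?_, a1, ?_, a2, ?_⟩
  · intro d
    simp only [List.length_append, length_winv, h.len, h'.len]
    ring
  · intro d x hx
    simp only [List.mem_append] at hx
    rcases hx with ((hx | hx) | hx) | hx
    · exact pos_winv (h'.pos d) x hx
    · exact pos_winv (h.pos d) x hx
    · exact h'.pos d x hx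
    · exact h.pos d x hx
  · simp only [e]
    exact b1
  · simp only [e]
    rw [add_comm p q]
    refine b2.congr_field fun z _ => ?_
    simp only [br]
    ring

/-- one direction of the conjugation -/
theorem conjapp (hU : IsOpen U) (hV : IsOpen V) {l : List (ℝ × ℝ)} (hl : ∀ x ∈ l, 0 < x.1)
    (hok : ∀ z ∈ U, Cok l z) (hmap : ∀ z ∈ U, cwd l z ∈ V) (hp : 0 < p)
    (h1 : EvC V fun d z => Cok (w d) z) (h2 : Fam V p (fun d => cwd (w d)) A) :
    (EvC U fun d z => Cok (l ++ w d ++ winv l) z) ∧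
      Fam U p (fun d => cwd (l ++ w d ++ winv l)) fun z => A (cwd l z) / deriv (cwd l) z := by
  have d1 : DifferentiableOn ℂ (cwd l) U := fun z hz =>
    (hok z hz).differentiableAt.differentiableWithinAt
  have d2 : DifferentiableOn ℂ (cwd (winv l)) {z | Cok (winv l) z} := fun z hz =>
    (Cok.differentiableAt hz).differentiableWithinAt
  obtain ⟨c1, c2⟩ := Fam.conj hV (isOpen_Cok (winv l)) d1 hU d2 hmap
    (fun z hz => ((hok z hz).inv hl).1) (fun z hz => ((hok z hz).inv hl).2) hp h2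
  constructor
  · intro K hK hc
    filter_upwards [(h1.fix d1.continuousOn hmap) K hK hc, c1 K hK hc] with d e1 e2 z hz
    rw [Cok_append, Cok_append, cwd_append]
    exact ⟨⟨hok z (hK hz), e1 z hz⟩, e2 z hz⟩
  · have c3 := c2.congr (g := fun d => cwd (l ++ w d ++ winv l)) hU (by
      refine fun K _ _ => Eventually.of_forall fun d z _ => ?_
      simp only [cwd_append])
    refine c3.congr_field fun z hz => ?_
    have e := (hok z hz).deriv_mul hl
    have e2 : deriv (cwd l) z ≠ 0 := by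
      intro h0
      rw [h0, mul_zero] at e
      exact zero_ne_one e
    rw [eq_div_iff e2]
    calc deriv (cwd (winv l)) (cwd l z) * A (cwd l z) * deriv (cwd l) z
        = (deriv (cwd (winv l)) (cwd l z) * deriv (cwd l) z) * A (cwd l z) := by ring
      _ = A (cwd l z) := by rw [e, one_mul]

/-- Conjugation by a fixed word `l` which is defined on `U` and maps `U` into `V`. -/
theorem WF.conj (hU : IsOpen U) (hV : IsOpen V) {l : List (ℝ × ℝ)} (hl : ∀ x ∈ l, 0 < x.1)
    (hok : ∀ z ∈ U, Cok l z) (hmap : ∀ z ∈ U, cwd l z ∈ V) (hp : 0 < p) (h : WF V p m w A) :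
    WF U p (m + 2 * l.length) (fun d => l ++ w d ++ winv l)
      fun z => A (cwd l z) / deriv (cwd l) z := by
  obtain ⟨a1, a2⟩ := conjapp hU hV hl hok hmap hp h.ok h.fwd
  obtain ⟨b1, b2⟩ := conjapp hU hV hl hok hmap hp h.ok' h.bwd
  have e : ∀ d, winv (l ++ w d ++ winv l) = l ++ winv (w d) ++ winv l := by
    intro d
    simp only [winv_append, winv_winv, List.append_assoc]
  refine ⟨?_, ?_, a1, ?_, a2, ?_⟩
  · intro d
    simp only [List.length_append, length_winv, h.len]
    ring
  · intro d x hx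
    simp only [List.mem_append] at hx
    rcases hx with (hx | hx) | hx
    · exact hl x hx
    · exact h.pos d x hx
    · exact pos_winv hl x hx
  · simp only [e]
    exact b1
  · simp only [e]
    exact b2.congr_field fun z _ => neg_div _ _

/-- change of the order: `d ↦ d ^ (1 / p)` -/
theorem WF.root (hp : 0 < p) (h : WF U p m w A) :
    WF U 1 m (fun d => w (d ^ (1 / (p : ℝ)))) A :=
  ⟨fun _ => h.len _, fun _ => h.pos _, h.ok.repar (tendsto_root hp),
    h.ok'.repar (tendsto_root hp), h.fwd.root hp, h.bwd.root hp⟩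

/-- change of the parameter by a positive factor -/
theorem WF.scale (hU : IsOpen U) {c : ℝ} (hc : 0 < c) (h : WF U p m w A) :
    WF U p m (fun d => w (c * d)) fun z => (c : ℂ) ^ p * A z :=
  ⟨fun _ => h.len _, fun _ => h.pos _, h.ok.repar (tendsto_scale hc),
    h.ok'.repar (tendsto_scale hc), h.fwd.scale hU hc,
    (h.bwd.scale hU hc).congr_field fun _ _ => mul_neg _ _⟩

/-- The field on the real line decides the sign of the displacement of the real word. -/
theorem WF.sign (h : WF U p m w A) {s : ℝ} (hs : (s : ℂ) ∈ U) {e : ℝ}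
    (he : 0 < e * (A (s : ℂ)).re) : ∀ᶠ d in 𝓝[>] (0 : ℝ), Ok (w d) (Real.exp s) ∧
      0 < e * (wd (w d) (Real.exp s) - Real.exp s) := by
  have hK : ({(s : ℂ)} : Set ℂ) ⊆ U := singleton_subset_iff.2 hs
  have h1 := h.ok _ hK isCompact_singleton
  have h2 : Tendsto (fun d : ℝ => (cwd (w d) (s : ℂ) - s) / (d : ℂ) ^ p) (𝓝[>] 0)
      (𝓝 (A s)) := (h.fwd.lim _ hK isCompact_singleton).tendsto_at rfl
  have h3 : Tendsto (fun d : ℝ => e * ((cwd (w d) (s : ℂ) - s) / (d : ℂ) ^ p).re) (𝓝[>] 0)
      (𝓝 (e * (A s).re)) := (Complex.continuous_re.continuousAt.tendsto.comp h2).const_mul e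
  filter_upwards [h1, h3.eventually (lt_mem_nhds he), self_mem_nhdsWithin] with d k1 k2 k3
  have k3' : 0 < d := k3
  obtain ⟨l1, l2, l3⟩ := (k1 _ rfl).real (h.pos d)
  refine ⟨l1, ?_⟩
  rw [l3, ← Complex.ofReal_pow, ← Complex.ofReal_sub, ← Complex.ofReal_div,
    Complex.ofReal_re, ← mul_div_assoc] at k2
  have k4 : 0 < e * (Real.log (wd (w d) (Real.exp s)) - s) := by
    by_contra hcon
    exact absurd k2 (not_lt.2 (div_nonpos_of_nonpos_of_nonneg (not_lt.1 hcon) (by positivity)))
  rcases pos_and_pos_or_neg_and_neg_of_mul_pos k4 with ⟨c1, c2⟩ | ⟨c1, c2⟩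
  · refine mul_pos c1 (sub_pos.2 ?_)
    calc Real.exp s < Real.exp (Real.log (wd (w d) (Real.exp s))) :=
          Real.exp_lt_exp.2 (by linarith)
      _ = _ := Real.exp_log l2
  · refine mul_pos_of_neg_of_neg c1 (sub_neg.2 ?_)
    calc wd (w d) (Real.exp s) = Real.exp (Real.log (wd (w d) (Real.exp s))) :=
          (Real.exp_log l2).symm
      _ < _ := Real.exp_lt_exp.2 (by linarith)

theorem Rea.mono (h : Rea U p m A) (hV : V ⊆ U) : Rea V p m A := by
  obtain ⟨w, hw⟩ := h
  exact ⟨w, hw.mono hV⟩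

theorem Rea.congr (h : Rea U p m A) (e : ∀ z ∈ U, A z = B z) : Rea U p m B := by
  obtain ⟨w, hw⟩ := h
  exact ⟨w, hw.congr e⟩

theorem Rea.letter {μ : ℝ} (hμ : 0 < μ) (a : ℝ) :
    Rea univ 1 1 fun z => (a : ℂ) * Complex.exp (-(μ : ℂ) * z) :=
  ⟨_, WF.letter hμ a⟩

theorem Rea.add (hU : IsOpen U) (hp : 0 < p) (h : Rea U p m A) (h' : Rea U p m' B) :
    Rea U p (m + m') fun z => A z + B z := by
  obtain ⟨w, hw⟩ := h
  obtain ⟨w', hw'⟩ := h'
  exact ⟨_, hw.add hU hp hw'⟩

/-- finite sums of fields -/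
theorem Rea.sum (hU : IsOpen U) (hp : 0 < p) {n : ℕ} {A : ℕ → ℂ → ℂ}
    (h : ∀ i < n, Rea U p m (A i)) : Rea U p (n * m) fun z => ∑ i ∈ Finset.range n, A i z := by
  induction n with
  | zero => simpa using ⟨_, WF.nil⟩
  | succ n ih =>
    have h1 := (ih fun i hi => h i (by omega)).add hU hp (h n (by omega))
    rw [Nat.succ_mul]
    exact h1.congr fun z _ => (Finset.sum_range_succ (fun i => A i z) n).symm

theorem Rea.comm (hU : IsOpen U) (hp : 0 < p) (hq : 0 < q) (h : Rea U p m A)
    (h' : Rea U q m' B) : Rea U (p + q) (2 * m + 2 * m') (br A B) := by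
  obtain ⟨w, hw⟩ := h
  obtain ⟨w', hw'⟩ := h'
  exact ⟨_, hw.comm hU hp hq hw'⟩

theorem Rea.conj (hU : IsOpen U) (hV : IsOpen V) {l : List (ℝ × ℝ)} (hl : ∀ x ∈ l, 0 < x.1)
    (hok : ∀ z ∈ U, Cok l z) (hmap : ∀ z ∈ U, cwd l z ∈ V) (hp : 0 < p) (h : Rea V p m A) :
    Rea U p (m + 2 * l.length) fun z => A (cwd l z) / deriv (cwd l) z := by
  obtain ⟨w, hw⟩ := h
  exact ⟨_, hw.conj hU hV hl hok hmap hp⟩

theorem Rea.root (hp : 0 < p) (h : Rea U p m A) : Rea U 1 m A := by
  obtain ⟨w, hw⟩ := h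
  exact ⟨_, hw.root hp⟩

end Pool.Agent.Lib.MP_95e7ec_an.Ww
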