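import Mathlib
import Pool.Agent.Lib.MP_95e7ec_anW.Defs

/-!
# Complex words in the logarithmic coordinate

`clt (μ, t)` is the letter `(μ, t)` of `MP_95e7ec_anW` in the coordinate `z = log x`:
`z ↦ z + (1 / μ) log (1 + t exp (- μ z))`. `cwd l` is the map of the word `l` (the first letter
acts first), `Cok l z` says that all the logarithms are taken off the slit, `winv l` is the
inverse word.
-/

set_option autoImplicit false

open Filter Topology Set

namespace Pool.Agent.Lib.MP_95e7ec_an.Ww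

open Pool.Agent.MP95e7W

/-- the letter `(μ, t)` in the coordinate `log` -/
noncomputable def clt (p : ℝ × ℝ) (z : ℂ) : ℂ :=
  z + (1 / (p.1 : ℂ)) * Complex.log (1 + (p.2 : ℂ) * Complex.exp (-(p.1 : ℂ) * z))

/-- the map of a word; the first letter acts first -/
noncomputable def cwd : List (ℝ × ℝ) → ℂ → ℂ
  | [], z => z
  | p :: l, z => cwd l (clt p z)

/-- all the logarithms are taken off the slit -/
def Cok : List (ℝ × ℝ) → ℂ → Prop
  | [], _ => True
  | p :: l, z => 1 + (p.2 : ℂ) * Complex.exp (-(p.1 : ℂ) * z) ∈ Complex.slitPlane ∧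
      Cok l (clt p z)

/-- the inverse word -/
def winv (l : List (ℝ × ℝ)) : List (ℝ × ℝ) := (l.map fun p => (p.1, -p.2)).reverse

@[simp] theorem cwd_nil (z : ℂ) : cwd [] z = z := rfl

@[simp] theorem cwd_cons (p : ℝ × ℝ) (l : List (ℝ × ℝ)) (z : ℂ) :
    cwd (p :: l) z = cwd l (clt p z) := rfl

theorem cwd_append (l l' : List (ℝ × ℝ)) (z : ℂ) : cwd (l ++ l') z = cwd l' (cwd l z) := by
  induction l generalizing z with
  | nil => rfl
  | cons p l ih => exact ih (clt p z)

theorem Cok_append (l l' : List (ℝ × ℝ)) (z : ℂ) :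
    Cok (l ++ l') z ↔ Cok l z ∧ Cok l' (cwd l z) := by
  induction l generalizing z with
  | nil => simp [Cok]
  | cons p l ih =>
    simp only [List.cons_append, Cok, cwd_cons]
    rw [ih, and_assoc]

@[simp] theorem winv_nil : winv [] = [] := rfl

theorem winv_cons (p : ℝ × ℝ) (l : List (ℝ × ℝ)) : winv (p :: l) = winv l ++ [(p.1, -p.2)] := by
  simp [winv]

theorem winv_append (l l' : List (ℝ × ℝ)) : winv (l ++ l') = winv l' ++ winv l := by
  simp [winv]

theorem winv_winv (l : List (ℝ × ℝ)) : winv (winv l) = l := by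
  simp [winv, Function.comp_def]

@[simp] theorem length_winv (l : List (ℝ × ℝ)) : (winv l).length = l.length := by
  simp [winv]

theorem pos_winv {l : List (ℝ × ℝ)} (h : ∀ x ∈ l, 0 < x.1) : ∀ x ∈ winv l, 0 < x.1 := by
  intro x hx
  simp only [winv, List.mem_reverse, List.mem_map] at hx
  obtain ⟨y, hy, rfl⟩ := hx
  exact h y hy

theorem inv_slit {u : ℂ} (h : u ∈ Complex.slitPlane) : u⁻¹ ∈ Complex.slitPlane := by
  have h0 : u ≠ 0 := Complex.slitPlane_ne_zero h
  have hn : 0 < Complex.normSq u := Complex.normSq_pos.2 h0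
  rw [Complex.mem_slitPlane_iff] at h ⊢
  rcases h with h | h
  · left
    rw [Complex.inv_re]
    positivity
  · right
    rw [Complex.inv_im]
    exact div_ne_zero (neg_ne_zero.2 h) hn.ne'

/-- the inverse letter -/
theorem clt_inv {p : ℝ × ℝ} (hp : p.1 ≠ 0) {z : ℂ}
    (h : 1 + (p.2 : ℂ) * Complex.exp (-(p.1 : ℂ) * z) ∈ Complex.slitPlane) :
    1 + ((-p.2 : ℝ) : ℂ) * Complex.exp (-(p.1 : ℂ) * clt p z) ∈ Complex.slitPlane ∧
      clt (p.1, -p.2) (clt p z) = z := by
  have hp' : (p.1 : ℂ) ≠ 0 := Complex.ofReal_ne_zero.2 hp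
  set u : ℂ := 1 + (p.2 : ℂ) * Complex.exp (-(p.1 : ℂ) * z) with hu
  have hu0 : u ≠ 0 := Complex.slitPlane_ne_zero h
  have e1 : Complex.exp (-(p.1 : ℂ) * clt p z) = Complex.exp (-(p.1 : ℂ) * z) * u⁻¹ := by
    have : -(p.1 : ℂ) * clt p z = -(p.1 : ℂ) * z + -Complex.log u := by
      rw [clt, ← hu]
      field_simp
      ring
    rw [this, Complex.exp_add, Complex.exp_neg, Complex.exp_log hu0]
  have e2 : 1 + ((-p.2 : ℝ) : ℂ) * Complex.exp (-(p.1 : ℂ) * clt p z) = u⁻¹ := by
    rw [e1]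
    have : Complex.exp (-(p.1 : ℂ) * z) * (p.2 : ℂ) = u - 1 := by rw [hu]; ring
    push_cast
    calc 1 + -(p.2 : ℂ) * (Complex.exp (-(p.1 : ℂ) * z) * u⁻¹)
        = 1 - (Complex.exp (-(p.1 : ℂ) * z) * (p.2 : ℂ)) * u⁻¹ := by ring
      _ = u⁻¹ := by rw [this]; field_simp; ring
  refine ⟨?_, ?_⟩
  · rw [e2]
    exact inv_slit h
  · have e3 : clt (p.1, -p.2) (clt p z) = clt p z + (1 / (p.1 : ℂ)) * Complex.log u⁻¹ := by
      rw [← e2]
      rfl
    rw [e3, Complex.log_inv _ (Complex.slitPlane_arg_ne_pi h), clt, ← hu]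
    ring

/-- the inverse word is defined at the image and inverts the word -/
theorem Cok.inv {l : List (ℝ × ℝ)} (hl : ∀ x ∈ l, 0 < x.1) {z : ℂ} (h : Cok l z) :
    Cok (winv l) (cwd l z) ∧ cwd (winv l) (cwd l z) = z := by
  induction l generalizing z with
  | nil => simp [Cok]
  | cons p l ih =>
    obtain ⟨h1, h2⟩ := h
    obtain ⟨h3, h4⟩ := ih (fun x hx => hl x (List.mem_cons_of_mem _ hx)) h2
    obtain ⟨h5, h6⟩ := clt_inv (hl p List.mem_cons_self).ne' h1
    rw [winv_cons, Cok_append, cwd_append, cwd_cons, h4]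
    exact ⟨⟨h3, h5, trivial⟩, h6⟩

theorem clt_differentiableAt {p : ℝ × ℝ} {z : ℂ}
    (h : 1 + (p.2 : ℂ) * Complex.exp (-(p.1 : ℂ) * z) ∈ Complex.slitPlane) :
    DifferentiableAt ℂ (clt p) z := by
  unfold clt
  refine differentiableAt_id.add (DifferentiableAt.const_mul ?_ _)
  refine DifferentiableAt.clog ?_ h
  fun_prop

theorem Cok.differentiableAt {l : List (ℝ × ℝ)} {z : ℂ} (h : Cok l z) :
    DifferentiableAt ℂ (cwd l) z := by
  induction l generalizing z with
  | nil => exact differentiableAt_id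
  | cons p l ih => exact (ih h.2).comp z (clt_differentiableAt h.1)

/-- being defined is an open condition -/
theorem Cok.eventually {l : List (ℝ × ℝ)} {z : ℂ} (h : Cok l z) : ∀ᶠ w in 𝓝 z, Cok l w := by
  induction l generalizing z with
  | nil => exact Eventually.of_forall fun _ => trivial
  | cons p l ih =>
    have h1 : ContinuousAt (fun w : ℂ => 1 + (p.2 : ℂ) * Complex.exp (-(p.1 : ℂ) * w)) z := by
      fun_prop
    have h2 := (clt_differentiableAt h.1).continuousAt
    filter_upwards [h1.eventually (Complex.isOpen_slitPlane.mem_nhds h.1),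
      h2.eventually (ih h.2)] with w hw1 hw2
    exact ⟨hw1, hw2⟩

theorem isOpen_Cok (l : List (ℝ × ℝ)) : IsOpen {z : ℂ | Cok l z} :=
  isOpen_iff_mem_nhds.2 fun _ hz => Cok.eventually hz

/-- the map of the word and the map of the inverse word are local inverses -/
theorem Cok.deriv_mul {l : List (ℝ × ℝ)} (hl : ∀ x ∈ l, 0 < x.1) {z : ℂ} (h : Cok l z) :
    deriv (cwd (winv l)) (cwd l z) * deriv (cwd l) z = 1 := by
  have h1 := (h.inv hl).1.differentiableAt
  have h2 := h.differentiableAt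
  have e : (fun w => cwd (winv l) (cwd l w)) =ᶠ[𝓝 z] fun w => w := by
    filter_upwards [h.eventually] with w hw
    exact (hw.inv hl).2
  have h3 : HasDerivAt (fun w => cwd (winv l) (cwd l w))
      (deriv (cwd (winv l)) (cwd l z) * deriv (cwd l) z) z :=
    HasDerivAt.comp z h1.hasDerivAt h2.hasDerivAt
  exact h3.unique ((hasDerivAt_id z).congr_of_eventuallyEq e)

/-- On the real line the complex word is the real word in the coordinate `log`. -/
theorem Cok.real {l : List (ℝ × ℝ)} (hl : ∀ x ∈ l, 0 < x.1) {s : ℝ} (h : Cok l (s : ℂ)) :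
    Ok l (Real.exp s) ∧ 0 < wd l (Real.exp s) ∧
      cwd l (s : ℂ) = ((Real.log (wd l (Real.exp s)) : ℝ) : ℂ) := by
  induction l generalizing s with
  | nil => simp [Ok, Real.exp_pos]
  | cons p l ih =>
    obtain ⟨h1, h2⟩ := h
    have hp := hl p List.mem_cons_self
    have e1 : (1 : ℂ) + (p.2 : ℂ) * Complex.exp (-(p.1 : ℂ) * s) =
        ((1 + p.2 * Real.exp (-p.1 * s) : ℝ) : ℂ) := by push_cast; rfl
    rw [e1, Complex.ofReal_mem_slitPlane] at h1
    have e2 : Real.exp s ^ p.1 + p.2 = Real.exp (p.1 * s) * (1 + p.2 * Real.exp (-p.1 * s)) := by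
      rw [← Real.exp_mul, mul_comm s p.1, mul_add, mul_one, mul_left_comm, ← Real.exp_add]
      simp
    have e3 : 0 < Real.exp s ^ p.1 + p.2 := by rw [e2]; positivity
    have e4 : lt p (Real.exp s) =
        Real.exp (s + 1 / p.1 * Real.log (1 + p.2 * Real.exp (-p.1 * s))) := by
      rw [lt, e2, Real.rpow_def_of_pos (by positivity), Real.log_mul (by positivity) (by positivity),
        Real.log_exp]
      congr 1
      field_simp
    have e5 : clt p (s : ℂ) =
        ((s + 1 / p.1 * Real.log (1 + p.2 * Real.exp (-p.1 * s)) : ℝ) : ℂ) := by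
      rw [clt, e1, ← Complex.ofReal_log h1.le]
      push_cast
      ring
    rw [e5] at h2
    obtain ⟨h3, h4, h5⟩ := ih (fun x hx => hl x (List.mem_cons_of_mem _ hx)) h2
    rw [← e4] at h3 h4 h5
    refine ⟨⟨Real.exp_pos _, e3, h3⟩, h4, ?_⟩
    rw [cwd_cons, e5, h5]
    rfl

end Pool.Agent.Lib.MP_95e7ec_an.Ww
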